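import Pool.Agent.LSN.Defs

set_option autoImplicit false

namespace Pool.Agent.LSN

section walks

variable {V : Type} {r : V → V → Prop}

lemma W_zero {u v : V} : W r 0 u v ↔ u = v := Iff.rfl

lemma W_succ {k : ℕ} {u v : V} : W r (k + 1) u v ↔ ∃ w, W r k u w ∧ r w v := Iff.rfl

lemma W_one {u v : V} : W r 1 u v ↔ r u v := by
  constructor
  · rintro ⟨w, h, h'⟩
    rw [W_zero] at h
    rw [h]; exact h'
  · intro h
    exact ⟨u, rfl, h⟩

lemma W_add {j k : ℕ} {u v w : V} (h : W r j u v) (h' : W r k v w) : W r (j + k) u w := by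
  induction k generalizing w with
  | zero => rw [W_zero] at h'; rw [← h']; exact h
  | succ k ih =>
    obtain ⟨x, h1, h2⟩ := h'
    exact ⟨x, ih h1, h2⟩

lemma W_refl (hr : ∀ v, r v v) (k : ℕ) (v : V) : W r k v v := by
  induction k with
  | zero => rfl
  | succ k ih => exact ⟨v, ih, hr v⟩

lemma W_mono (hr : ∀ v, r v v) {j k : ℕ} (hjk : j ≤ k) {u v : V} (h : W r j u v) : W r k u v := by
  obtain ⟨d, rfl⟩ := Nat.exists_eq_add_of_le hjk
  exact W_add h (W_refl hr d v)

lemma W_symm (hs : ∀ u v, r u v → r v u) {k : ℕ} {u v : V} (h : W r k u v) : W r k v u := by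
  induction k generalizing v with
  | zero => rw [W_zero] at h; rw [h]; rfl
  | succ k ih =>
    obtain ⟨x, h1, h2⟩ := h
    have h3 : W r 1 v x := W_one.2 (hs _ _ h2)
    have := W_add h3 (ih h1)
    rwa [add_comm] at this

/-- a walk given as a sequence -/
lemma W_seq {X : ℕ → V} {T : ℕ} (hX : ∀ t < T, r (X t) (X (t + 1))) {i j : ℕ} (hij : i ≤ j)
    (hj : j ≤ T) : W r (j - i) (X i) (X j) := by
  obtain ⟨d, rfl⟩ := Nat.exists_eq_add_of_le hij
  rw [Nat.add_sub_cancel_left]
  induction d with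
  | zero => rfl
  | succ d ih => exact ⟨X (i + d), ih (by omega) (by omega), hX (i + d) (by omega)⟩

end walks

section pairs

variable {N N' : Type} {r : N → N → Prop} {r' : N' → N' → Prop} {S S' : N → N' → Prop}

lemma Rch_mono (hS : ∀ u v, S u v → S' u v) {p q : N × N'} (h : Rch r r' S p q) :
    Rch r r' S' p q := by
  obtain ⟨h1, h2⟩ := h
  refine ⟨hS _ _ h1, ?_⟩
  induction h2 with
  | refl => exact Relation.ReflTransGen.refl
  | tail _ h4 ih => exact Relation.ReflTransGen.tail ih ⟨h4.1, h4.2.1, hS _ _ h4.2.2⟩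

lemma Rch_end {p q : N × N'} (h : Rch r r' S p q) : S q.1 q.2 := by
  obtain ⟨h1, h2⟩ := h
  induction h2 with
  | refl => exact h1
  | tail _ h3 _ => exact h3.2.2

lemma Rch_refl {p : N × N'} (h : S p.1 p.2) : Rch r r' S p p := ⟨h, Relation.ReflTransGen.refl⟩

lemma Rch_trans {p q s : N × N'} (h : Rch r r' S p q) (h' : Rch r r' S q s) : Rch r r' S p s :=
  ⟨h.1, h.2.trans h'.2⟩

lemma Rch_symm (hr : ∀ u v, r u v → r v u) (hr' : ∀ u v, r' u v → r' v u) {p q : N × N'}
    (h : Rch r r' S p q) : Rch r r' S q p := by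
  refine ⟨Rch_end h, ?_⟩
  obtain ⟨h1, h2⟩ := h
  induction h2 with
  | refl => exact Relation.ReflTransGen.refl
  | @tail a c h3 h4 ih =>
    have ha : S a.1 a.2 := Rch_end (r := r) (r' := r') ⟨h1, h3⟩
    exact Relation.ReflTransGen.head ⟨hr _ _ h4.1, hr' _ _ h4.2.1, ha⟩ ih

/-- pairs visited by a pair walk are reachable from each other (forwards) -/
lemma PW_Rch {X : ℕ → N} {Y : ℕ → N'} {T : ℕ} (h : PW r r' S X Y T) {i j : ℕ} (hij : i ≤ j)
    (hj : j ≤ T) : Rch r r' S (X i, Y i) (X j, Y j) := by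
  obtain ⟨d, rfl⟩ := Nat.exists_eq_add_of_le hij
  refine ⟨h.2 i (by omega), ?_⟩
  induction d with
  | zero => exact Relation.ReflTransGen.refl
  | succ d ih =>
    refine Relation.ReflTransGen.tail (ih (by omega) (by omega)) ?_
    exact ⟨(h.1 (i + d) (by omega)).1, (h.1 (i + d) (by omega)).2, h.2 (i + d + 1) (by omega)⟩

/-- a reachable pair is the end of a pair walk -/
lemma Rch_PW {p q : N × N'} (h : Rch r r' S p q) : ∃ (X : ℕ → N) (Y : ℕ → N') (T : ℕ),
    PW r r' S X Y T ∧ X 0 = p.1 ∧ Y 0 = p.2 ∧ X T = q.1 ∧ Y T = q.2 := by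
  obtain ⟨h1, h2⟩ := h
  induction h2 with
  | refl =>
    exact ⟨fun _ => p.1, fun _ => p.2, 0, ⟨fun t ht => absurd ht (by omega), fun _ _ => h1⟩,
      rfl, rfl, rfl, rfl⟩
  | @tail a c h3 h4 ih =>
    obtain ⟨X, Y, T, hW, hX0, hY0, hXT, hYT⟩ := ih
    refine ⟨fun t => if t ≤ T then X t else c.1, fun t => if t ≤ T then Y t else c.2, T + 1,
      ⟨?_, ?_⟩, ?_, ?_, ?_, ?_⟩
    · intro t ht
      rcases Nat.lt_or_ge t T with h | h
      · simp only [show t ≤ T by omega, show t + 1 ≤ T by omega, if_true]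
        exact hW.1 t h
      · have : t = T := by omega
        subst this
        simp only [le_refl, if_true, show ¬ (t + 1 ≤ t) by omega, if_false]
        rw [hXT, hYT]
        exact ⟨h4.1, h4.2.1⟩
    · intro t ht
      rcases Nat.lt_or_ge T t with h | h
      · simp only [show ¬ (t ≤ T) by omega, if_false]
        exact h4.2.2
      · simp only [h, if_true]
        exact hW.2 t h
    · simp [hX0]
    · simp [hY0]
    · simp
    · simp

/-- restriction of a pair walk to an initial part -/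
lemma PW_le {X : ℕ → N} {Y : ℕ → N'} {T T' : ℕ} (h : PW r r' S X Y T) (hT : T' ≤ T) :
    PW r r' S X Y T' :=
  ⟨fun t ht => h.1 t (by omega), fun t ht => h.2 t (by omega)⟩

/-- shifted pair walk -/
lemma PW_shift {X : ℕ → N} {Y : ℕ → N'} {T : ℕ} (h : PW r r' S X Y T) {i : ℕ} (hi : i ≤ T) :
    PW r r' S (fun t => X (i + t)) (fun t => Y (i + t)) (T - i) :=
  ⟨fun t ht => h.1 (i + t) (by omega), fun t ht => h.2 (i + t) (by omega)⟩

/-- reversed pair walk from time `i` -/
lemma PW_rev (hr : ∀ u v, r u v → r v u) (hr' : ∀ u v, r' u v → r' v u)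
    {X : ℕ → N} {Y : ℕ → N'} {T : ℕ} (h : PW r r' S X Y T) {i : ℕ} (hi : i ≤ T) :
    PW r r' S (fun t => X (i - t)) (fun t => Y (i - t)) i := by
  refine ⟨fun t ht => ?_, fun t ht => h.2 (i - t) (by omega)⟩
  have h1 := h.1 (i - (t + 1)) (by omega)
  rw [show i - (t + 1) + 1 = i - t by omega] at h1
  exact ⟨hr _ _ h1.1, hr' _ _ h1.2⟩

end pairs

section codes

variable {V : Type} {b K : ℕ} (G : Base V b K)

lemma pp_succ {k : ℕ} (nb : V → Fin b → V) (f : Fin k → Fin b) (v : V) (j : ℕ) (h : j < k) :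
    pp nb f v (j + 1) = nb (pp nb f v j) (f ⟨j, h⟩) := by
  simp [pp, h]

lemma pp_step {k : ℕ} (f : Fin k → Fin b) (v : V) (j : ℕ) :
    G.r (pp G.nb f v j) (pp G.nb f v (j + 1)) := by
  by_cases h : j < k
  · rw [pp_succ _ _ _ _ h, G.nb_r]
    exact ⟨_, rfl⟩
  · simp only [pp, h, dif_neg, not_false_iff]
    exact G.refl _

lemma pp_W {k : ℕ} (f : Fin k → Fin b) (v : V) (j : ℕ) : W G.r j v (pp G.nb f v j) := by
  have := W_seq (r := G.r) (X := pp G.nb f v) (T := j) (fun t _ => pp_step G f v t)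
    (Nat.zero_le j) le_rfl
  rw [Nat.sub_zero] at this
  exact this

/-- every sequence of adjacent vertices has a path code -/
lemma pp_exists {k : ℕ} (X : ℕ → V) (hX : ∀ j < k, G.r (X j) (X (j + 1))) :
    ∃ f : Fin k → Fin b, ∀ j ≤ k, pp G.nb f (X 0) j = X j := by
  have h : ∀ j : Fin k, ∃ a, G.nb (X j) a = X (j + 1) := fun j => (G.nb_r _ _).1 (hX j j.2)
  choose f hf using h
  refine ⟨f, ?_⟩
  intro j
  induction j with
  | zero => intro _; rfl
  | succ j ih =>
    intro hj
    rw [pp_succ _ _ _ _ (show j < k by omega), ih (by omega)]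
    exact hf ⟨j, by omega⟩

lemma W_code {k : ℕ} {u v : V} (h : W G.r k u v) : ∃ f : Fin k → Fin b, pp G.nb f u k = v := by
  have key : ∀ (k : ℕ) (u v : V), W G.r k u v → ∃ X : ℕ → V, X 0 = u ∧ X k = v ∧
      ∀ j < k, G.r (X j) (X (j + 1)) := by
    intro k
    induction k with
    | zero => intro u v h; exact ⟨fun _ => u, rfl, h, fun j hj => absurd hj (by omega)⟩
    | succ k ih =>
      rintro u v ⟨w, h1, h2⟩
      obtain ⟨X, h3, h4, h5⟩ := ih u w h1
      refine ⟨fun j => if j ≤ k then X j else v, by simp [h3], by simp, ?_⟩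
      intro j hj
      rcases Nat.lt_or_ge j k with h | h
      · simp only [show j ≤ k by omega, show j + 1 ≤ k by omega, if_true]
        exact h5 j h
      · have : j = k := by omega
        subst this
        simp only [le_refl, if_true, show ¬ (j + 1 ≤ j) by omega, if_false, h4]
        exact h2
  obtain ⟨X, h1, h2, h3⟩ := key k u v h
  obtain ⟨f, hf⟩ := pp_exists G X h3
  refine ⟨f, ?_⟩
  rw [← h1, hf k le_rfl, h2]

end codes

end Pool.Agent.LSN
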