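import Mathlib

/-!
# LSN: definitions for the log* theorem on boring (stroll-nonrepetitive) colourings

See `Targets.lean` for the plan.  All types are in `Type`.
-/

set_option autoImplicit false

namespace Pool.Agent.LSN

/-- `W r k u v`: there is a walk of exactly `k` steps along `r` from `u` to `v` -/
def W {V : Type} (r : V → V → Prop) : ℕ → V → V → Prop
  | 0, u, v => u = v
  | k + 1, u, v => ∃ w, W r k u w ∧ r w v

/-- The base graph: closed adjacency `r` (reflexive, symmetric), a numbering `nb u : Fin b → V` of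
the closed neighbourhoods and a base colouring which is injective on closed neighbourhoods. -/
structure Base (V : Type) (b K : ℕ) where
  r : V → V → Prop
  refl : ∀ v, r v v
  symm : ∀ u v, r u v → r v u
  nb : V → Fin b → V
  nb_r : ∀ u v, r u v ↔ ∃ a, nb u a = v
  col : V → Fin K
  loc : ∀ x y y', r x y → r x y' → col y = col y' → y = y'

/-- rigidity at scale `s`: in a pair walk of at most `s` steps with matching base colours and
pairwise different pairs, the first coordinates are pairwise different -/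
def Rig {V : Type} {b K : ℕ} (G : Base V b K) (s : ℕ) : Prop :=
  ∀ (n : ℕ) (X Y : ℕ → V), n ≤ s → (∀ j < n, G.r (X j) (X (j + 1)) ∧ G.r (Y j) (Y (j + 1))) →
    (∀ j ≤ n, G.col (X j) = G.col (Y j)) →
    (∀ i ≤ n, ∀ j ≤ n, X i = X j → Y i = Y j → i = j) → ∀ i ≤ n, ∀ j ≤ n, X i = X j → i = j

/-- position after `j` steps of the path with code `f`, started at `v` -/
def pp {V : Type} {b k : ℕ} (nb : V → Fin b → V) (f : Fin k → Fin b) (v : V) : ℕ → V
  | 0 => v
  | j + 1 => if h : j < k then nb (pp nb f v j) (f ⟨j, h⟩) else pp nb f v j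

/-- table of the first `n + 1` centres of a chain code -/
def tab {V : Type} {b m k : ℕ} (nb : V → Fin b → V) (ch : Fin m → Fin m × (Fin k → Fin b))
    (x : V) : ℕ → ℕ → V
  | 0 => fun _ => x
  | n + 1 => Function.update (tab nb ch x n) (n + 1)
      (if h : n + 1 < m then pp nb (ch ⟨n + 1, h⟩).2 (tab nb ch x n (ch ⟨n + 1, h⟩).1) k else x)

/-- the `l`-th centre of a chain code: centre `0` is `x`, and centre `l` is the end of a path of
`k` steps from an older centre -/
def ctr {V : Type} {b m k : ℕ} (nb : V → Fin b → V) (ch : Fin m → Fin m × (Fin k → Fin b))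
    (x : V) (l : ℕ) : V := tab nb ch x l l

/-- coloured relational structures: relation, base colour, colours (coordinates `0, 1, ...`) -/
structure Str (K M : ℕ) (N : Type) where
  r : N → N → Prop
  col : N → Fin K
  c : N → ℕ → Fin M

/-- the base graph with a colouring -/
def Base.str {V : Type} {b K M : ℕ} (G : Base V b K) (c : V → ℕ → Fin M) : Str K M V :=
  ⟨G.r, G.col, c⟩

/-- `A` is admissible: symmetric and its base part embeds into the base graph -/
def Adm {V N : Type} {b K M : ℕ} (G : Base V b K) (A : Str K M N) : Prop :=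
  (∀ x y, A.r x y → A.r y x) ∧ ∃ f : N → V, Function.Injective f ∧
    (∀ x y, A.r x y → G.r (f x) (f y)) ∧ ∀ x, A.col x = G.col (f x)

/-- matching of order `e`: equal base colours and equal colours in the coordinates `< e` -/
def Mt {K M : ℕ} {N N' : Type} (A : Str K M N) (B : Str K M N') (e : ℕ) (x : N) (y : N') : Prop :=
  A.col x = B.col y ∧ ∀ k < e, A.c x k = B.c y k

/-- pairs reachable from the pair `p` by pair walks inside the set `S` of pairs -/
def Rch {N N' : Type} (r : N → N → Prop) (r' : N' → N' → Prop) (S : N → N' → Prop)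
    (p q : N × N') : Prop :=
  S p.1 p.2 ∧ Relation.ReflTransGen
    (fun a b : N × N' => r a.1 b.1 ∧ r' a.2 b.2 ∧ S b.1 b.2) p q

/-- pair walk `(X 0, Y 0), ..., (X T, Y T)` inside the set `S` of pairs -/
def PW {N N' : Type} (r : N → N → Prop) (r' : N' → N' → Prop) (S : N → N' → Prop)
    (X : ℕ → N) (Y : ℕ → N') (T : ℕ) : Prop :=
  (∀ t < T, r (X t) (X (t + 1)) ∧ r' (Y t) (Y (t + 1))) ∧ ∀ t ≤ T, S (X t) (Y t)

/-- parameters: base scale `s`, numbers of windows `m i`, numbers `Nn i` -/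
structure Par where
  s : ℕ
  m : ℕ → ℕ
  Nn : ℕ → ℕ

def Par.Ok (P : Par) : Prop := ∀ i, 2 ≤ P.m i ∧ 2 ≤ P.Nn i

/-- radius of the windows of level `i` -/
def Par.rho (P : Par) : ℕ → ℕ
  | 0 => P.s
  | i + 1 => P.m i * (2 * P.rho i + 1)

/-- number of erased vertices of a window of level `i` -/
def Par.g (P : Par) : ℕ → ℕ
  | 0 => P.s + 1
  | i + 1 => P.m i * P.g i

/-- size of the structures of level `i` -/
def Par.xi (P : Par) (b i : ℕ) : ℕ := P.m i * b ^ (2 * P.rho i)

/-- bound for the number of partners at level `i` -/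
def Par.Xi (P : Par) (b i : ℕ) : ℕ := P.Nn i * b ^ (2 * P.rho i)

/-- skeletons of windows of level `i` -/
def Sk (P : Par) (b : ℕ) : ℕ → Type
  | 0 => Fin P.s → Fin b
  | i + 1 => (Fin (P.m i) → Fin (P.m i) × (Fin (2 * P.rho i + 1) → Fin b)) ×
      (Fin (P.m i) → Sk P b i)

/-- pointers of windows of level `i` -/
def Pt (P : Par) (b : ℕ) : ℕ → Type
  | 0 => Unit
  | i + 1 => Fin (P.m i) → Fin (P.Xi b i) × Pt P b i

/-- indices of the erased vertices of a window of level `i` -/
def Ix (P : Par) : ℕ → Type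
  | 0 => Fin (P.s + 1)
  | i + 1 => Fin (P.m i) × Ix P i

noncomputable instance instSk (P : Par) (b : ℕ) : (i : ℕ) → Fintype (Sk P b i)
  | 0 => inferInstanceAs (Fintype (Fin P.s → Fin b))
  | i + 1 =>
    letI := instSk P b i
    inferInstanceAs (Fintype ((Fin (P.m i) → Fin (P.m i) × (Fin (2 * P.rho i + 1) → Fin b)) ×
      (Fin (P.m i) → Sk P b i)))

noncomputable instance instPt (P : Par) (b : ℕ) : (i : ℕ) → Fintype (Pt P b i)
  | 0 => inferInstanceAs (Fintype Unit)
  | i + 1 =>
    letI := instPt P b i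
    inferInstanceAs (Fintype (Fin (P.m i) → Fin (P.Xi b i) × Pt P b i))

noncomputable instance instIx (P : Par) : (i : ℕ) → Fintype (Ix P i)
  | 0 => inferInstanceAs (Fintype (Fin (P.s + 1)))
  | i + 1 =>
    letI := instIx P i
    inferInstanceAs (Fintype (Fin (P.m i) × Ix P i))

/-- erased vertices of the window with centre `x` and skeleton `s` -/
def er {V : Type} {b : ℕ} (P : Par) (nb : V → Fin b → V) : (i : ℕ) → Sk P b i → V → Ix P i → V
  | 0, f, x, j => pp (k := P.s) nb f x (Fin.val (n := P.s + 1) j)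
  | i + 1, s, x, q => er P nb i (s.2 q.1) (ctr nb s.1 x q.1.val) q.2

/-- the `k`-th element of the set `A` -/
noncomputable def sel {N : Type} [Finite N] (d : N) (k : ℕ) (A : Set N) : N :=
  (Set.toFinite A).toFinset.toList.getD k d

/-- union of the balls of radius `k` around the centres `z 0, ..., z (m - 1)` -/
def reg {V : Type} (r : V → V → Prop) (z : ℕ → V) (m k : ℕ) : Set V :=
  {u | ∃ l < m, W r k (z l) u}

open Classical in
/-- the walk along `r` from `y` whose base colours are `t 1, t 2, ...` -/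
noncomputable def lf {K : ℕ} {N : Type} (r : N → N → Prop) (col : N → Fin K) (t : ℕ → Fin K)
    (y : N) : ℕ → N
  | 0 => y
  | j + 1 => if h : ∃ w, r (lf r col t y j) w ∧ col w = t (j + 1) then h.choose
      else lf r col t y j

/-- allowed pairs of order `e` in the region `R × Bs` -/
def Al {K M : ℕ} {N N' : Type} (A : Str K M N) (B : Str K M N') (R : Set N) (Bs : Set N') (e : ℕ)
    (u : N) (v : N') : Prop := u ∈ R ∧ v ∈ Bs ∧ Mt A B e u v

/-- partners of `u` reachable from `(x, y)` -/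
def Prt {K M : ℕ} {N N' : Type} (A : Str K M N) (B : Str K M N') (R : Set N) (Bs : Set N')
    (e : ℕ) (x : N) (y : N') (u : N) : Set N' :=
  {v | Rch A.r B.r (Al A B R Bs e) (x, y) (u, v)}

/-- partners (in the structure `B`, inside `Bs`) of the erased vertices of a window -/
noncomputable def pa {V N : Type} {b K M : ℕ} [Finite N] (P : Par) (G : Base V b K)
    (c : V → ℕ → Fin M) (B : Str K M N) (Bs : Set N) :
    (i : ℕ) → Sk P b i → Pt P b i → V → N → Ix P i → N
  | 0, f, _, x, y, j => lf B.r B.col (fun j => G.col (pp (k := P.s) G.nb f x j)) y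
      (Fin.val (n := P.s + 1) j)
  | i + 1, s, p, x, y, q => pa P G c B Bs i (s.2 q.1) (p q.1).2 (ctr G.nb s.1 x q.1.val)
      (sel y (p q.1).1.val (Prt (G.str c) B
        (reg G.r (ctr G.nb s.1 x) (P.m i) (2 * P.rho i)) Bs (i + 1) x y
        (ctr G.nb s.1 x q.1.val))) q.2

/-- `Gd i n A`: the structure `A` on `Fin n` satisfies the bounds of all levels `< i` -/
def Gd {V : Type} {b K M : ℕ} (P : Par) (G : Base V b K) :
    ℕ → (n : ℕ) → Str K M (Fin n) → Prop
  | 0, _, _ => True
  | i + 1, n, A => Gd P G i n A ∧ ∀ n' ≤ P.xi b i, ∀ A' : Str K M (Fin n'), Adm G A' →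
      Gd P G i n' A' → ∀ (x : Fin n') (y : Fin n),
        {v | ∃ u, Rch A'.r A.r (Mt A' A (i + 1)) (x, y) (u, v)}.ncard < P.Xi b i

/-- the bound of level `i` for a structure: for every good structure `A'` on at most `xi i`
points, every component of pairs of order `i + 1` has less than `Xi i` second coordinates -/
def Bd {V N : Type} {b K M : ℕ} (P : Par) (G : Base V b K) (i : ℕ) (A : Str K M N) : Prop :=
  ∀ n' ≤ P.xi b i, ∀ A' : Str K M (Fin n'), Adm G A' →
      Gd P G i n' A' → ∀ (x : Fin n') (y : N),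
        {v | ∃ u, Rch A'.r A.r (Mt A' A (i + 1)) (x, y) (u, v)}.ncard < P.Xi b i

/-- `tau` gives the times of the first `m` greedy centres (radius `k`) of the walk `X` -/
def GC {V : Type} (r : V → V → Prop) (X : ℕ → V) (k m : ℕ) (tau : ℕ → ℕ) : Prop :=
  tau 0 = 0 ∧ (∀ l, l + 1 < m → tau l < tau (l + 1)) ∧
  (∀ l l', l < l' → l' < m → ¬ W r k (X (tau l)) (X (tau l'))) ∧
  (∀ l, 1 ≤ l → l < m → ∃ a < l, W r (k + 1) (X (tau a)) (X (tau l))) ∧
  (∀ t ≤ tau (m - 1), ∃ l < m, tau l ≤ t ∧ W r k (X (tau l)) (X t))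

/-- window lemma of level `i` -/
def WL {V : Type} {b K M : ℕ} (P : Par) (G : Base V b K) (c : V → ℕ → Fin M) (i : ℕ) : Prop :=
  (∀ j, j + 1 < i → Bd P G j (G.str c)) →
  ∀ (N : Type) [Finite N] (B : Str K M N) (Bs : Set N), Adm G B → (∀ j < i, Bd P G j B) →
  ∀ e, i ≤ e → ∀ (X : ℕ → V) (Y : ℕ → N) (T : ℕ),
    PW G.r B.r (Al (G.str c) B Set.univ Bs e) X Y T → (∃ t ≤ T, ¬ W G.r (P.rho i) (X 0) (X t)) →
    ∃ (s : Sk P b i) (p : Pt P b i), Function.Injective (er P G.nb i s (X 0)) ∧
      ∀ q, ∃ t ≤ T, er P G.nb i s (X 0) q = X t ∧ pa P G c B Bs i s p (X 0) (Y 0) q = Y t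

/-! ### Events -/

open Finset

/-- the colouring given by an assignment -/
def cz {V : Type} {M L : ℕ} [NeZero M] (z : V × Fin (L + 1) → Fin M) (v : V) (k : ℕ) : Fin M :=
  if h : k < L + 1 then z (v, ⟨k, h⟩) else 0

/-- data of a structure on `Fin n` with colours in the coordinates `0, ..., i` -/
abbrev Dat (K M i n : ℕ) : Type :=
  (Fin n → Fin n → Bool) × (Fin n → Fin K) × (Fin n → Fin (i + 1) → Fin M)

/-- the structure with given data -/
def sD {K M i n : ℕ} [NeZero M] (d : Dat K M i n) : Str K M (Fin n) :=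
  ⟨fun x y => d.1 x y = true, d.2.1, fun x k => if h : k < i + 1 then d.2.2 x ⟨k, h⟩ else 0⟩

/-- events of the first kind (level `i`, structures on `n` points): root, structure, chain of
`Nn i` centres, elements of the structure, skeletons -/
abbrev EG (P : Par) (V : Type) (b K M i n : ℕ) : Type :=
  V × Dat K M i n × (Fin (P.Nn i) → Fin (P.Nn i) × (Fin (2 * P.rho i + 1) → Fin b)) ×
    (Fin (P.Nn i) → Fin n) × (Fin (P.Nn i) → Sk P b i)

/-- centres -/
def zG {V : Type} {b K M i n : ℕ} (P : Par) (G : Base V b K) (e : EG P V b K M i n) (l : ℕ) : V :=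
  ctr G.nb e.2.2.1 e.1 l

/-- erased vertices -/
def eG {V : Type} {b K M i n : ℕ} (P : Par) (G : Base V b K) (e : EG P V b K M i n)
    (q : Fin (P.Nn i) × Ix P i) : V := er P G.nb i (e.2.2.2.2 q.1) (zG P G e q.1.val) q.2

open Classical in
noncomputable def UG {V : Type} {b K M i n : ℕ} (P : Par) (G : Base V b K) {L : ℕ}
    (hi : i < L + 1) (e : EG P V b K M i n) : Finset (V × Fin (L + 1)) :=
  univ.image (fun q => (eG P G e q, (⟨i, hi⟩ : Fin (L + 1))))

open Classical in
noncomputable def DG {V : Type} [Fintype V] {b K M i n : ℕ} (P : Par) (G : Base V b K) (L : ℕ)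
    (e : EG P V b K M i n) : Finset (V × Fin (L + 1)) :=
  univ.filter (fun x => W G.r (P.Nn i * (2 * P.rho i + 1) + P.rho i) e.1 x.1)

def badG {V : Type} {b K M i n L : ℕ} [NeZero M] (P : Par) (G : Base V b K)
    (e : EG P V b K M i n) (z : V × Fin (L + 1) → Fin M) : Prop :=
  Adm G (sD e.2.1) ∧ Gd P G i n (sD e.2.1) ∧ Function.Injective (eG P G e) ∧
    ∃ p : Fin (P.Nn i) → Pt P b i, ∀ q : Fin (P.Nn i) × Ix P i,
      cz z (eG P G e q) i = (sD e.2.1).c (pa P G (cz z) (sD e.2.1) Set.univ i (e.2.2.2.2 q.1)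
        (p q.1) (zG P G e q.1.val) (e.2.2.2.1 q.1) q.2) i

/-- events of the second kind: roots `x`, `y`, chain of `m` centres, skeletons -/
abbrev EC (P : Par) (V : Type) (b i m : ℕ) : Type :=
  V × V × (Fin m → Fin m × (Fin (2 * P.rho i + 1) → Fin b)) × (Fin m → Sk P b i)

/-- erased vertices -/
def eC {V : Type} {b K i m : ℕ} (P : Par) (G : Base V b K) (e : EC P V b i m)
    (q : Fin m × Ix P i) : V := er P G.nb i (e.2.2.2 q.1) (ctr G.nb e.2.2.1 e.1 q.1.val) q.2

/-- their partners -/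
noncomputable def pC {V : Type} [Finite V] {b K M i m : ℕ} (P : Par) (G : Base V b K)
    (c : V → ℕ → Fin M) (rad : ℕ) (e : EC P V b i m)
    (p : Fin m → Fin (P.Xi b i) × Pt P b i) (q : Fin m × Ix P i) : V :=
  pa P G c (G.str c) {v | W G.r rad e.2.1 v} i (e.2.2.2 q.1) (p q.1).2
    (ctr G.nb e.2.2.1 e.1 q.1.val)
    (sel e.2.1 (p q.1).1.val (Prt (G.str c) (G.str c)
      (reg G.r (ctr G.nb e.2.2.1 e.1) m (2 * P.rho i)) {v | W G.r rad e.2.1 v} (i + 1) e.1 e.2.1
      (ctr G.nb e.2.2.1 e.1 q.1.val))) q.2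

open Classical in
noncomputable def UC {V : Type} {b K i m : ℕ} (P : Par) (G : Base V b K) (L : ℕ)
    (e : EC P V b i m) : Finset (V × Fin (L + 1)) :=
  univ.image (fun q => (eC P G e q, Fin.last L))

open Classical in
/-- all coordinates of the two balls of radius `rad` -/
noncomputable def D2 {V : Type} [Fintype V] {b K : ℕ} (G : Base V b K) (L rad : ℕ) (x y : V) :
    Finset (V × Fin (L + 1)) :=
  univ.filter (fun u => W G.r rad x u.1 ∨ W G.r rad y u.1)

/-- condition on the roots -/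
def Rt {V : Type} {b K : ℕ} (G : Base V b K) (R rad : ℕ) (x y : V) : Prop :=
  ¬ W G.r (2 * rad) x y ∧ (rad < R → W G.r (2 * rad + 2) x y)

def badC {V : Type} [Finite V] {b K M i m L : ℕ} [NeZero M] (P : Par) (G : Base V b K)
    (R rad : ℕ) (e : EC P V b i m) (z : V × Fin (L + 1) → Fin M) : Prop :=
  Rt G R rad e.1 e.2.1 ∧ Function.Injective (eC P G e) ∧
    ∃ p : Fin m → Fin (P.Xi b i) × Pt P b i, ∀ q : Fin m × Ix P i,
      W G.r rad e.2.1 (pC P G (cz z) rad e p q) ∧
        cz z (eC P G e q) L = cz z (pC P G (cz z) rad e p q) L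

/-- events of the third kind: roots `x`, `y`, path of `v` steps -/
abbrev E0 (V : Type) (b v : ℕ) : Type := V × V × (Fin v → Fin b)

/-- erased vertices -/
def e0 {V : Type} {b K v : ℕ} (G : Base V b K) (e : E0 V b v) (j : ℕ) : V :=
  pp G.nb e.2.2 e.1 j

/-- their partners -/
noncomputable def p0 {V : Type} {b K v : ℕ} (G : Base V b K) (e : E0 V b v) (j : ℕ) : V :=
  lf G.r G.col (fun j => G.col (e0 G e j)) e.2.1 j

open Classical in
noncomputable def U0 {V : Type} {b K v : ℕ} (G : Base V b K) (L : ℕ) (e : E0 V b v) :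
    Finset (V × Fin (L + 1)) :=
  (range (v + 1)).image (fun j => (e0 G e j, Fin.last L))

def bad0 {V : Type} {b K M v L : ℕ} [NeZero M] (G : Base V b K)
    (R rad : ℕ) (e : E0 V b v) (z : V × Fin (L + 1) → Fin M) : Prop :=
  Rt G R rad e.1 e.2.1 ∧ (∀ i ≤ v, ∀ j ≤ v, e0 G e i = e0 G e j → i = j) ∧
    ∀ j ≤ v, W G.r rad e.2.1 (p0 G e j) ∧ cz z (e0 G e j) L = cz z (p0 G e j) L

/-! ### Numbers -/

/-- iterated power of two -/
def tw : ℕ → ℕ → ℕ
  | 0, x => x
  | k + 1, x => 2 ^ tw k x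

/-- number of erased vertices and radius of the windows for the actual parameters -/
def gr (L s : ℕ) : ℕ → ℕ × ℕ
  | 0 => (s + 1, s)
  | i + 1 => (2 ^ ((L + 1) * (gr L s i).1) * (gr L s i).1,
      2 ^ ((L + 1) * (gr L s i).1) * (2 * (gr L s i).2 + 1))

/-- the actual parameters -/
def tP (b L s : ℕ) : Par where
  s := s
  m := fun i => 2 ^ ((L + 1) * (gr L s i).1)
  Nn := fun i => (2 ^ ((L + 1) * (gr L s i).1) * b ^ (2 * (gr L s i).2)) ^ 3

def Aa (b L : ℕ) : ℕ := 2 ^ (4 * (L + 1)) * b ^ (11 * 3 ^ L)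

def QL (b K L : ℕ) : ℕ := K * (1600 * Aa b L ^ (L + 7))

/-- number of colours of one coordinate -/
def Mm (b K L : ℕ) : ℕ := 2 * QL b K L ^ 4

end Pool.Agent.LSN
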