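import Pool.Agent.LSN.J46
import Pool.Agent.CayNR.LocalCayley

/-!
# LSN: the final forms of the log* theorem
-/

set_option autoImplicit false

namespace Pool.Agent.LSN

open Finset Pool.Agent.CayNR

/-- number of colours for maximum degree `Δ`, a base colouring with `K` colours and `L` levels -/
def bd (Δ K L : ℕ) : ℕ := K * Mm (Δ + 2) K L ^ (L + 1)

theorem of_base {V κ : Type} [Fintype V] [Fintype κ] (G : SimpleGraph V) (Δ K L s : ℕ)
    (hL : 1 ≤ L) (hΔ : ∀ v, (G.neighborSet v).ncard ≤ Δ) (c0 : V → κ)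
    (hK : Fintype.card κ = K) (hK1 : 1 ≤ K) (hd : Dist2 G c0)
    (hC : Cons G (fun x y => c0 x = c0 y) (s + 1))
    (hV : Fintype.card V ≤ tw (L + 1) (s + 1)) : HasBoringColouring G (bd Δ K L) := by
  classical
  have e : κ ≃ Fin K := (Fintype.equivFin κ).trans (finCongr hK)
  refine T49 G Δ K L s hL hK1 hΔ (fun v => e (c0 v)) ?_ ?_ hV
  · intro x y y' h1 h2 h3
    exact hd x y y' h1 h2 (e.injective h3)
  · intro m x y h3 hm hx hcl hinj hy hyinj hR
    exact hC m x y h3 hm hx hcl hinj hy hyinj (fun i hi => e.injective (hR i hi))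

/-- scale one: no hypothesis on the graph -/
theorem general_graphs {V : Type} [Fintype V] (G : SimpleGraph V) (Δ L : ℕ) (hL : 1 ≤ L)
    (hΔ : ∀ v, (G.neighborSet v).ncard ≤ Δ) (hV : Fintype.card V ≤ tw (L + 1) 1) :
    HasBoringColouring G (bd Δ (cA Δ) L) := by
  obtain ⟨a, ha⟩ := exists_dist2 G Δ hΔ
  refine of_base G Δ (cA Δ) L 0 hL hΔ a (by simp) (by unfold cA; omega) ha ?_ (by simpa using hV)
  intro m x y h3 hm
  omega

/-- graphs whose cycles of length less than `g` are pairwise vertex-disjoint -/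
theorem disjoint_cycles {V : Type} [Fintype V] (G : SimpleGraph V) (Δ L g : ℕ) (hL : 1 ≤ L)
    (hg : 1 ≤ g) (hΔ : ∀ v, (G.neighborSet v).ncard ≤ Δ)
    (hd : ShortCyclesDisjoint G g) (hV : Fintype.card V ≤ tw (L + 1) g) :
    HasBoringColouring G (bd Δ (8 * (cA Δ + 1) * cA Δ) L) := by
  classical
  obtain ⟨s, rfl⟩ : ∃ s, g = s + 1 := ⟨g - 1, by omega⟩
  obtain ⟨a, ha⟩ := exists_dist2 G Δ hΔ
  obtain ⟨ρ⟩ := exists_rot hd
  refine of_base G Δ _ L s hL hΔ (markCol ρ a) ?_ ?_ ?_ (cons_of_rot ρ a ha) hV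
  · simp only [Fintype.card_prod, Fintype.card_option, Fintype.card_fin, Fintype.card_bool]
    ring
  · have : 1 ≤ cA Δ := by unfold cA; omega
    nlinarith
  · intro x y y' h1 h2 h3
    exact ha x y y' h1 h2 (Prod.mk.inj h3).1

/-- graphs which look like a Cayley graph up to scale `g` -/
theorem local_cayley {V Γ : Type} [Fintype V] [Group Γ] (S : Finset Γ)
    (G : SimpleGraph V) (lam : V → V → Γ) (hS : ∀ x y, G.Adj x y → lam x y ∈ S)
    (Δ L g : ℕ) (hL : 1 ≤ L) (hg : 1 ≤ g) (hΔ : ∀ v, (G.neighborSet v).ncard ≤ Δ)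
    (hloc : ∀ m < g, ∀ x : ℕ → V, (∀ i < m, G.Adj (x i) (x (i + 1))) →
      (x m = x 0 ↔ labelProd lam x m = 1)) (hV : Fintype.card V ≤ tw (L + 1) g) :
    HasBoringColouring G (bd Δ (cA Δ * (S.card + 1) ^ cA Δ) L) := by
  classical
  obtain ⟨s, rfl⟩ : ∃ s, g = s + 1 := ⟨g - 1, by omega⟩
  obtain ⟨a, ha⟩ := exists_dist2 G Δ hΔ
  have hT : ∃ T : V → Fin (cA Δ) → Option S, ∀ x y (h : G.Adj x y),
      T x (a y) = some ⟨lam x y, hS _ _ h⟩ := by
    refine ⟨fun x α => if h : ∃ y, G.Adj x y ∧ a y = α then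
      some ⟨lam x h.choose, hS _ _ h.choose_spec.1⟩ else none, ?_⟩
    intro x y h
    have hex : ∃ y', G.Adj x y' ∧ a y' = a y := ⟨y, h, rfl⟩
    simp only [dif_pos hex]
    have h1 := hex.choose_spec
    have h2 : hex.choose = y := ha x _ _ (Or.inl h1.1) (Or.inl h) h1.2
    simp only [h2]
  obtain ⟨T, hT⟩ := hT
  have e : (Option S) ≃ Fin (S.card + 1) :=
    (Fintype.equivFin (Option S)).trans (finCongr (by simp))
  refine of_base G Δ _ L s hL hΔ (fun x => (a x, fun α => e (T x α))) ?_ ?_ ?_ ?_ hV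
  · simp [Fintype.card_prod, Fintype.card_fun]
  · have h1 : 1 ≤ cA Δ := by unfold cA; omega
    exact Nat.mul_pos h1 (Nat.pow_pos (Nat.succ_pos _))
  · intro x y y' h1 h2 h3
    exact ha x y y' h1 h2 (Prod.mk.inj h3).1
  · intro m x y _ hmg hx hcl _ hy _ hR
    have hlam : ∀ i < m, lam (x i) (x (i + 1)) = lam (y i) (y (i + 1)) := by
      intro i hi
      have h1 := hT _ _ (hx i hi)
      have h2 := hT _ _ (hy i hi)
      obtain ⟨-, e2⟩ := Prod.mk.inj (hR i (by omega))
      obtain ⟨e3, -⟩ := Prod.mk.inj (hR (i + 1) (by omega))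
      have e4 : T (x i) = T (y i) := by
        funext α
        exact e.injective (congrFun e2 α)
      rw [e4, e3, h2] at h1
      exact (congrArg Subtype.val (Option.some.inj h1)).symm
    have hprod : ∀ i ≤ m, labelProd lam x i = labelProd lam y i := by
      intro i
      induction i with
      | zero => intro _; rfl
      | succ i ih =>
        intro hi
        simp only [labelProd]
        rw [ih (by omega), hlam i (by omega)]
    rw [hloc m hmg y hy, ← hprod m le_rfl, ← hloc m hmg x hx]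
    exact hcl

end Pool.Agent.LSN
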