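import Pool.Agent.LSN.Basic
set_option autoImplicit false

namespace Pool.Agent.LSN

/-- T01. Balls are finite with at most `b ^ k` points. -/
theorem T01 {V : Type} {b K : ℕ} (G : Base V b K) (k : ℕ) (v : V) :
    {u | W G.r k v u}.Finite ∧ {u | W G.r k v u}.ncard ≤ b ^ k := by
  have h : {u | W G.r k v u} = (fun f : Fin k → Fin b => pp G.nb f v k) '' Set.univ := by
    ext u
    constructor
    · intro hu
      obtain ⟨f, hf⟩ := W_code G hu
      exact ⟨f, trivial, hf⟩
    · rintro ⟨f, -, rfl⟩
      exact pp_W G f v k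
  rw [h]
  refine ⟨Set.finite_univ.image _, (Set.ncard_image_le Set.finite_univ).trans ?_⟩
  rw [Set.ncard_univ, Nat.card_pi]
  simp

/-- T02. Regions are finite with at most `m * b ^ k` points. -/
theorem T02 {V : Type} {b K : ℕ} (G : Base V b K) (z : ℕ → V) (m k : ℕ) :
    (reg G.r z m k).Finite ∧ (reg G.r z m k).ncard ≤ m * b ^ k := by
  induction m with
  | zero =>
    have h : reg G.r z 0 k = ∅ := by
      ext u
      simp [reg]
    rw [h]
    simp
  | succ m ih =>
    have h : reg G.r z (m + 1) k = reg G.r z m k ∪ {u | W G.r k (z m) u} := by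
      ext u
      constructor
      · rintro ⟨l, hl, hu⟩
        rcases Nat.lt_or_ge l m with h1 | h1
        · exact Or.inl ⟨l, h1, hu⟩
        · have : l = m := by omega
          subst this
          exact Or.inr hu
      · rintro (⟨l, hl, hu⟩ | hu)
        · exact ⟨l, by omega, hu⟩
        · exact ⟨m, by omega, hu⟩
    have h1 := T01 G k (z m)
    rw [h]
    refine ⟨ih.1.union h1.1, (Set.ncard_union_le _ _).trans ?_⟩
    rw [Nat.add_mul, Nat.one_mul]
    exact Nat.add_le_add ih.2 h1.2

end Pool.Agent.LSN
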