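import Pool.Agent.LSN.Basic
/-!
# LSN: T03 and T04 (chain codes)
-/

set_option autoImplicit false

namespace Pool.Agent.LSN

/-- beyond the filled part the table still has its initial value -/
theorem T03_out {V : Type} {b m k : ℕ} (nb : V → Fin b → V)
    (ch : Fin m → Fin m × (Fin k → Fin b)) (x : V) (n l : ℕ) (h : n < l) :
    tab nb ch x n l = x := by
  induction n with
  | zero => rfl
  | succ n ih =>
    simp only [tab]
    rw [Function.update_of_ne (by omega)]
    exact ih (by omega)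

theorem T03_tab {V : Type} {b m k : ℕ} (nb : V → Fin b → V)
    (ch : Fin m → Fin m × (Fin k → Fin b)) (x : V) (n l : ℕ) (h : l ≤ n) :
    tab nb ch x n l = ctr nb ch x l := by
  induction n with
  | zero =>
    have : l = 0 := by omega
    subst this
    rfl
  | succ n ih =>
    rcases Nat.lt_or_ge l (n + 1) with h1 | h1
    · simp only [tab]
      rw [Function.update_of_ne (by omega)]
      exact ih (by omega)
    · have : l = n + 1 := by omega
      subst this
      rfl

theorem T03_zero {V : Type} {b m k : ℕ} (nb : V → Fin b → V)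
    (ch : Fin m → Fin m × (Fin k → Fin b)) (x : V) : ctr nb ch x 0 = x := rfl

theorem T03_succ {V : Type} {b m k : ℕ} (nb : V → Fin b → V)
    (ch : Fin m → Fin m × (Fin k → Fin b)) (x : V) (l : ℕ) (h : l + 1 < m) :
    ctr nb ch x (l + 1) =
      pp nb (ch ⟨l + 1, h⟩).2 (tab nb ch x l (ch ⟨l + 1, h⟩).1) k := by
  simp only [ctr, tab, Function.update_self, dif_pos h]

theorem T03_ge {V : Type} {b m k : ℕ} (nb : V → Fin b → V)
    (ch : Fin m → Fin m × (Fin k → Fin b)) (x : V) (l : ℕ) (h : ¬ l + 1 < m) :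
    ctr nb ch x (l + 1) = x := by
  simp only [ctr, tab, Function.update_self, dif_neg h]

/-- T03. Elementary facts on `tab` and `ctr`. -/
theorem T03 {V : Type} {b K m k : ℕ} (G : Base V b K) (ch : Fin m → Fin m × (Fin k → Fin b))
    (x : V) :
    (∀ n l, l ≤ n → tab G.nb ch x n l = ctr G.nb ch x l) ∧ ctr G.nb ch x 0 = x ∧
    (∀ l (h : l + 1 < m), ctr G.nb ch x (l + 1) =
      pp G.nb (ch ⟨l + 1, h⟩).2 (tab G.nb ch x l (ch ⟨l + 1, h⟩).1) k) ∧
    ∀ l, W G.r (k * l) x (ctr G.nb ch x l) := by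
  refine ⟨fun n l h => T03_tab G.nb ch x n l h, T03_zero G.nb ch x,
    fun l h => T03_succ G.nb ch x l h, ?_⟩
  intro l
  induction l using Nat.strong_induction_on with
  | _ l ih =>
    rcases Nat.eq_zero_or_pos l with h0 | h0
    · subst h0
      rw [T03_zero]
      exact W_refl G.refl _ _
    · obtain ⟨l, rfl⟩ : ∃ j, l = j + 1 := ⟨l - 1, by omega⟩
      by_cases h : l + 1 < m
      · rw [T03_succ G.nb ch x l h]
        have h1 : W G.r (k * l) x (tab G.nb ch x l (ch ⟨l + 1, h⟩).1) := by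
          rcases Nat.lt_or_ge l ((ch ⟨l + 1, h⟩).1 : ℕ) with h2 | h2
          · rw [T03_out G.nb ch x l _ h2]
            exact W_refl G.refl _ _
          · rw [T03_tab G.nb ch x l _ h2]
            exact W_mono G.refl (Nat.mul_le_mul_left k h2) (ih _ (by omega))
        exact W_add h1 (pp_W G _ _ k)
      · rw [T03_ge G.nb ch x l h]
        exact W_refl G.refl _ _

/-- T04. Chains have codes. -/
theorem T04 {V : Type} {b K : ℕ} (G : Base V b K) (z : ℕ → V) (m k : ℕ)
    (hz : ∀ l, 1 ≤ l → l < m → ∃ a < l, W G.r k (z a) (z l)) :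
    ∃ ch : Fin m → Fin m × (Fin k → Fin b), ∀ l < m, ctr G.nb ch (z 0) l = z l := by
  have h1 : ∀ l : Fin m, ∃ c : Fin m × (Fin k → Fin b),
      1 ≤ (l : ℕ) → ((c.1 : ℕ) < l ∧ pp G.nb c.2 (z c.1) k = z l) := by
    intro l
    by_cases hl : 1 ≤ (l : ℕ)
    · obtain ⟨a, ha, hW⟩ := hz l hl l.2
      obtain ⟨f, hf⟩ := W_code G hW
      exact ⟨(⟨a, lt_trans ha l.2⟩, f), fun _ => ⟨ha, hf⟩⟩
    · obtain ⟨f, hf⟩ := W_code G (W_refl G.refl k (z 0))
      exact ⟨(l, f), fun h => absurd h hl⟩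
  choose ch hch using h1
  refine ⟨ch, ?_⟩
  intro l
  induction l using Nat.strong_induction_on with
  | _ l ih =>
    intro hl
    rcases Nat.eq_zero_or_pos l with h0 | h0
    · subst h0
      rfl
    · obtain ⟨l, rfl⟩ : ∃ j, l = j + 1 := ⟨l - 1, by omega⟩
      obtain ⟨h2, h3⟩ := hch ⟨l + 1, hl⟩ (by simp)
      simp only at h2 h3
      rw [T03_succ G.nb ch (z 0) l hl, T03_tab G.nb ch (z 0) l _ (by omega),
        ih _ (by omega) (by omega)]
      exact h3

end Pool.Agent.LSN
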