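import Pool.Agent.LSN.Basic
import Pool.Agent.LSN.J03
/-!
# LSN-05: erased vertices lie near the centre; the `k`-th element of a finite set
-/

set_option autoImplicit false

namespace Pool.Agent.LSN

/-- Erased vertices are near the centre. -/
theorem T05 {V : Type} {b K : ℕ} (P : Par) (G : Base V b K) (i : ℕ) (s : Sk P b i) (x : V)
    (q : Ix P i) : W G.r (P.rho i) x (er P G.nb i s x q) := by
  induction i generalizing x with
  | zero =>
    have h1 : Fin.val (n := P.s + 1) q ≤ P.s := Nat.lt_succ_iff.1 (Fin.is_lt (n := P.s + 1) q)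
    exact W_mono G.refl h1 (pp_W G (k := P.s) s x (Fin.val (n := P.s + 1) q))
  | succ i ih =>
    obtain ⟨s1, s2⟩ := s
    obtain ⟨l, q⟩ := q
    have h1 := (T03 G s1 x).2.2.2 l.val
    have h2 := ih (s2 l) (ctr G.nb s1 x l.val) q
    have h3 : (2 * P.rho i + 1) * l.val + P.rho i ≤ P.rho (i + 1) := by
      have hl : l.val + 1 ≤ P.m i := l.is_lt
      calc (2 * P.rho i + 1) * l.val + P.rho i ≤ (2 * P.rho i + 1) * (l.val + 1) := by
            rw [Nat.mul_add]; omega
        _ ≤ (2 * P.rho i + 1) * P.m i := Nat.mul_le_mul_left _ hl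
        _ = P.rho (i + 1) := Nat.mul_comm _ _
    exact W_mono G.refl h3 (W_add h1 h2)

/-- Every element of a finite set is the `k`-th element for some `k < ncard`. -/
theorem T06 {N : Type} [Finite N] (d : N) (A : Set N) (w : N) (hw : w ∈ A) :
    ∃ k < A.ncard, sel d k A = w := by
  have h1 : w ∈ (Set.toFinite A).toFinset.toList := by
    rw [Finset.mem_toList, Set.Finite.mem_toFinset]
    exact hw
  obtain ⟨k, hk, hkw⟩ := List.getElem_of_mem h1
  refine ⟨k, ?_, ?_⟩
  · rw [Set.ncard_eq_toFinset_card A (Set.toFinite A), ← Finset.length_toList]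
    exact hk
  · unfold sel
    rw [List.getD_eq_getElem _ _ hk]
    exact hkw

end Pool.Agent.LSN
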