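import Pool.Agent.LSN.Basic
import Pool.Agent.LSN.J03
set_option autoImplicit false

namespace Pool.Agent.LSN

theorem T07 {V N : Type} {b K M : ℕ} [Finite N] (P : Par) (G : Base V b K)
    (c c' : V → ℕ → Fin M) (r' : N → N → Prop) (col' : N → Fin K) (d d' : N → ℕ → Fin M)
    (Bs : Set N) (i : ℕ) (s : Sk P b i) (p : Pt P b i) (x : V) (y : N) (q : Ix P i)
    (hc : ∀ v, W G.r (P.rho i) x v → ∀ k < i, c v k = c' v k)
    (hd : ∀ w ∈ Bs, ∀ k < i, d w k = d' w k) :
    pa P G c ⟨r', col', d⟩ Bs i s p x y q = pa P G c' ⟨r', col', d'⟩ Bs i s p x y q := by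
  induction i generalizing x y with
  | zero => rfl
  | succ i ih =>
    have hrho : P.rho (i + 1) = P.m i * (2 * P.rho i + 1) := rfl
    have hctr : ∀ l, W G.r ((2 * P.rho i + 1) * l) x (ctr G.nb s.1 x l) :=
      (T03 G s.1 x).2.2.2
    have hreg : ∀ u ∈ reg G.r (ctr G.nb s.1 x) (P.m i) (2 * P.rho i),
        W G.r (P.rho (i + 1)) x u := by
      rintro u ⟨l, hl, hu⟩
      refine W_mono G.refl ?_ (W_add (hctr l) hu)
      rw [hrho]
      have h1 : (2 * P.rho i + 1) * (l + 1) ≤ (2 * P.rho i + 1) * P.m i :=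
        Nat.mul_le_mul_left _ hl
      rw [mul_comm (P.m i)]
      refine le_trans ?_ h1
      rw [Nat.mul_add]
      omega
    have hAl : Al (G.str c) (⟨r', col', d⟩ : Str K M N)
        (reg G.r (ctr G.nb s.1 x) (P.m i) (2 * P.rho i)) Bs (i + 1) =
        Al (G.str c') (⟨r', col', d'⟩ : Str K M N)
        (reg G.r (ctr G.nb s.1 x) (P.m i) (2 * P.rho i)) Bs (i + 1) := by
      funext u v
      unfold Al Mt
      refine propext (and_congr_right fun hu => and_congr_right fun hv =>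
        and_congr_right fun _ => ?_)
      refine forall_congr' fun k => forall_congr' fun hk => ?_
      have h1 : (G.str c).c u k = (G.str c').c u k := hc u (hreg u hu) k hk
      have h2 : d v k = d' v k := hd v hv k hk
      rw [h1]
      show (G.str c').c u k = d v k ↔ (G.str c').c u k = d' v k
      rw [h2]
    have hPrt : ∀ u, Prt (G.str c) (⟨r', col', d⟩ : Str K M N)
        (reg G.r (ctr G.nb s.1 x) (P.m i) (2 * P.rho i)) Bs (i + 1) x y u =
        Prt (G.str c') (⟨r', col', d'⟩ : Str K M N)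
        (reg G.r (ctr G.nb s.1 x) (P.m i) (2 * P.rho i)) Bs (i + 1) x y u := by
      intro u
      unfold Prt
      rw [hAl]
      rfl
    show pa P G c ⟨r', col', d⟩ Bs i (s.2 q.1) (p q.1).2 (ctr G.nb s.1 x q.1.val)
      (sel y (p q.1).1.val (Prt (G.str c) (⟨r', col', d⟩ : Str K M N)
        (reg G.r (ctr G.nb s.1 x) (P.m i) (2 * P.rho i)) Bs (i + 1) x y
        (ctr G.nb s.1 x q.1.val))) q.2 =
      pa P G c' ⟨r', col', d'⟩ Bs i (s.2 q.1) (p q.1).2 (ctr G.nb s.1 x q.1.val)
      (sel y (p q.1).1.val (Prt (G.str c') (⟨r', col', d'⟩ : Str K M N)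
        (reg G.r (ctr G.nb s.1 x) (P.m i) (2 * P.rho i)) Bs (i + 1) x y
        (ctr G.nb s.1 x q.1.val))) q.2
    rw [hPrt]
    refine ih _ _ _ _ _ ?_ ?_
    · intro v hv k hk
      refine hc v (W_mono G.refl ?_ (W_add (hctr q.1.val) hv)) k (Nat.lt_succ_of_lt hk)
      rw [hrho]
      have h1 : (2 * P.rho i + 1) * (q.1.val + 1) ≤ (2 * P.rho i + 1) * P.m i :=
        Nat.mul_le_mul_left _ q.1.isLt
      rw [mul_comm (P.m i)]
      refine le_trans ?_ h1
      rw [Nat.mul_add]
      omega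
    · intro w hw k hk
      exact hd w hw k (Nat.lt_succ_of_lt hk)

end Pool.Agent.LSN
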