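import Pool.Agent.LSN.Basic
/-!
# LSN: targets T08 and T09
-/

set_option autoImplicit false

namespace Pool.Agent.LSN

/-- T08. `Gd` is the conjunction of the bounds `Bd` of smaller levels. -/
theorem T08 {V : Type} {b K M : ℕ} (P : Par) (G : Base V b K) (i n : ℕ) (A : Str K M (Fin n)) :
    Gd P G i n A ↔ ∀ j < i, Bd P G j A := by
  induction i with
  | zero =>
    simp [Gd]
  | succ i ih =>
    constructor
    · intro h j hj
      rcases Nat.lt_succ_iff_lt_or_eq.mp hj with h1 | h1
      · exact ih.mp h.1 j h1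
      · subst h1
        exact h.2
    · intro h
      exact ⟨ih.mpr fun j hj => h j (Nat.lt_succ_of_lt hj), h i (Nat.lt_succ_self i)⟩

/-- T09. `Bd j` depends only on the colours in the coordinates `≤ j`. -/
theorem T09 {V N : Type} {b K M : ℕ} (P : Par) (G : Base V b K) (j : ℕ) (r' : N → N → Prop)
    (col' : N → Fin K) (d d' : N → ℕ → Fin M) (hd : ∀ w, ∀ k ≤ j, d w k = d' w k)
    (h : Bd P G j (⟨r', col', d⟩ : Str K M N)) : Bd P G j (⟨r', col', d'⟩ : Str K M N) := by
  intro n' hn' A' hA' hG' x y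
  have hM : Mt A' (⟨r', col', d⟩ : Str K M N) (j + 1) =
      Mt A' (⟨r', col', d'⟩ : Str K M N) (j + 1) := by
    funext u w
    apply propext
    unfold Mt
    constructor
    · intro h1
      exact ⟨h1.1, fun k hk => (h1.2 k hk).trans (hd w k (Nat.lt_succ_iff.mp hk))⟩
    · intro h1
      exact ⟨h1.1, fun k hk => (h1.2 k hk).trans (hd w k (Nat.lt_succ_iff.mp hk)).symm⟩
  have h2 := h n' hn' A' hA' hG' x y
  rw [hM] at h2
  exact h2

end Pool.Agent.LSN
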