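import Pool.Agent.LSN.Basic
import Pool.Agent.LSN.J08
set_option autoImplicit false

namespace Pool.Agent.LSN

/-- T10: heredity of `Bd` to induced structures -/
theorem T10 {V : Type} {b K M n : ℕ} [Finite V] (P : Par) (G : Base V b K) (c : V → ℕ → Fin M)
    (j : ℕ) (f : Fin n → V) (hf : Function.Injective f) (h : Bd P G j (G.str c)) :
    Bd P G j (⟨fun a b => G.r (f a) (f b), fun a => G.col (f a), fun a => c (f a)⟩ :
      Str K M (Fin n)) := by
  intro n' hn' A' hA hG x y
  refine lt_of_le_of_lt ?_ (h n' hn' A' hA hG x (f y))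
  rw [← Set.ncard_image_of_injective _ hf]
  refine Set.ncard_le_ncard ?_ (Set.toFinite _)
  rintro _ ⟨v, ⟨u, h1, h2⟩, rfl⟩
  refine ⟨u, h1, ?_⟩
  clear h1
  have key : ∀ q : Fin n' × Fin n, Relation.ReflTransGen
      (fun a b : Fin n' × Fin n => A'.r a.1 b.1 ∧ G.r (f a.2) (f b.2) ∧
        Mt A' (⟨fun a b => G.r (f a) (f b), fun a => G.col (f a), fun a => c (f a)⟩ :
          Str K M (Fin n)) (j + 1) b.1 b.2) (x, y) q →
      Relation.ReflTransGen
      (fun a b : Fin n' × V => A'.r a.1 b.1 ∧ (G.str c).r a.2 b.2 ∧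
        Mt A' (G.str c) (j + 1) b.1 b.2) (x, f y) (q.1, f q.2) := by
    intro q hq
    induction hq with
    | refl => exact Relation.ReflTransGen.refl
    | @tail a c' h3 h4 ih =>
      exact Relation.ReflTransGen.tail ih ⟨h4.1, h4.2.1, h4.2.2⟩
  exact key (u, v) h2

/-- T11: bound for the number of partners in a small region -/
theorem T11 {V N : Type} {b K M : ℕ} [Finite V] [Finite N] (P : Par) (G : Base V b K)
    (c : V → ℕ → Fin M) (i : ℕ) (hG : ∀ j < i, Bd P G j (G.str c)) (B : Str K M N)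
    (hB : Bd P G i B) (Bs : Set N) (R : Set V) (hR : R.ncard ≤ P.xi b i) (hXi : 0 < P.Xi b i)
    (x : V) (y : N) (u : V) : (Prt (G.str c) B R Bs (i + 1) x y u).ncard < P.Xi b i := by
  by_cases hx : x ∈ R
  · -- the region as a structure
    have hfin : R.Finite := Set.toFinite R
    have hcard : Nat.card R = R.ncard := rfl
    let e : R ≃ Fin R.ncard := Finite.equivFinOfCardEq hcard
    let f : Fin R.ncard → V := fun a => (e.symm a : V)
    have hf : Function.Injective f := fun a a' h =>
      e.symm.injective (Subtype.ext h)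
    have hfR : ∀ v ∈ R, ∃ a, f a = v := fun v hv => ⟨e ⟨v, hv⟩, by simp [f]⟩
    obtain ⟨x0, hx0⟩ := hfR x hx
    set A : Str K M (Fin R.ncard) :=
      ⟨fun a b => G.r (f a) (f b), fun a => G.col (f a), fun a => c (f a)⟩ with hA
    have hAdm : Adm G A := ⟨fun a b h => G.symm _ _ h, f, hf, fun _ _ h => h, fun _ => rfl⟩
    have hGd : Gd P G i R.ncard A := (T08 P G i R.ncard A).2
      (fun j hj => T10 P G c j f hf (hG j hj))
    refine lt_of_le_of_lt ?_ (hB R.ncard hR A hAdm hGd x0 y)
    refine Set.ncard_le_ncard ?_ (Set.toFinite _)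
    rintro v ⟨h1, h2⟩
    have key : ∀ q : V × N, Relation.ReflTransGen
        (fun a b : V × N => (G.str c).r a.1 b.1 ∧ B.r a.2 b.2 ∧
          Al (G.str c) B R Bs (i + 1) b.1 b.2) (x, y) q →
        ∃ u', f u' = q.1 ∧ Relation.ReflTransGen
        (fun a b : Fin R.ncard × N => A.r a.1 b.1 ∧ B.r a.2 b.2 ∧
          Mt A B (i + 1) b.1 b.2) (x0, y) (u', q.2) := by
      intro q hq
      induction hq with
      | refl => exact ⟨x0, hx0, Relation.ReflTransGen.refl⟩
      | @tail a c' h3 h4 ih =>
        obtain ⟨u', hu', h5⟩ := ih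
        obtain ⟨w, hw⟩ := hfR c'.1 h4.2.2.1
        refine ⟨w, hw, Relation.ReflTransGen.tail h5 ⟨?_, h4.2.1, ?_⟩⟩
        · show G.r (f u') (f w)
          rw [hu', hw]
          exact h4.1
        · have h6 := h4.2.2.2.2
          refine ⟨?_, fun k hk => ?_⟩
          · show G.col (f w) = _
            rw [hw]
            exact h6.1
          · show c (f w) k = _
            rw [hw]
            exact h6.2 k hk
    obtain ⟨u', _, h5⟩ := key (u, v) h2
    refine ⟨u', ?_, h5⟩
    have h6 := h1.2.2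
    refine ⟨?_, fun k hk => ?_⟩
    · show G.col (f x0) = _
      rw [hx0]
      exact h6.1
    · show c (f x0) k = _
      rw [hx0]
      exact h6.2 k hk
  · have : Prt (G.str c) B R Bs (i + 1) x y u = ∅ := by
      ext v
      simp only [Set.mem_empty_iff_false, iff_false]
      rintro ⟨h1, _⟩
      exact hx h1.1
    rw [this, Set.ncard_empty]
    exact hXi

end Pool.Agent.LSN
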