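import Pool.Agent.LSN.Basic
set_option autoImplicit false

namespace Pool.Agent.LSN

theorem T12 {V : Type} (r : V → V → Prop) (hr : ∀ v, r v v) (X : ℕ → V) (T k m : ℕ)
    (hm : 1 ≤ m) (hX : ∀ t < T, r (X t) (X (t + 1))) :
    (∃ tau, GC r X k m tau ∧ tau (m - 1) ≤ T) ∨
    ∃ m', 1 ≤ m' ∧ m' < m ∧ ∃ tau, GC r X k m' tau ∧ tau (m' - 1) ≤ T ∧
      ∀ t ≤ T, ∃ l < m', W r k (X (tau l)) (X t) := by
  classical
  induction m, hm using Nat.le_induction with
  | base =>
    left
    refine ⟨fun _ => 0, ⟨rfl, fun l hl => absurd hl (by omega), fun l l' h1 h2 => absurd h2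
      (by omega), fun l h1 h2 => absurd h2 (by omega), fun t ht => ?_⟩, Nat.zero_le _⟩
    have h0 : t = 0 := by simpa using ht
    subst h0
    exact ⟨0, one_pos, le_rfl, W_refl hr k _⟩
  | succ m hm ih =>
    rcases ih with ⟨tau, hG, hT⟩ | ⟨m', h1, h2, h3⟩
    · by_cases hc : ∀ t ≤ T, ∃ l < m, W r k (X (tau l)) (X t)
      · exact Or.inr ⟨m, hm, by omega, tau, hG, hT, hc⟩
      · left
        obtain ⟨g0, g1, g2, g3, g4⟩ := hG
        have hex : ∃ t, t ≤ T ∧ ¬ ∃ l < m, W r k (X (tau l)) (X t) := by
          by_contra hcon
          apply hc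
          intro t ht
          by_contra h
          exact hcon ⟨t, ht, h⟩
        obtain ⟨t0, ⟨ht0, hn0⟩, hmin⟩ : ∃ t0, (t0 ≤ T ∧ ¬ ∃ l < m, W r k (X (tau l)) (X t0)) ∧
            ∀ t < t0, ∃ l < m, W r k (X (tau l)) (X t) := by
          refine ⟨Nat.find hex, Nat.find_spec hex, fun t ht => ?_⟩
          by_contra h
          exact Nat.find_min hex ht ⟨by have := (Nat.find_spec hex).1; omega, h⟩
        have hlt : tau (m - 1) < t0 := by
          by_contra h
          obtain ⟨l, hl, _, hW⟩ := g4 t0 (by omega)
          exact hn0 ⟨l, hl, hW⟩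
        have hmono : ∀ l l', l ≤ l' → l' < m → tau l ≤ tau l' := by
          intro l l' hl hl'
          induction l', hl using Nat.le_induction with
          | base => exact le_rfl
          | succ n hn ihn => exact (ihn (by omega)).trans (g1 n hl').le
        have hu : ∀ l < m, Function.update tau m t0 l = tau l := fun l hl =>
          Function.update_of_ne (by omega) _ _
        have hum : Function.update tau m t0 m = t0 := Function.update_self _ _ _
        refine ⟨Function.update tau m t0, ⟨?_, ?_, ?_, ?_, ?_⟩, ?_⟩
        · rw [hu 0 (by omega)]; exact g0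
        · intro l hl
          rw [hu l (by omega)]
          rcases Nat.lt_or_ge (l + 1) m with h | h
          · rw [hu _ h]; exact g1 l h
          · have : l + 1 = m := by omega
            rw [this, hum]
            have : l = m - 1 := by omega
            rw [this]; exact hlt
        · intro l l' hl hl'
          rw [hu l (by omega)]
          rcases Nat.lt_or_ge l' m with h | h
          · rw [hu _ h]; exact g2 l l' hl h
          · have : l' = m := by omega
            subst this
            rw [hum]
            exact fun hW => hn0 ⟨l, hl, hW⟩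
        · intro l hl hl'
          rcases Nat.lt_or_ge l m with h | h
          · obtain ⟨a, ha, hW⟩ := g3 l hl h
            refine ⟨a, ha, ?_⟩
            rw [hu a (by omega), hu l h]; exact hW
          · have : l = m := by omega
            subst this
            obtain ⟨a, ha, hW⟩ := hmin (t0 - 1) (by omega)
            refine ⟨a, ha, ?_⟩
            rw [hu a ha, hum]
            refine ⟨X (t0 - 1), hW, ?_⟩
            have := hX (t0 - 1) (by omega)
            rwa [show t0 - 1 + 1 = t0 by omega] at this
        · intro t ht
          rw [Nat.add_sub_cancel, hum] at ht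
          rcases Nat.lt_or_ge t t0 with h | h
          · rcases Nat.lt_or_ge (tau (m - 1)) t with h' | h'
            · obtain ⟨l, hl, hW⟩ := hmin t h
              refine ⟨l, by omega, ?_, ?_⟩
              · rw [hu l hl]
                exact (hmono l (m - 1) (by omega) (by omega)).trans h'.le
              · rw [hu l hl]; exact hW
            · obtain ⟨l, hl, hlt', hW⟩ := g4 t h'
              refine ⟨l, by omega, ?_, ?_⟩
              · rw [hu l hl]; exact hlt'
              · rw [hu l hl]; exact hW
          · have : t = t0 := by omega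
            subst this
            refine ⟨m, by omega, ?_, ?_⟩
            · rw [hum]
            · rw [hum]; exact W_refl hr k _
        · rw [Nat.add_sub_cancel, hum]; exact ht0
    · exact Or.inr ⟨m', h1, by omega, h3⟩

theorem T13 {V : Type} (r : V → V → Prop) (hr : ∀ v, r v v) (X : ℕ → V) (k m : ℕ)
    (tau : ℕ → ℕ) (h : GC r X k m tau) :
    (∀ l < m, W r ((k + 1) * l) (X 0) (X (tau l))) ∧
    ∀ v l, l < m → W r k (X (tau l)) v → W r ((k + 1) * m - 1) (X 0) v := by
  obtain ⟨g0, _, _, g3, _⟩ := h
  have key : ∀ l < m, W r ((k + 1) * l) (X 0) (X (tau l)) := by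
    intro l
    induction l using Nat.strong_induction_on with
    | _ l ih =>
      intro hl
      rcases Nat.eq_zero_or_pos l with h0 | h0
      · subst h0
        rw [g0]
        exact W_refl hr _ _
      · obtain ⟨a, ha, hW⟩ := g3 l h0 hl
        have h1 := W_add (ih a ha (by omega)) hW
        refine W_mono hr ?_ h1
        calc (k + 1) * a + (k + 1) = (k + 1) * (a + 1) := by ring
          _ ≤ (k + 1) * l := Nat.mul_le_mul_left _ (by omega)
  refine ⟨key, fun v l hl hW => ?_⟩
  refine W_mono hr ?_ (W_add (key l hl) hW)
  have h2 : (k + 1) * (l + 1) ≤ (k + 1) * m := Nat.mul_le_mul_left _ (by omega)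
  have h3 : (k + 1) * (l + 1) = (k + 1) * l + k + 1 := by ring
  omega

end Pool.Agent.LSN
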