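import Pool.Agent.LSN.Basic
import Pool.Agent.LSN.J12
/-!
# LSN-14: two walks stopped at the same time
-/

set_option autoImplicit false

namespace Pool.Agent.LSN

theorem T14 {V : Type} (r : V → V → Prop) (hr : ∀ v, r v v) (X Y : ℕ → V) (T k m : ℕ)
    (hm : 2 ≤ m) (hX : ∀ t < T, r (X t) (X (t + 1))) (hY : ∀ t < T, r (Y t) (Y (t + 1)))
    (hfar : ∃ t ≤ T, ¬ W r ((k + 1) * (m - 1) - 1) (X 0) (X t)) :
    (∃ tau, GC r X k m tau ∧ tau (m - 1) ≤ T ∧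
      ∀ t ≤ tau (m - 1), W r ((k + 1) * m - 1) (Y 0) (Y t)) ∨
    (∃ tau, GC r Y k m tau ∧ tau (m - 1) ≤ T ∧
      ∀ t ≤ tau (m - 1), W r ((k + 1) * m - 1) (X 0) (X t)) := by
  have key : ∀ (Z : ℕ → V) (m' : ℕ) (tau : ℕ → ℕ), m' < m → GC r Z k m' tau →
      (∀ t ≤ T, ∃ l < m', W r k (Z (tau l)) (Z t)) →
      ∀ t ≤ T, W r ((k + 1) * (m - 1) - 1) (Z 0) (Z t) := by
    intro Z m' tau h2 hg hc t ht
    obtain ⟨l, hl, hw⟩ := hc t ht
    have h3 := (T13 r hr Z k m' tau hg).2 (Z t) l hl hw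
    refine W_mono hr ?_ h3
    have : (k + 1) * m' ≤ (k + 1) * (m - 1) := Nat.mul_le_mul_left _ (by omega)
    omega
  have key2 : ∀ (Z : ℕ → V) (tau : ℕ → ℕ), GC r Z k m tau →
      ∀ t ≤ tau (m - 1), W r ((k + 1) * m - 1) (Z 0) (Z t) := by
    intro Z tau hg t ht
    obtain ⟨l, hl, _, hw⟩ := hg.2.2.2.2 t ht
    exact (T13 r hr Z k m tau hg).2 (Z t) l hl hw
  have hX1 : ∃ tau, GC r X k m tau ∧ tau (m - 1) ≤ T := by
    rcases T12 r hr X T k m (by omega) hX with h | ⟨m', _, h2, tau, hg, _, hc⟩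
    · exact h
    · exfalso
      obtain ⟨t, ht, hn⟩ := hfar
      exact hn (key X m' tau h2 hg hc t ht)
  obtain ⟨tau, hg, hT⟩ := hX1
  rcases T12 r hr Y T k m (by omega) hY with
    ⟨tau', hg', hT'⟩ | ⟨m', _, h2, tau', hg', _, hc⟩
  · rcases le_total (tau (m - 1)) (tau' (m - 1)) with hle | hle
    · exact Or.inl ⟨tau, hg, hT, fun t ht => key2 Y tau' hg' t (ht.trans hle)⟩
    · exact Or.inr ⟨tau', hg', hT', fun t ht => key2 X tau hg t (ht.trans hle)⟩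
  · refine Or.inl ⟨tau, hg, hT,
      fun t ht => W_mono hr ?_ (key Y m' tau' h2 hg' hc t (ht.trans hT))⟩
    have : (k + 1) * (m - 1) ≤ (k + 1) * m := Nat.mul_le_mul_left _ (by omega)
    omega

end Pool.Agent.LSN
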