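import Pool.Agent.LSN.Basic
set_option autoImplicit false

namespace Pool.Agent.LSN

/-- the walks considered in the loop erasure -/
def T15_Good {N N' : Type} (r : N → N → Prop) (r' : N' → N' → Prop) (X : ℕ → N) (Y : ℕ → N')
    (T v n : ℕ) : Prop :=
  ∃ (X' : ℕ → N) (Y' : ℕ → N'), X' 0 = X 0 ∧ Y' 0 = Y 0 ∧
    (∀ j < n, r (X' j) (X' (j + 1)) ∧ r' (Y' j) (Y' (j + 1))) ∧
    (∀ j ≤ n, ∃ t ≤ T, X' j = X t ∧ Y' j = Y t) ∧ ¬ W r v (X 0) (X' n)

theorem T15 {N N' : Type} (r : N → N → Prop) (r' : N' → N' → Prop) (S : N → N' → Prop)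
    (hr : ∀ v, r v v) (X : ℕ → N) (Y : ℕ → N') (T v : ℕ) (h : PW r r' S X Y T)
    (hfar : ∃ t ≤ T, ¬ W r v (X 0) (X t)) :
    ∃ (X' : ℕ → N) (Y' : ℕ → N'), X' 0 = X 0 ∧ Y' 0 = Y 0 ∧
      (∀ j < v, r (X' j) (X' (j + 1)) ∧ r' (Y' j) (Y' (j + 1))) ∧
      (∀ j ≤ v, ∃ t ≤ T, X' j = X t ∧ Y' j = Y t) ∧
      ∀ i ≤ v, ∀ j ≤ v, X' i = X' j → Y' i = Y' j → i = j := by
  classical
  have hex : ∃ n, T15_Good r r' X Y T v n := by
    obtain ⟨t, ht, hW⟩ := hfar
    exact ⟨t, X, Y, rfl, rfl, fun j hj => h.1 j (by omega), fun j hj => ⟨j, by omega, rfl, rfl⟩,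
      hW⟩
  obtain ⟨X', Y', h0, h0', hst, hin, hfar'⟩ := Nat.find_spec hex
  set n := Nat.find hex with hn
  have hvn : v < n := by
    by_contra hcon
    apply hfar'
    have h1 : W r (n - 0) (X' 0) (X' n) :=
      W_seq (r := r) (X := X') (T := n) (fun t ht => (hst t ht).1) (Nat.zero_le n) le_rfl
    rw [Nat.sub_zero, h0] at h1
    exact W_mono hr (by omega) h1
  have hlt : ∀ i j, i < j → j ≤ n → X' i = X' j → Y' i = Y' j → False := by
    intro i j hij hj hX hY
    have hmin : ¬ T15_Good r r' X Y T v (n - (j - i)) := Nat.find_min hex (by omega)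
    apply hmin
    refine ⟨fun t => if t ≤ i then X' t else X' (t + (j - i)),
      fun t => if t ≤ i then Y' t else Y' (t + (j - i)), ?_, ?_, ?_, ?_, ?_⟩
    · simp [h0]
    · simp [h0']
    · intro t ht
      rcases lt_trichotomy t i with h1 | h1 | h1
      · simp only [show t ≤ i by omega, show t + 1 ≤ i by omega, if_true]
        exact hst t (by omega)
      · subst h1
        simp only [le_refl, if_true, show ¬ (t + 1 ≤ t) by omega, if_false]
        rw [hX, hY, show t + 1 + (j - t) = j + 1 by omega]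
        exact hst j (by omega)
      · simp only [show ¬ (t ≤ i) by omega, show ¬ (t + 1 ≤ i) by omega, if_false]
        rw [show t + 1 + (j - i) = t + (j - i) + 1 by omega]
        exact hst (t + (j - i)) (by omega)
    · intro t ht
      by_cases h1 : t ≤ i
      · simp only [h1, if_true]
        exact hin t (by omega)
      · simp only [h1, if_false]
        exact hin (t + (j - i)) (by omega)
    · by_cases h1 : n - (j - i) ≤ i
      · have h2 : n - (j - i) = i := by omega
        have h3 : n = j := by omega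
        simp only [h2, le_refl, if_true]
        rw [hX, ← h3]
        exact hfar'
      · simp only [h1, if_false]
        rw [show n - (j - i) + (j - i) = n by omega]
        exact hfar'
  refine ⟨X', Y', h0, h0', fun j hj => hst j (by omega), fun j hj => hin j (by omega), ?_⟩
  intro i hi j hj hX hY
  rcases lt_trichotomy i j with h1 | h1 | h1
  · exact (hlt i j h1 (by omega) hX hY).elim
  · exact h1
  · exact (hlt j i h1 (by omega) hX.symm hY.symm).elim

end Pool.Agent.LSN
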