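import Pool.Agent.LSN.Basic
import Pool.Agent.LSN.J15
set_option autoImplicit false

namespace Pool.Agent.LSN

theorem T16 {V N : Type} {b K M : ℕ} (G : Base V b K) (B : Str K M N) (hB : Adm G B)
    (t : ℕ → Fin K) (Y : ℕ → N) (n : ℕ) (hY : ∀ j < n, B.r (Y j) (Y (j + 1)))
    (ht : ∀ j ≤ n, B.col (Y j) = t j) : ∀ j ≤ n, lf B.r B.col t (Y 0) j = Y j := by
  obtain ⟨-, f, hf, hfr, hfc⟩ := hB
  intro j
  induction j with
  | zero => intro _; rfl
  | succ j ih =>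
    intro hj
    have h0 := ih (by omega)
    have h : ∃ w, B.r (lf B.r B.col t (Y 0) j) w ∧ B.col w = t (j + 1) := by
      rw [h0]
      exact ⟨Y (j + 1), hY j (by omega), ht (j + 1) hj⟩
    have h1 : lf B.r B.col t (Y 0) (j + 1) = h.choose := by
      simp only [lf]
      rw [dif_pos h]
    have h2 : B.r (lf B.r B.col t (Y 0) j) (lf B.r B.col t (Y 0) (j + 1)) ∧
        B.col (lf B.r B.col t (Y 0) (j + 1)) = t (j + 1) := by
      rw [h1]
      exact h.choose_spec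
    rw [h0] at h2
    apply hf
    refine G.loc (f (Y j)) _ _ (hfr _ _ h2.1) (hfr _ _ (hY j (by omega))) ?_
    rw [← hfc, ← hfc, h2.2, ht (j + 1) hj]

theorem T17 {V : Type} {b K M : ℕ} (P : Par) (G : Base V b K) (hR : Rig G P.s)
    (c : V → ℕ → Fin M) : WL P G c 0 := by
  intro _ N _ B Bs hB _ e _ X Y T hW hfar
  obtain ⟨X', Y', hX0, hY0, hst, hin, hne⟩ := T15 G.r B.r _ G.refl X Y T P.s hW hfar
  obtain ⟨f, hf⟩ := pp_exists G (k := P.s) X' (fun j hj => (hst j hj).1)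
  rw [hX0] at hf
  have hB' := hB
  obtain ⟨-, g, hg, hgr, hgc⟩ := hB'
  have hm : ∀ j ≤ P.s, G.col (X' j) = B.col (Y' j) := by
    intro j hj
    obtain ⟨t, ht, h1, h2⟩ := hin j hj
    rw [h1, h2]
    exact (hW.2 t ht).2.2.1
  refine ⟨f, (), ?_, ?_⟩
  · intro q q' hq
    have hq1 : q.val ≤ P.s := Nat.lt_succ_iff.1 q.isLt
    have hq2 : q'.val ≤ P.s := Nat.lt_succ_iff.1 q'.isLt
    have h1 : pp (k := P.s) G.nb f (X 0) q.val = pp (k := P.s) G.nb f (X 0) q'.val := hq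
    rw [hf _ hq1, hf _ hq2] at h1
    have h2 := hR P.s X' (fun j => g (Y' j)) le_rfl
      (fun j hj => ⟨(hst j hj).1, hgr _ _ (hst j hj).2⟩)
      (fun j hj => by rw [hm j hj, hgc])
      (fun i hi j hj h3 h4 => hne i hi j hj h3 (hg h4)) _ hq1 _ hq2 h1
    exact Fin.ext h2
  · intro q
    have hq1 : q.val ≤ P.s := Nat.lt_succ_iff.1 q.isLt
    obtain ⟨t, ht, h1, h2⟩ := hin _ hq1
    refine ⟨t, ht, ?_, ?_⟩
    · change pp (k := P.s) G.nb f (X 0) q.val = X t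
      rw [hf _ hq1, h1]
    · change lf B.r B.col (fun j => G.col (pp (k := P.s) G.nb f (X 0) j)) (Y 0) q.val = Y t
      rw [← h2, ← hY0]
      exact T16 G B hB _ Y' P.s (fun j hj => (hst j hj).2)
        (fun j hj => by rw [← hm j hj]; simp only [hf j hj]) _ hq1

end Pool.Agent.LSN
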