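import Pool.Agent.LSN.Basic
import Pool.Agent.LSN.J01
import Pool.Agent.LSN.J03
import Pool.Agent.LSN.J05
import Pool.Agent.LSN.J10
import Pool.Agent.LSN.J12
import Pool.Agent.LSN.J16
/-!
# LSN: the step of the window lemma (targets T18, T19; helper88)
-/

set_option autoImplicit false

namespace Pool.Agent.LSN

/-- the centres are visited in increasing order -/
theorem T18_mono {V : Type} {r : V → V → Prop} {X : ℕ → V} {k m : ℕ} {tau : ℕ → ℕ}
    (h : GC r X k m tau) : ∀ l' l, l ≤ l' → l' < m → tau l ≤ tau l' := by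
  intro l'
  induction l' with
  | zero =>
    intro l hl _
    have : l = 0 := by omega
    rw [this]
  | succ n ih =>
    intro l hl hm
    rcases Nat.lt_or_ge l (n + 1) with h1 | h1
    · exact (ih l (by omega) (by omega)).trans (h.2.1 n hm).le
    · have : l = n + 1 := by omega
      rw [this]

/-- different centres are far from each other -/
theorem T18_far {V : Type} {r : V → V → Prop} (hs : ∀ u v, r u v → r v u) {X : ℕ → V}
    {k m : ℕ} {tau : ℕ → ℕ} (h : GC r X k m tau) (l l' : ℕ) (hne : l ≠ l') (hl : l < m)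
    (hl' : l' < m) : ¬ W r k (X (tau l)) (X (tau l')) := by
  rcases Nat.lt_or_ge l l' with h1 | h1
  · exact h.2.2.1 l l' h1 hl'
  · intro h2
    exact h.2.2.1 l' l (by omega) hl (W_symm hs h2)

/-- the window of level `i` around a visited centre -/
theorem T18_win {V : Type} {b K M : ℕ} (P : Par) (G : Base V b K) (c : V → ℕ → Fin M) (i : ℕ)
    (h : WL P G c i) (hG : ∀ j, j + 1 < i → Bd P G j (G.str c)) (N : Type) [Finite N]
    (B : Str K M N) (Bs : Set N) (hA : Adm G B) (hB : ∀ j < i, Bd P G j B) (e : ℕ) (he : i ≤ e)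
    (X : ℕ → V) (Y : ℕ → N) (T : ℕ) (hW : PW G.r B.r (Al (G.str c) B Set.univ Bs e) X Y T)
    (a a' : ℕ) (ha : a ≤ T) (ha' : a' ≤ T) (hfar : ¬ W G.r (P.rho i) (X a) (X a')) :
    ∃ (s : Sk P b i) (p : Pt P b i), Function.Injective (er P G.nb i s (X a)) ∧
      ∀ q, ∃ t ≤ T, er P G.nb i s (X a) q = X t ∧ pa P G c B Bs i s p (X a) (Y a) q = Y t := by
  rcases Nat.le_total a a' with h1 | h1
  · have h2 := PW_shift hW ha
    obtain ⟨s, p, hs, hq⟩ := h hG N B Bs hA hB e he _ _ _ h2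
      ⟨a' - a, by omega, by
        show ¬ W G.r (P.rho i) (X (a + 0)) (X (a + (a' - a)))
        rw [Nat.add_sub_cancel' h1]
        exact hfar⟩
    refine ⟨s, p, hs, fun q => ?_⟩
    obtain ⟨t, ht, h3, h4⟩ := hq q
    exact ⟨a + t, by omega, h3, h4⟩
  · have h2 := PW_rev (r := G.r) (r' := B.r) G.symm hA.1 hW ha
    obtain ⟨s, p, hs, hq⟩ := h hG N B Bs hA hB e he _ _ _ h2
      ⟨a - a', by omega, by
        show ¬ W G.r (P.rho i) (X (a - 0)) (X (a - (a - a')))
        rw [Nat.sub_sub_self h1]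
        exact hfar⟩
    refine ⟨s, p, hs, fun q => ?_⟩
    obtain ⟨t, ht, h3, h4⟩ := hq q
    exact ⟨a - t, by omega, h3, h4⟩

/-- T18. Window lemma, step `i → i + 1`. -/
theorem T18 {V : Type} {b K M : ℕ} [Finite V] (P : Par) (hP : P.Ok) (hb : 1 ≤ b)
    (G : Base V b K) (c : V → ℕ → Fin M) (i : ℕ) (h : WL P G c i) : WL P G c (i + 1) := by
  intro hG N _ B Bs hA hB e he X Y T hW hfar
  have hm2 : 2 ≤ P.m i := (hP i).1
  have hN2 : 2 ≤ P.Nn i := (hP i).2
  have hrho : P.rho (i + 1) = P.m i * (2 * P.rho i + 1) := rfl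
  obtain ⟨tau, hGC, hT⟩ : ∃ tau, GC G.r X (2 * P.rho i) (P.m i) tau ∧ tau (P.m i - 1) ≤ T := by
    rcases T12 G.r G.refl X T (2 * P.rho i) (P.m i) (by omega)
      (fun t ht => (hW.1 t ht).1) with h1 | h1
    · exact h1
    · exfalso
      obtain ⟨m', hm1, hm', tau, hGC, _, hcov⟩ := h1
      obtain ⟨t, ht, hfar⟩ := hfar
      obtain ⟨l, hl, hWl⟩ := hcov t ht
      apply hfar
      refine W_mono G.refl ?_ ((T13 G.r G.refl X _ m' tau hGC).2 (X t) l hl hWl)
      rw [hrho]
      have h2 : (2 * P.rho i + 1) * m' ≤ (2 * P.rho i + 1) * P.m i :=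
        Nat.mul_le_mul_left _ hm'.le
      rw [mul_comm (P.m i)]
      omega
  have hmono := T18_mono hGC
  have hlT : ∀ l < P.m i, tau l ≤ T := fun l hl =>
    (hmono (P.m i - 1) l (by omega) (by omega)).trans hT
  have htau0 : tau 0 = 0 := hGC.1
  obtain ⟨ch, hch0⟩ := T04 G (fun l => X (tau l)) (P.m i) (2 * P.rho i + 1) hGC.2.2.2.1
  have hch : ∀ l < P.m i, ctr G.nb ch (X 0) l = X (tau l) := by
    intro l hl
    have h1 := hch0 l hl
    simp only [htau0] at h1
    exact h1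
  -- the windows around the centres
  have hwin : ∀ l : Fin (P.m i), ∃ (s : Sk P b i) (p : Pt P b i),
      Function.Injective (er P G.nb i s (X (tau l))) ∧
      ∀ q, ∃ t ≤ T, er P G.nb i s (X (tau l)) q = X t ∧
        pa P G c B Bs i s p (X (tau l)) (Y (tau l)) q = Y t := by
    intro l
    obtain ⟨l', hl', hne⟩ : ∃ l' < P.m i, (l : ℕ) ≠ l' := by
      by_cases h0 : (l : ℕ) = 0
      · exact ⟨1, by omega, by omega⟩
      · exact ⟨0, by omega, h0⟩
    refine T18_win P G c i h (fun j hj => hG j (by omega)) N B Bs hA (fun j hj => hB j (by omega))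
      e (by omega) X Y T hW (tau l) (tau l') (hlT l l.2) (hlT l' hl') ?_
    intro h1
    exact T18_far G.symm hGC l l' hne l.2 hl' (W_mono G.refl (by omega) h1)
  choose s p hinj hvis using hwin
  -- the pointers to the partners of the centres
  set R : Set V := reg G.r (ctr G.nb ch (X 0)) (P.m i) (2 * P.rho i) with hR
  have hPW : PW G.r B.r (Al (G.str c) B R Bs (i + 1)) X Y (tau (P.m i - 1)) := by
    refine ⟨fun t ht => hW.1 t (by omega), fun t ht => ?_⟩
    obtain ⟨_, h2, h3⟩ := hW.2 t (by omega)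
    refine ⟨?_, h2, h3.1, fun k hk => h3.2 k (by omega)⟩
    obtain ⟨l, hl, _, h4⟩ := hGC.2.2.2.2 t ht
    refine ⟨l, hl, ?_⟩
    rw [hch l hl]
    exact h4
  have hXi : 0 < P.Xi b i := by
    unfold Par.Xi
    have : 0 < b ^ (2 * P.rho i) := Nat.pow_pos (by omega)
    exact Nat.mul_pos (by omega) this
  have hptr : ∀ l : Fin (P.m i), ∃ k : Fin (P.Xi b i),
      sel (Y 0) k.val (Prt (G.str c) B R Bs (i + 1) (X 0) (Y 0) (X (tau l))) = Y (tau l) := by
    intro l
    have h1 : Y (tau l) ∈ Prt (G.str c) B R Bs (i + 1) (X 0) (Y 0) (X (tau l)) :=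
      PW_Rch hPW (Nat.zero_le _) (hmono (P.m i - 1) l (by omega) (by omega))
    have h2 : (Prt (G.str c) B R Bs (i + 1) (X 0) (Y 0) (X (tau l))).ncard < P.Xi b i :=
      T11 P G c i (fun j hj => hG j (by omega)) B (hB i (by omega)) Bs R
        (T02 G _ _ _).2 hXi _ _ _
    obtain ⟨k, hk, hsel⟩ := T06 (Y 0) _ _ h1
    exact ⟨⟨k, by omega⟩, hsel⟩
  choose k hk using hptr
  -- the window of level `i + 1`
  let S : Sk P b (i + 1) := (ch, s)
  let Q : Pt P b (i + 1) := fun l => (k l, p l)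
  have her : ∀ q : Fin (P.m i) × Ix P i, er P G.nb (i + 1) S (X 0) q =
      er P G.nb i (s q.1) (X (tau q.1)) q.2 := by
    intro q
    show er P G.nb i (s q.1) (ctr G.nb ch (X 0) q.1.val) q.2 = _
    rw [hch _ q.1.2]
  have hpa : ∀ q : Fin (P.m i) × Ix P i, pa P G c B Bs (i + 1) S Q (X 0) (Y 0) q =
      pa P G c B Bs i (s q.1) (p q.1) (X (tau q.1)) (Y (tau q.1)) q.2 := by
    intro q
    show pa P G c B Bs i (s q.1) (p q.1) (ctr G.nb ch (X 0) q.1.val)
      (sel (Y 0) (k q.1).val (Prt (G.str c) B R Bs (i + 1) (X 0) (Y 0)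
        (ctr G.nb ch (X 0) q.1.val))) q.2 = _
    rw [hch _ q.1.2, hk]
  refine ⟨S, Q, ?_, ?_⟩
  · rintro (q : Fin (P.m i) × Ix P i) (q' : Fin (P.m i) × Ix P i) hqq
    rw [her, her] at hqq
    by_cases hl : q.1 = q'.1
    · obtain ⟨l, u⟩ := q
      obtain ⟨l', u'⟩ := q'
      simp only at hl hqq
      subst hl
      rw [hinj l hqq]
    · exfalso
      have h1 := T05 P G i (s q.1) (X (tau q.1)) q.2
      have h2 := T05 P G i (s q'.1) (X (tau q'.1)) q'.2
      rw [← hqq] at h2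
      have h3 := W_add h1 (W_symm G.symm h2)
      refine T18_far G.symm hGC q.1 q'.1 (fun h4 => hl (Fin.ext h4)) q.1.2 q'.1.2 ?_
      exact W_mono G.refl (by omega) h3
  · rintro (q : Fin (P.m i) × Ix P i)
    obtain ⟨t, ht, h1, h2⟩ := hvis q.1 q.2
    refine ⟨t, ht, ?_, ?_⟩
    · rw [her, h1]
    · rw [hpa, h2]

/-- T19. All window lemmas: induction, T17, T18. -/
theorem T19 {V : Type} {b K M : ℕ} [Finite V] (P : Par) (hP : P.Ok) (hb : 1 ≤ b)
    (G : Base V b K) (hR : Rig G P.s) (c : V → ℕ → Fin M) (i : ℕ) : WL P G c i := by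
  induction i with
  | zero => exact T17 P G hR c
  | succ i ih => exact T18 P hP hb G c i ih

end Pool.Agent.LSN
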