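import Pool.Agent.LSN.Basic
set_option autoImplicit false

namespace Pool.Agent.LSN

open Finset

open Classical in
/-- assignments that vanish outside `S` and avoid all events whose variables are in `S` -/
noncomputable def T20_good {Z I : Type} [Fintype Z] (E : I → Type) {M : ℕ} [NeZero M]
    (D : (k : I) → E k → Finset Z) (bad : (k : I) → E k → (Z → Fin M) → Prop) (S : Finset Z) :
    Finset (Z → Fin M) :=
  univ.filter (fun c => (∀ x, x ∉ S → c x = 0) ∧ ∀ k e, D k e ⊆ S → ¬ bad k e c)

lemma T20_mem {Z I : Type} [Fintype Z] {E : I → Type} {M : ℕ} [NeZero M]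
    {D : (k : I) → E k → Finset Z} {bad : (k : I) → E k → (Z → Fin M) → Prop} {S : Finset Z}
    {c : Z → Fin M} : c ∈ T20_good E D bad S ↔
      (∀ x, x ∉ S → c x = 0) ∧ ∀ k e, D k e ⊆ S → ¬ bad k e c := by
  classical
  simp [T20_good]

/-- the bound for one event -/
lemma T20_one {Z I : Type} [Fintype Z] [DecidableEq Z] {E : I → Type} {M : ℕ} [NeZero M]
    (U D : (k : I) → E k → Finset Z) (bad : (k : I) → E k → (Z → Fin M) → Prop) (w : I → ℕ)
    (hloc : ∀ k e z z', (∀ x ∈ D k e, z x = z' x) → bad k e z → bad k e z')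
    (hw : ∀ k e (z0 : Z → Fin M),
      {z : Z → Fin M | bad k e z ∧ ∀ x, x ∉ U k e → z x = z0 x}.ncard ≤ w k)
    (S : Finset Z) (z : Z) (hz : z ∉ S) (k : I) (e : E k)
    (B : Finset (Z → Fin M))
    (hB : ∀ c ∈ B, bad k e c ∧ ∃ c' ∈ T20_good E D bad S, ∃ t, c = Function.update c' z t) :
    B.card ≤ w k * ((if z ∈ U k e then 1 else M) * (T20_good E D bad (S \ U k e)).card) := by
  classical
  let f : (Z → Fin M) → (Z → Fin M) := fun c x => if x ∈ U k e then 0 else c x
  have hout : ∀ c ∈ B, ∀ x, x ∉ insert z S → c x = 0 := by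
    intro c hc x hx
    obtain ⟨-, c', hc', t, rfl⟩ := hB c hc
    rw [mem_insert, not_or] at hx
    rw [Function.update_of_ne hx.1]
    exact (T20_mem.1 hc').1 x hx.2
  have h1 : B.card ≤ w k * (B.image f).card := by
    refine card_le_mul_card_image _ _ ?_
    intro a ha
    refine le_trans ?_ (hw k e a)
    rw [← Set.ncard_coe_finset]
    refine Set.ncard_le_ncard ?_ (Set.toFinite _)
    intro c hc
    simp only [coe_filter, Set.mem_ofPred_eq] at hc ⊢
    refine ⟨(hB c hc.1).1, fun x hx => ?_⟩
    rw [← hc.2]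
    simp only [f, if_neg hx]
  refine h1.trans (Nat.mul_le_mul_left _ ?_)
  by_cases hzU : z ∈ U k e
  · rw [if_pos hzU, one_mul]
    refine card_le_card ?_
    intro a ha
    rw [mem_image] at ha
    obtain ⟨c, hc, rfl⟩ := ha
    rw [T20_mem]
    obtain ⟨-, c', hc', t, rfl⟩ := hB c hc
    rw [T20_mem] at hc'
    refine ⟨fun x hx => ?_, fun k' e' hD' hbad => ?_⟩
    · by_cases hxU : x ∈ U k e
      · simp only [f, if_pos hxU]
      · simp only [f, if_neg hxU]
        apply hout _ hc
        rw [mem_insert, not_or]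
        refine ⟨fun h => hxU (h ▸ hzU), fun h => hx (mem_sdiff.2 ⟨h, hxU⟩)⟩
    · refine hc'.2 k' e' (hD'.trans sdiff_subset) (hloc k' e' _ c' ?_ hbad)
      intro x hx
      have hx' := mem_sdiff.1 (hD' hx)
      simp only [f, if_neg hx'.2]
      rw [Function.update_of_ne]
      rintro rfl
      exact hz hx'.1
  · rw [if_neg hzU]
    have h2 : B.image f ⊆ ((univ : Finset (Fin M)) ×ˢ (T20_good E D bad (S \ U k e))).image
        (fun p => Function.update p.2 z p.1) := by
      intro a ha
      rw [mem_image] at ha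
      obtain ⟨c, hc, rfl⟩ := ha
      obtain ⟨-, c', hc', t, rfl⟩ := hB c hc
      rw [T20_mem] at hc'
      rw [mem_image]
      refine ⟨(t, fun x => if x ∈ S \ U k e then c' x else 0), ?_, ?_⟩
      · rw [mem_product]
        refine ⟨mem_univ _, ?_⟩
        rw [T20_mem]
        refine ⟨fun x hx => if_neg hx, fun k' e' hD' hbad => ?_⟩
        refine hc'.2 k' e' (hD'.trans sdiff_subset) (hloc k' e' _ c' ?_ hbad)
        intro x hx
        exact if_pos (hD' hx)
      · funext x
        by_cases hxz : x = z
        · subst hxz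
          simp only [Function.update_self, f, if_neg hzU]
        · by_cases hxU : x ∈ U k e
          · simp only [Function.update_of_ne hxz, f, if_pos hxU]
            rw [if_neg]
            intro h
            exact (mem_sdiff.1 h).2 hxU
          · simp only [Function.update_of_ne hxz, f, if_neg hxU]
            by_cases hxS : x ∈ S
            · rw [if_pos (mem_sdiff.2 ⟨hxS, hxU⟩)]
            · rw [if_neg (fun h => hxS (mem_sdiff.1 h).1), hc'.1 x hxS]
    refine (card_le_card h2).trans (card_image_le.trans ?_)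
    rw [card_product, card_univ, Fintype.card_fin]

/-- the growth lemma -/
lemma T20_growth {Z I : Type} [Fintype Z] [DecidableEq Z] [Fintype I] (E : I → Type)
    [∀ k, Fintype (E k)] (M : ℕ) [NeZero M] (U D : (k : I) → E k → Finset Z)
    (bad : (k : I) → E k → (Z → Fin M) → Prop) (u w n : I → ℕ)
    (hUD : ∀ k e, U k e ⊆ D k e)
    (hloc : ∀ k e z z', (∀ x ∈ D k e, z x = z' x) → bad k e z → bad k e z')
    (hu : ∀ k e z, bad k e z → (U k e).card = u k)
    (hw : ∀ k e (z0 : Z → Fin M),
      {z : Z → Fin M | bad k e z ∧ ∀ x, x ∉ U k e → z x = z0 x}.ncard ≤ w k)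
    (hn : ∀ k x, {e : E k | x ∈ D k e ∧ ∃ z, bad k e z}.ncard ≤ n k)
    (hsum : ∑ k, (n k : ℝ) * w k * (2 / M) ^ (u k) ≤ 1 / 2) :
    ∀ N : ℕ, ∀ S : Finset Z, S.card = N → ∀ W ⊆ S,
      ((T20_good E D bad W).card : ℝ) * ((M : ℝ) / 2) ^ (S.card - W.card) ≤
        (T20_good E D bad S).card := by
  classical
  have hM : (0 : ℝ) < M := by exact_mod_cast Nat.pos_of_ne_zero (NeZero.ne M)
  intro N
  induction N with
  | zero =>
    intro S hS W hW
    rw [card_eq_zero] at hS
    subst hS
    rw [subset_empty.1 hW]
    simp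
  | succ N ih =>
    intro S hS W hW
    by_cases hWS : W = S
    · subst hWS; simp
    obtain ⟨z, hzS, hzW⟩ : ∃ z ∈ S, z ∉ W := by
      by_contra hcon
      push Not at hcon
      exact hWS (Subset.antisymm hW hcon)
    set S' := S.erase z with hS'
    have hzS' : z ∉ S' := notMem_erase z S
    have hins : insert z S' = S := insert_erase hzS
    have hcardS' : S'.card = N := by rw [hS', card_erase_of_mem hzS, hS]; rfl
    have hWS' : W ⊆ S' := by
      intro x hx
      rw [hS', mem_erase]
      exact ⟨fun h => hzW (h ▸ hx), hW hx⟩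
    have h1 := ih S' hcardS' W hWS'
    -- the extensions
    let Φ : (Z → Fin M) × Fin M → (Z → Fin M) := fun p => Function.update p.1 z p.2
    let P : Finset ((Z → Fin M) × Fin M) := T20_good E D bad S' ×ˢ (univ : Finset (Fin M))
    have hΦ : Set.InjOn Φ P := by
      rintro ⟨c, t⟩ hc ⟨c', t'⟩ hc' h
      simp only [P, coe_product, Set.mem_prod, mem_coe, T20_mem, Φ] at hc hc' h
      have h1 : t = t' := by
        have := congrFun h z
        simpa using this
      have h2 : c = c' := by
        funext x
        by_cases hx : x = z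
        · subst hx; rw [hc.1.1 _ hzS', hc'.1.1 _ hzS']
        · have := congrFun h x
          simpa [Function.update_of_ne hx] using this
      rw [h1, h2]
    have hcardP : (P.image Φ).card = M * (T20_good E D bad S').card := by
      rw [card_image_of_injOn hΦ, card_product, card_univ, Fintype.card_fin, mul_comm]
    let Bad : (Σ k, E k) → Finset (Z → Fin M) := fun e => (P.image Φ).filter (bad e.1 e.2)
    let F : Finset (Σ k, E k) := univ.sigma (fun k => univ.filter
      (fun e : E k => (z ∈ D k e ∧ ∃ c, bad k e c) ∧ D k e ⊆ S))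
    have hsub : P.image Φ ⊆ T20_good E D bad S ∪ F.biUnion Bad := by
      intro c' hc'
      rw [mem_union]
      by_cases hgood : c' ∈ T20_good E D bad S
      · exact Or.inl hgood
      · right
        rw [mem_image] at hc'
        obtain ⟨⟨c, t⟩, hct, rfl⟩ := hc'
        have hct0 := hct
        simp only [P, mem_product, T20_mem, mem_univ, and_true] at hct
        rw [T20_mem] at hgood
        push Not at hgood
        obtain ⟨k, e, heU, hbad⟩ := hgood (by
          intro x hx
          have hxz : x ≠ z := fun h => hx (h ▸ hzS)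
          simp only [Φ, Function.update_of_ne hxz]
          exact hct.1 x (fun h => hx (mem_of_mem_erase h)))
        have hze : z ∈ D k e := by
          by_contra hze
          have hsubU : D k e ⊆ S' := by
            intro x hx
            rw [hS', mem_erase]
            exact ⟨fun h => hze (h ▸ hx), heU hx⟩
          apply hct.2 k e hsubU
          refine hloc k e _ c ?_ hbad
          intro x hx
          have hxz : x ≠ z := fun h => hze (h ▸ hx)
          simp only [Φ, Function.update_of_ne hxz]
        rw [mem_biUnion]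
        refine ⟨⟨k, e⟩, ?_, ?_⟩
        · simp only [F, mem_sigma, mem_univ, true_and, mem_filter]
          exact ⟨⟨hze, _, hbad⟩, heU⟩
        · simp only [Bad, mem_filter]
          exact ⟨mem_image_of_mem _ hct0, hbad⟩
    have hBad : ∀ p ∈ F, ((Bad p).card : ℝ) ≤
        (w p.1 : ℝ) * (2 / M) ^ (u p.1) * (M * (T20_good E D bad S').card) := by
      rintro ⟨k, e⟩ hp
      simp only [F, mem_sigma, mem_univ, true_and, mem_filter] at hp
      obtain ⟨⟨hze, c0, hc0⟩, heS⟩ := hp
      have h2 := T20_one U D bad w hloc hw S' z hzS' k e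
        (Bad ⟨k, e⟩) (by
          intro c hc
          simp only [Bad, mem_filter, mem_image] at hc
          obtain ⟨⟨⟨c', t⟩, hct, rfl⟩, hbad⟩ := hc
          simp only [P, mem_product, mem_univ, and_true] at hct
          exact ⟨hbad, c', hct, t, rfl⟩)
      have h3 := ih S' hcardS' (S' \ U k e) sdiff_subset
      have h4 : (S' ∩ U k e).card + (S' \ U k e).card = S'.card :=
        card_inter_add_card_sdiff S' (U k e)
      have hdiff : S'.card - (S' \ U k e).card = (S' ∩ U k e).card := by omega
      rw [hdiff] at h3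
      have huk := hu k e c0 hc0
      set A := ((T20_good E D bad (S' \ U k e)).card : ℝ) with hA
      set C := ((T20_good E D bad S').card : ℝ) with hC
      have hC0 : 0 ≤ C := by rw [hC]; positivity
      have hw0 : (0 : ℝ) ≤ w k := Nat.cast_nonneg _
      have h2' : ((Bad ⟨k, e⟩).card : ℝ) ≤ (w k : ℝ) * ((if z ∈ U k e then 1 else (M : ℝ)) * A) := by
        have := (Nat.cast_le (α := ℝ)).2 h2
        push_cast at this
        exact this
      have hinv : ((M : ℝ) / 2) * (2 / M) = 1 := by field_simp
      have hAle : A ≤ C * (2 / M) ^ (S' ∩ U k e).card := by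
        have hpos : (0 : ℝ) ≤ (2 / (M : ℝ)) ^ (S' ∩ U k e).card := by positivity
        have h5 := mul_le_mul_of_nonneg_right h3 hpos
        rwa [mul_assoc, ← mul_pow, hinv, one_pow, mul_one] at h5
      refine h2'.trans ?_
      rw [mul_assoc]
      refine mul_le_mul_of_nonneg_left ?_ hw0
      by_cases hzU : z ∈ U k e
      · rw [if_pos hzU, one_mul]
        have h6 : U k e = insert z (S' ∩ U k e) := by
          ext x
          rw [mem_insert, mem_inter, hS', mem_erase]
          constructor
          · intro hx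
            by_cases hxz : x = z
            · exact Or.inl hxz
            · exact Or.inr ⟨⟨hxz, heS (hUD k e hx)⟩, hx⟩
          · rintro (rfl | ⟨-, hx⟩)
            · exact hzU
            · exact hx
        have h7 : (U k e).card = (S' ∩ U k e).card + 1 := by
          conv_lhs => rw [h6]
          rw [card_insert_of_notMem]
          intro h
          exact hzS' (mem_inter.1 h).1
        rw [← huk, h7, pow_succ]
        have h8 : (2 / (M : ℝ)) ^ (S' ∩ U k e).card * (2 / M) * (M * C) =
            2 * (C * (2 / (M : ℝ)) ^ (S' ∩ U k e).card) := by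
          have h9 : (2 / (M : ℝ)) * M = 2 := div_mul_cancel₀ _ hM.ne'
          calc (2 / (M : ℝ)) ^ (S' ∩ U k e).card * (2 / M) * (M * C)
              = ((2 / (M : ℝ)) * M) * (C * (2 / (M : ℝ)) ^ (S' ∩ U k e).card) := by ring
            _ = _ := by rw [h9]
        rw [h8]
        have hpos : (0 : ℝ) ≤ C * (2 / (M : ℝ)) ^ (S' ∩ U k e).card :=
          mul_nonneg hC0 (pow_nonneg (div_nonneg (by norm_num) hM.le) _)
        linarith
      · rw [if_neg hzU]
        have h6 : U k e = S' ∩ U k e := by
          ext x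
          rw [mem_inter, hS', mem_erase]
          constructor
          · intro hx
            exact ⟨⟨fun h => hzU (h ▸ hx), heS (hUD k e hx)⟩, hx⟩
          · rintro ⟨-, hx⟩
            exact hx
        rw [← h6, huk] at hAle
        calc (M : ℝ) * A ≤ M * (C * (2 / M) ^ u k) := mul_le_mul_of_nonneg_left hAle hM.le
          _ = _ := by ring
    have hF : ∑ p ∈ F, ((w p.1 : ℝ) * (2 / M) ^ (u p.1)) ≤ 1 / 2 := by
      rw [sum_sigma]
      refine le_trans (sum_le_sum (fun k _ => ?_)) hsum
      dsimp only
      rw [sum_const, nsmul_eq_mul, mul_assoc]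
      refine mul_le_mul_of_nonneg_right ?_ (by positivity)
      rw [Nat.cast_le]
      refine le_trans ?_ (hn k z)
      rw [← Set.ncard_coe_finset]
      refine Set.ncard_le_ncard ?_ (Set.toFinite _)
      intro e he
      simp only [coe_filter, mem_univ, true_and, Set.mem_ofPred_eq] at he ⊢
      exact he.1
    have h5 : (M : ℝ) * (T20_good E D bad S').card ≤ (T20_good E D bad S).card +
        (M * (T20_good E D bad S').card) * (1 / 2) := by
      have h6 : M * (T20_good E D bad S').card ≤ (T20_good E D bad S).card +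
          ∑ p ∈ F, (Bad p).card := by
        rw [← hcardP]
        exact (card_le_card hsub).trans ((card_union_le _ _).trans
          (Nat.add_le_add_left card_biUnion_le _))
      have h7 := (Nat.cast_le (α := ℝ)).2 h6
      push_cast at h7
      refine h7.trans (add_le_add_right ?_ _)
      calc ∑ p ∈ F, ((Bad p).card : ℝ)
          ≤ ∑ p ∈ F, (w p.1 : ℝ) * (2 / M) ^ (u p.1) * (M * (T20_good E D bad S').card) :=
            sum_le_sum hBad
        _ = (M * (T20_good E D bad S').card) * ∑ p ∈ F, ((w p.1 : ℝ) * (2 / M) ^ (u p.1)) := by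
            rw [← sum_mul, mul_comm]
        _ ≤ _ := mul_le_mul_of_nonneg_left hF (by positivity)
    have h6 : ((M : ℝ) / 2) * (T20_good E D bad S').card ≤ (T20_good E D bad S).card := by
      linarith
    have h7 : S.card - W.card = (S'.card - W.card) + 1 := by
      have := card_le_card hWS'
      omega
    rw [h7, pow_succ]
    calc ((T20_good E D bad W).card : ℝ) *
          (((M : ℝ) / 2) ^ (S'.card - W.card) * ((M : ℝ) / 2))
        = ((M : ℝ) / 2) * (((T20_good E D bad W).card : ℝ) *
          ((M : ℝ) / 2) ^ (S'.card - W.card)) := by ring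
      _ ≤ ((M : ℝ) / 2) * (T20_good E D bad S').card := by gcongr
      _ ≤ _ := h6

theorem T20 {Z I : Type} [Fintype Z] [DecidableEq Z] [Fintype I] (E : I → Type)
    [∀ k, Fintype (E k)] (M : ℕ) [NeZero M] (U D : (k : I) → E k → Finset Z)
    (bad : (k : I) → E k → (Z → Fin M) → Prop) (u w n : I → ℕ)
    (hu1 : ∀ k, 1 ≤ u k)
    (hUD : ∀ k e, U k e ⊆ D k e)
    (hloc : ∀ k e z z', (∀ x ∈ D k e, z x = z' x) → bad k e z → bad k e z')
    (hu : ∀ k e z, bad k e z → (U k e).card = u k)
    (hw : ∀ k e (z0 : Z → Fin M),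
      {z : Z → Fin M | bad k e z ∧ ∀ x, x ∉ U k e → z x = z0 x}.ncard ≤ w k)
    (hn : ∀ k x, {e : E k | x ∈ D k e ∧ ∃ z, bad k e z}.ncard ≤ n k)
    (hsum : ∑ k, (n k : ℝ) * w k * (2 / M) ^ (u k) ≤ 1 / 2) :
    ∃ z : Z → Fin M, ∀ k e, ¬ bad k e z := by
  have hM : (0 : ℝ) < M := by exact_mod_cast Nat.pos_of_ne_zero (NeZero.ne M)
  have h0 : (fun _ => 0 : Z → Fin M) ∈ T20_good E D bad ∅ := by
    rw [T20_mem]
    refine ⟨fun _ _ => rfl, fun k e hD hbad => ?_⟩
    have h1 := hu k e _ hbad
    have h2 : U k e = ∅ := subset_empty.1 ((hUD k e).trans hD)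
    have h3 := hu1 k
    rw [h2, card_empty] at h1
    omega
  have h1 := T20_growth E M U D bad u w n hUD hloc hu hw hn hsum _ univ rfl ∅ (empty_subset _)
  have h2 : (0 : ℝ) < (T20_good E D bad (univ : Finset Z)).card := by
    refine lt_of_lt_of_le ?_ h1
    have : 0 < (T20_good E D bad (∅ : Finset Z)).card := card_pos.2 ⟨_, h0⟩
    have h3 : (0 : ℝ) < (T20_good E D bad (∅ : Finset Z)).card := by exact_mod_cast this
    positivity
  have h3 : 0 < (T20_good E D bad (univ : Finset Z)).card := by exact_mod_cast h2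
  obtain ⟨c, hc⟩ := card_pos.1 h3
  exact ⟨c, fun k e => (T20_mem.1 hc).2 k e (subset_univ _)⟩

end Pool.Agent.LSN
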