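import Pool.Agent.LSN.Basic
import Pool.Agent.LSN.J01
import Pool.Agent.LSN.J03
import Pool.Agent.LSN.J05
import Pool.Agent.LSN.J08
import Pool.Agent.LSN.J12
import Pool.Agent.LSN.J18
set_option autoImplicit false

namespace Pool.Agent.LSN

open Finset

/-- concatenation of pair walks -/
theorem T21_append {N N' : Type} {r : N → N → Prop} {r' : N' → N' → Prop} {S : N → N' → Prop}
    {X X2 : ℕ → N} {Y Y2 : ℕ → N'} {T T2 : ℕ} (h : PW r r' S X Y T) (h2 : PW r r' S X2 Y2 T2)
    (hX : X2 0 = X T) (hY : Y2 0 = Y T) :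
    PW r r' S (fun t => if t ≤ T then X t else X2 (t - T))
      (fun t => if t ≤ T then Y t else Y2 (t - T)) (T + T2) := by
  refine ⟨?_, ?_⟩
  · intro t ht
    rcases Nat.lt_or_ge t T with h3 | h3
    · simp only [show t ≤ T by omega, show t + 1 ≤ T by omega, if_true]
      exact h.1 t h3
    · simp only [show ¬ (t + 1 ≤ T) by omega, if_false]
      rcases Nat.eq_or_lt_of_le h3 with h4 | h4
      · subst h4
        simp only [le_refl, if_true]
        rw [show T + 1 - T = 0 + 1 by omega, ← hX, ← hY]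
        exact h2.1 0 (by omega)
      · simp only [show ¬ (t ≤ T) by omega, if_false]
        rw [show t + 1 - T = (t - T) + 1 by omega]
        exact h2.1 (t - T) (by omega)
  · intro t ht
    by_cases h3 : t ≤ T
    · simp only [h3, if_true]
      exact h.2 t h3
    · simp only [h3, if_false]
      exact h2.2 (t - T) (by omega)

/-- exchange of the coordinates -/
theorem T21_swap {N N' : Type} {r : N → N → Prop} {r' : N' → N' → Prop} {S : N → N' → Prop}
    {S' : N' → N → Prop} (hS : ∀ u v, S u v → S' v u) {p q : N × N'} (h : Rch r r' S p q) :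
    Rch r' r S' (p.2, p.1) (q.2, q.1) := by
  obtain ⟨h1, h2⟩ := h
  refine ⟨hS _ _ h1, ?_⟩
  induction h2 with
  | refl => exact Relation.ReflTransGen.refl
  | tail _ h4 ih => exact Relation.ReflTransGen.tail ih ⟨h4.2.1, h4.1, hS _ _ h4.2.2⟩

/-- a walk through all points of a finite set of reachable first coordinates -/
theorem T21_tour {N N' : Type} {r : N → N → Prop} {r' : N' → N' → Prop} {S : N → N' → Prop}
    (hr : ∀ u v, r u v → r v u) (hr' : ∀ u v, r' u v → r' v u) (x : N) (y : N') (hxy : S x y)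
    (F : Finset N) (hF : ∀ v ∈ F, ∃ u, Rch r r' S (x, y) (v, u)) :
    ∃ (X : ℕ → N) (Y : ℕ → N') (T : ℕ), PW r r' S X Y T ∧ X 0 = x ∧ Y 0 = y ∧
      ∀ v ∈ F, ∃ t ≤ T, X t = v := by
  classical
  induction F using Finset.induction_on with
  | empty =>
    exact ⟨fun _ => x, fun _ => y, 0, ⟨fun t ht => absurd ht (by omega), fun _ _ => hxy⟩, rfl, rfl,
      fun v hv => absurd hv (Finset.notMem_empty v)⟩
  | insert a s ha ih =>
    obtain ⟨X, Y, T, hW, hX, hY, hs⟩ := ih (fun v hv => hF v (Finset.mem_insert_of_mem hv))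
    obtain ⟨u, hu⟩ := hF a (Finset.mem_insert_self a s)
    have h1 : Rch r r' S (x, y) (X T, Y T) := by
      have := PW_Rch hW (Nat.zero_le T) le_rfl
      rwa [hX, hY] at this
    have h2 : Rch r r' S (X T, Y T) (a, u) := Rch_trans (Rch_symm hr hr' h1) hu
    obtain ⟨X2, Y2, T2, hW2, h3, h4, h5, h6⟩ := Rch_PW h2
    refine ⟨_, _, T + T2, T21_append hW hW2 h3 h4, ?_, ?_, ?_⟩
    · simp only [Nat.zero_le, if_true]; exact hX
    · simp only [Nat.zero_le, if_true]; exact hY
    · intro v hv
      rcases Finset.mem_insert.1 hv with rfl | hv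
      · refine ⟨T + T2, le_rfl, ?_⟩
        by_cases h7 : T + T2 ≤ T
        · have h8 : T2 = 0 := by omega
          subst h8
          have h9 : X T = v := by
            have h10 : X2 0 = X T := h3
            have h11 : X2 0 = v := h5
            rw [← h10, h11]
          simpa using h9
        · simp only [h7, if_false, Nat.add_sub_cancel_left]
          exact h5
      · obtain ⟨t, ht, h7⟩ := hs v hv
        refine ⟨t, by omega, ?_⟩
        simp only [ht, if_true]
        exact h7

theorem T21 {V : Type} {b K M : ℕ} [Finite V] (P : Par) (hP : P.Ok) (hb : 1 ≤ b)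
    (G : Base V b K) (hR : Rig G P.s) (c : V → ℕ → Fin M) (i : ℕ)
    (hlow : ∀ j < i, Bd P G j (G.str c)) (hnot : ¬ Bd P G i (G.str c)) :
    ∃ n ≤ P.xi b i, ∃ A : Str K M (Fin n), Adm G A ∧ Gd P G i n A ∧
      ∃ (v0 : V) (ch : Fin (P.Nn i) → Fin (P.Nn i) × (Fin (2 * P.rho i + 1) → Fin b))
        (a : Fin (P.Nn i) → Fin n) (sk : Fin (P.Nn i) → Sk P b i)
        (p : Fin (P.Nn i) → Pt P b i),
        Function.Injective (fun q : Fin (P.Nn i) × Ix P i =>
          er P G.nb i (sk q.1) (ctr G.nb ch v0 q.1.val) q.2) ∧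
        ∀ q : Fin (P.Nn i) × Ix P i,
          c (er P G.nb i (sk q.1) (ctr G.nb ch v0 q.1.val) q.2) i =
            A.c (pa P G c A Set.univ i (sk q.1) (p q.1) (ctr G.nb ch v0 q.1.val) (a q.1) q.2)
              i := by
  classical
  unfold Bd at hnot
  push Not at hnot
  obtain ⟨n, hn, A, hA, hGd, a0, v0, hcard⟩ := hnot
  refine ⟨n, hn, A, hA, hGd, v0, ?_⟩
  set ρ := P.rho i with hρ
  have hNn : 2 ≤ P.Nn i := (hP i).2
  -- the set of visited vertices
  set S : V → Fin n → Prop := fun u v => Al (G.str c) A Set.univ Set.univ (i + 1) u v with hS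
  have hXi : 0 < P.Xi b i := by
    unfold Par.Xi
    positivity
  obtain ⟨v1, hv1⟩ : ({v | ∃ u, Rch A.r (G.str c).r (Mt A (G.str c) (i + 1)) (a0, v0)
      (u, v)} : Set V).Nonempty := by
    rw [← Set.ncard_pos (Set.toFinite _)]
    omega
  obtain ⟨u1, hu1⟩ := hv1
  have hmt : ∀ (u : Fin n) (v : V), Mt A (G.str c) (i + 1) u v → S v u := by
    intro u v h
    exact ⟨Set.mem_univ _, Set.mem_univ _, h.1.symm, fun k hk => (h.2 k hk).symm⟩
  have hstart : S v0 a0 := hmt _ _ hu1.1
  set F : Finset V := (Set.toFinite {v | ∃ u, Rch A.r (G.str c).r (Mt A (G.str c) (i + 1))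
      (a0, v0) (u, v)}).toFinset with hF
  obtain ⟨X, Y, T, hW, hX0, hY0, htour⟩ := T21_tour (r := G.r) (r' := A.r) (S := S) G.symm hA.1
    v0 a0 hstart F (by
      intro v hv
      rw [hF, Set.Finite.mem_toFinset] at hv
      obtain ⟨u, hu⟩ := hv
      exact ⟨u, T21_swap hmt hu⟩)
  -- greedy centres
  have hXr : ∀ t < T, G.r (X t) (X (t + 1)) := fun t ht => (hW.1 t ht).1
  have hgc : ∃ tau, GC G.r X (2 * ρ) (P.Nn i) tau ∧ tau (P.Nn i - 1) ≤ T := by
    rcases T12 G.r G.refl X T (2 * ρ) (P.Nn i) (by omega) hXr with h | h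
    · exact h
    · exfalso
      obtain ⟨m', h1, h2, tau, h3, h4, h5⟩ := h
      have h6 := T02 G (fun l => X (tau l)) m' (2 * ρ)
      have h7 : {v | ∃ u, Rch A.r (G.str c).r (Mt A (G.str c) (i + 1)) (a0, v0) (u, v)} ⊆
          reg G.r (fun l => X (tau l)) m' (2 * ρ) := by
        intro v hv
        obtain ⟨t, ht, rfl⟩ := htour v (by rw [hF, Set.Finite.mem_toFinset]; exact hv)
        obtain ⟨l, hl, hl2⟩ := h5 t ht
        exact ⟨l, hl, hl2⟩
      have h8 := Set.ncard_le_ncard h7 h6.1
      have h9 : m' * b ^ (2 * ρ) < P.Nn i * b ^ (2 * ρ) :=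
        Nat.mul_lt_mul_of_pos_right h2 (by positivity)
      have h10 : P.Xi b i = P.Nn i * b ^ (2 * ρ) := rfl
      have := h6.2
      omega
  obtain ⟨tau, hGC, htau⟩ := hgc
  obtain ⟨hg0, hg1, hg2, hg3, hg4⟩ := hGC
  have hmono : ∀ l l', l < l' → l' < P.Nn i → tau l < tau l' := by
    intro l l' h1
    induction l' with
    | zero => omega
    | succ l' ih =>
      intro h2
      have h3 := hg1 l' h2
      rcases Nat.lt_or_ge l l' with h4 | h4
      · have := ih h4 (by omega)
        omega
      · have : l = l' := by omega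
        subst this; exact h3
  have htauT : ∀ l, l < P.Nn i → tau l ≤ T := by
    intro l hl
    rcases Nat.lt_or_ge l (P.Nn i - 1) with h1 | h1
    · have := hmono l (P.Nn i - 1) h1 (by omega)
      omega
    · have : l = P.Nn i - 1 := by omega
      rw [this]; exact htau
  obtain ⟨ch, hch⟩ := T04 G (fun l => X (tau l)) (P.Nn i) (2 * ρ + 1) (by
    intro l h1 h2
    obtain ⟨a, h3, h4⟩ := hg3 l h1 h2
    exact ⟨a, h3, h4⟩)
  have hch' : ∀ l < P.Nn i, ctr G.nb ch v0 l = X (tau l) := by
    intro l hl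
    have := hch l hl
    simp only [hg0, hX0] at this
    exact this
  -- windows
  have hfar : ∀ l l', l ≠ l' → l < P.Nn i → l' < P.Nn i → ¬ W G.r (2 * ρ) (X (tau l)) (X (tau l')) := by
    intro l l' h1 h2 h3 h4
    rcases Nat.lt_or_gt_of_ne h1 with h5 | h5
    · exact hg2 l l' h5 h3 h4
    · exact hg2 l' l h5 h2 (W_symm G.symm h4)
  have hAB : ∀ j < i, Bd P G j A := (T08 P G i n A).1 hGd
  have hwin : ∀ l : Fin (P.Nn i), ∃ (s : Sk P b i) (p : Pt P b i),
      Function.Injective (er P G.nb i s (X (tau l))) ∧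
      ∀ q, ∃ t ≤ T, er P G.nb i s (X (tau l)) q = X t ∧
        pa P G c A Set.univ i s p (X (tau l)) (Y (tau l)) q = Y t := by
    intro l
    have hWL := T19 (M := M) P hP hb G hR c i
      (fun j hj => hlow j (by omega)) (Fin n) A Set.univ hA hAB (i + 1) (by omega)
    by_cases hl : l.val = 0
    · have h1 : tau l.val ≤ T := htauT _ l.2
      have h2 := PW_shift hW h1
      obtain ⟨s, p, h3, h4⟩ := hWL _ _ _ h2 ⟨tau 1 - tau l.val, by
          have := htauT 1 (by omega)
          omega, by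
          have h5 := hmono l.val 1 (by omega) (by omega)
          have h6 := hfar l.val 1 (by omega) l.2 (by omega)
          intro h7
          apply h6
          simp only [Nat.add_zero] at h7
          rw [show tau l.val + (tau 1 - tau l.val) = tau 1 by omega] at h7
          exact W_mono G.refl (by omega) h7⟩
      simp only [Nat.add_zero] at h3 h4
      refine ⟨s, p, h3, ?_⟩
      intro q
      obtain ⟨t, ht, h5, h6⟩ := h4 q
      exact ⟨tau l.val + t, by omega, h5, h6⟩
    · have h1 : tau l.val ≤ T := htauT _ l.2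
      have h2 := PW_rev G.symm hA.1 hW h1
      obtain ⟨s, p, h3, h4⟩ := hWL _ _ _ h2 ⟨tau l.val, le_rfl, by
          have h6 := hfar l.val 0 hl l.2 (by omega)
          intro h7
          apply h6
          simp only [Nat.sub_zero, Nat.sub_self] at h7
          rw [hg0]
          exact W_mono G.refl (by omega) h7⟩
      simp only [Nat.sub_zero] at h3 h4
      refine ⟨s, p, h3, ?_⟩
      intro q
      obtain ⟨t, ht, h5, h6⟩ := h4 q
      exact ⟨tau l.val - t, by omega, h5, h6⟩
  choose sk p hinj hvis using hwin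
  refine ⟨ch, fun l => Y (tau l.val), sk, p, ?_, ?_⟩
  · rintro ⟨l, q⟩ ⟨l', q'⟩ h
    simp only [hch' l.val l.2, hch' l'.val l'.2] at h
    by_cases hll : l = l'
    · subst hll
      have := hinj l h
      rw [this]
    · exfalso
      have h1 := T05 P G i (sk l) (X (tau l.val)) q
      have h2 := T05 P G i (sk l') (X (tau l'.val)) q'
      rw [← h] at h2
      have h3 := W_add h1 (W_symm G.symm h2)
      apply hfar l.val l'.val (fun h4 => hll (Fin.ext h4)) l.2 l'.2
      rw [show 2 * ρ = P.rho i + P.rho i by omega]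
      exact h3
  · rintro ⟨l, q⟩
    simp only [hch' l.val l.2]
    obtain ⟨t, ht, h1, h2⟩ := hvis l q
    rw [h1, h2]
    exact (hW.2 t ht).2.2.2 i (by omega)

end Pool.Agent.LSN
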