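import Pool.Agent.LSN.Basic
import Pool.Agent.LSN.J07
import Pool.Agent.LSN.J08
import Pool.Agent.LSN.J21
/-!
# LSN: target T22
-/

set_option autoImplicit false

namespace Pool.Agent.LSN

/-- T22. The result of T21 in terms of the event type. -/
theorem T22 {V : Type} {b K M L : ℕ} [Finite V] [NeZero M] (P : Par) (hP : P.Ok) (hb : 1 ≤ b)
    (G : Base V b K) (hR : Rig G P.s) (z : V × Fin (L + 1) → Fin M) (i : ℕ)
    (hlow : ∀ j < i, Bd P G j (G.str (cz z))) (hnot : ¬ Bd P G i (G.str (cz z))) :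
    ∃ n ≤ P.xi b i, ∃ e : EG P V b K M i n, badG P G e z := by
  classical
  obtain ⟨n, hn, A, hA, hGd, v0, ch, a, sk, p, hinj, hp⟩ :=
    T21 P hP hb G hR (cz z) i hlow hnot
  obtain ⟨r, col, c⟩ := A
  let d : Dat K M i n := (fun x y => decide (r x y), col, fun x k => c x k.val)
  have hr : (sD d).r = r := by
    funext x y
    exact propext (decide_eq_true_iff)
  have hsD : sD d = (⟨r, col, (sD d).c⟩ : Str K M (Fin n)) := by
    have h1 : sD d = (⟨(sD d).r, col, (sD d).c⟩ : Str K M (Fin n)) := rfl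
    rw [hr] at h1
    exact h1
  have hc : ∀ w, ∀ k ≤ i, c w k = (sD d).c w k := by
    intro w k hk
    have h1 : (sD d).c w k = if h : k < i + 1 then c w k else 0 := rfl
    rw [h1, dif_pos (Nat.lt_succ_of_le hk)]
  refine ⟨n, hn, (v0, d, ch, a, sk), ?_, ?_, hinj, p, ?_⟩
  · show Adm G (sD d)
    rw [hsD]
    exact hA
  · show Gd P G i n (sD d)
    rw [hsD]
    refine (T08 P G i n _).2 fun j hj => ?_
    refine T09 P G j r col c (sD d).c (fun w k hk => hc w k (le_trans hk hj.le)) ?_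
    exact (T08 P G i n _).1 hGd j hj
  · intro q
    have h7 : pa P G (cz z) (sD d) Set.univ i (sk q.1) (p q.1) (ctr G.nb ch v0 q.1.val)
        (a q.1) q.2 = pa P G (cz z) (⟨r, col, c⟩ : Str K M (Fin n)) Set.univ i (sk q.1) (p q.1)
        (ctr G.nb ch v0 q.1.val) (a q.1) q.2 := by
      rw [hsD]
      exact T07 P G (cz z) (cz z) r col (sD d).c c Set.univ i (sk q.1) (p q.1) _ _ _
        (fun v _ k _ => rfl) (fun w _ k hk => (hc w k hk.le).symm)
    show cz z (er P G.nb i (sk q.1) (ctr G.nb ch v0 q.1.val) q.2) i =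
      (sD d).c (pa P G (cz z) (sD d) Set.univ i (sk q.1) (p q.1) (ctr G.nb ch v0 q.1.val)
        (a q.1) q.2) i
    rw [h7, ← hc _ i le_rfl]
    exact hp q

end Pool.Agent.LSN
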