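import Pool.Agent.LSN.Basic
import Pool.Agent.LSN.J01
import Pool.Agent.LSN.J03
import Pool.Agent.LSN.J05
import Pool.Agent.LSN.J10
import Pool.Agent.LSN.J18
/-!
# LSN: crossing, one-sided (target T23; helper73)
-/

set_option autoImplicit false

namespace Pool.Agent.LSN

/-- T23. Crossing, one-sided. -/
theorem T23 {V : Type} {b K M : ℕ} [Finite V] (P : Par) (hP : P.Ok) (hb : 1 ≤ b)
    (G : Base V b K) (hR : Rig G P.s) (c : V → ℕ → Fin M) (i m rad e : ℕ) (hm : 2 ≤ m)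
    (hmi : m ≤ P.m i) (he : i + 1 ≤ e) (hBd : ∀ j ≤ i, Bd P G j (G.str c)) (X Y : ℕ → V) (T : ℕ)
    (hW : PW G.r G.r (Mt (G.str c) (G.str c) e) X Y T) (tau : ℕ → ℕ)
    (hGC : GC G.r X (2 * P.rho i) m tau) (hT : tau (m - 1) ≤ T)
    (hY : ∀ t ≤ tau (m - 1), W G.r rad (Y 0) (Y t)) :
    ∃ ev : EC P V b i m, ev.1 = X 0 ∧ ev.2.1 = Y 0 ∧ Function.Injective (eC P G ev) ∧
      ∃ p : Fin m → Fin (P.Xi b i) × Pt P b i, ∀ q : Fin m × Ix P i,
        ∃ t ≤ tau (m - 1), eC P G ev q = X t ∧ pC P G c rad ev p q = Y t := by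
  have hN2 : 2 ≤ P.Nn i := (hP i).2
  set Bs : Set V := {v | W G.r rad (Y 0) v} with hBs
  have hA : Adm G (G.str c) :=
    ⟨G.symm, id, Function.injective_id, fun _ _ h => h, fun _ => rfl⟩
  have hWL : WL P G c i := T19 P hP hb G hR c i
  have hmono := T18_mono hGC
  have hlT : ∀ l < m, tau l ≤ tau (m - 1) := fun l hl => hmono (m - 1) l (by omega) (by omega)
  have htau0 : tau 0 = 0 := hGC.1
  -- the walk up to the last centre
  have hW1 : PW G.r (G.str c).r (Al (G.str c) (G.str c) Set.univ Bs e) X Y (tau (m - 1)) :=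
    ⟨fun t ht => hW.1 t (by omega), fun t ht => ⟨Set.mem_univ _, hY t ht, hW.2 t (by omega)⟩⟩
  obtain ⟨ch, hch0⟩ := T04 G (fun l => X (tau l)) m (2 * P.rho i + 1) hGC.2.2.2.1
  have hch : ∀ l < m, ctr G.nb ch (X 0) l = X (tau l) := by
    intro l hl
    have h1 := hch0 l hl
    simp only [htau0] at h1
    exact h1
  -- the windows around the centres
  have hwin : ∀ l : Fin m, ∃ (s : Sk P b i) (p : Pt P b i),
      Function.Injective (er P G.nb i s (X (tau l))) ∧
      ∀ q, ∃ t ≤ tau (m - 1), er P G.nb i s (X (tau l)) q = X t ∧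
        pa P G c (G.str c) Bs i s p (X (tau l)) (Y (tau l)) q = Y t := by
    intro l
    obtain ⟨l', hl', hne⟩ : ∃ l' < m, (l : ℕ) ≠ l' := by
      by_cases h0 : (l : ℕ) = 0
      · exact ⟨1, by omega, by omega⟩
      · exact ⟨0, by omega, h0⟩
    refine T18_win P G c i hWL (fun j hj => hBd j (by omega)) V (G.str c) Bs hA
      (fun j hj => hBd j (by omega)) e (by omega) X Y _ hW1 (tau l) (tau l') (hlT l l.2)
      (hlT l' hl') ?_
    intro h1
    exact T18_far G.symm hGC l l' hne l.2 hl' (W_mono G.refl (by omega) h1)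
  choose s p hinj hvis using hwin
  -- the pointers to the partners of the centres
  set R : Set V := reg G.r (ctr G.nb ch (X 0)) m (2 * P.rho i) with hR'
  have hPW : PW G.r (G.str c).r (Al (G.str c) (G.str c) R Bs (i + 1)) X Y (tau (m - 1)) := by
    refine ⟨fun t ht => hW1.1 t ht, fun t ht => ?_⟩
    obtain ⟨_, h2, h3⟩ := hW1.2 t ht
    refine ⟨?_, h2, h3.1, fun k hk => h3.2 k (by omega)⟩
    obtain ⟨l, hl, _, h4⟩ := hGC.2.2.2.2 t ht
    refine ⟨l, hl, ?_⟩
    rw [hch l hl]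
    exact h4
  have hXi : 0 < P.Xi b i := by
    unfold Par.Xi
    have : 0 < b ^ (2 * P.rho i) := Nat.pow_pos (by omega)
    exact Nat.mul_pos (by omega) this
  have hRc : R.ncard ≤ P.xi b i :=
    (T02 G _ _ _).2.trans (Nat.mul_le_mul_right _ hmi)
  have hptr : ∀ l : Fin m, ∃ k : Fin (P.Xi b i),
      sel (Y 0) k.val (Prt (G.str c) (G.str c) R Bs (i + 1) (X 0) (Y 0) (X (tau l))) =
        Y (tau l) := by
    intro l
    have h1 : Y (tau l) ∈ Prt (G.str c) (G.str c) R Bs (i + 1) (X 0) (Y 0) (X (tau l)) :=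
      PW_Rch hPW (Nat.zero_le _) (hlT l l.2)
    have h2 : (Prt (G.str c) (G.str c) R Bs (i + 1) (X 0) (Y 0) (X (tau l))).ncard <
        P.Xi b i :=
      T11 P G c i (fun j hj => hBd j (by omega)) (G.str c) (hBd i le_rfl) Bs R
        hRc hXi _ _ _
    obtain ⟨k, hk, hsel⟩ := T06 (Y 0) _ _ h1
    exact ⟨⟨k, by omega⟩, hsel⟩
  choose k hk using hptr
  -- the event
  let ev : EC P V b i m := (X 0, Y 0, ch, s)
  have her : ∀ q : Fin m × Ix P i, eC P G ev q = er P G.nb i (s q.1) (X (tau q.1)) q.2 := by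
    intro q
    show er P G.nb i (s q.1) (ctr G.nb ch (X 0) q.1.val) q.2 = _
    rw [hch _ q.1.2]
  have hpa : ∀ q : Fin m × Ix P i, pC P G c rad ev (fun l => (k l, p l)) q =
      pa P G c (G.str c) Bs i (s q.1) (p q.1) (X (tau q.1)) (Y (tau q.1)) q.2 := by
    intro q
    show pa P G c (G.str c) Bs i (s q.1) (p q.1) (ctr G.nb ch (X 0) q.1.val)
      (sel (Y 0) (k q.1).val (Prt (G.str c) (G.str c) R Bs (i + 1) (X 0) (Y 0)
        (ctr G.nb ch (X 0) q.1.val))) q.2 = _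
    rw [hch _ q.1.2, hk]
  refine ⟨ev, rfl, rfl, ?_, fun l => (k l, p l), ?_⟩
  · rintro q q' hqq
    rw [her, her] at hqq
    by_cases hl : q.1 = q'.1
    · obtain ⟨l, u⟩ := q
      obtain ⟨l', u'⟩ := q'
      simp only at hl hqq
      subst hl
      rw [hinj l hqq]
    · exfalso
      have h1 := T05 P G i (s q.1) (X (tau q.1)) q.2
      have h2 := T05 P G i (s q'.1) (X (tau q'.1)) q'.2
      rw [← hqq] at h2
      have h3 := W_add h1 (W_symm G.symm h2)
      refine T18_far G.symm hGC q.1 q'.1 (fun h4 => hl (Fin.ext h4)) q.1.2 q'.1.2 ?_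
      exact W_mono G.refl (by omega) h3
  · intro q
    obtain ⟨t, ht, h1, h2⟩ := hvis q.1 q.2
    refine ⟨t, ht, ?_, ?_⟩
    · rw [her, h1]
    · rw [hpa, h2]

end Pool.Agent.LSN
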