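import Pool.Agent.LSN.Basic
import Pool.Agent.LSN.J14
import Pool.Agent.LSN.J23
set_option autoImplicit false

namespace Pool.Agent.LSN

/-- one-sided form -/
theorem T24_side {V : Type} {b K M L : ℕ} [Finite V] [NeZero M] (P : Par) (hP : P.Ok) (hb : 1 ≤ b)
    (G : Base V b K) (hR : Rig G P.s) (z : V × Fin (L + 1) → Fin M) (i m R rad : ℕ) (hi : i < L)
    (hm : 2 ≤ m) (hmi : m ≤ P.m i)
    (hBd : ∀ j < L, Bd P G j (G.str (cz z))) (X Y : ℕ → V) (T : ℕ)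
    (hW : PW G.r G.r (Mt (G.str (cz z)) (G.str (cz z)) (L + 1)) X Y T)
    (hRt : Rt G R rad (X 0) (Y 0)) (tau : ℕ → ℕ)
    (hGC : GC G.r X (2 * P.rho i) m tau) (hT : tau (m - 1) ≤ T)
    (hY : ∀ t ≤ tau (m - 1), W G.r rad (Y 0) (Y t)) :
    ∃ ev : EC P V b i m, badC P G R rad ev z := by
  obtain ⟨ev, h1, h2, h3, p, hp⟩ := T23 P hP hb G hR (cz z) i m rad (L + 1) hm hmi
    (by omega) (fun j hj => hBd j (by omega)) X Y T hW tau hGC hT hY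
  refine ⟨ev, ?_, h3, p, fun q => ?_⟩
  · rw [h1, h2]; exact hRt
  · obtain ⟨t, ht, h4, h5⟩ := hp q
    rw [h4, h5, h2]
    refine ⟨hY t ht, ?_⟩
    exact (hW.2 t (le_trans ht hT)).2 L (Nat.lt_succ_self L)

theorem T24 {V : Type} {b K M L : ℕ} [Finite V] [NeZero M] (P : Par) (hP : P.Ok) (hb : 1 ≤ b)
    (G : Base V b K) (hR : Rig G P.s) (z : V × Fin (L + 1) → Fin M) (i m R rad : ℕ) (hi : i < L)
    (hm : 2 ≤ m) (hmi : m ≤ P.m i) (hrad : (2 * P.rho i + 1) * m ≤ rad + 1)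
    (hBd : ∀ j < L, Bd P G j (G.str (cz z))) (X Y : ℕ → V) (T : ℕ)
    (hW : PW G.r G.r (Mt (G.str (cz z)) (G.str (cz z)) (L + 1)) X Y T)
    (hRt : Rt G R rad (X 0) (Y 0))
    (hfar : ∃ t ≤ T, ¬ W G.r ((2 * P.rho i + 1) * (m - 1) - 1) (X 0) (X t)) :
    ∃ ev : EC P V b i m, badC P G R rad ev z := by
  have hle : (2 * P.rho i + 1) * m - 1 ≤ rad := by omega
  rcases T14 G.r G.refl X Y T (2 * P.rho i) m hm (fun t ht => (hW.1 t ht).1)
    (fun t ht => (hW.1 t ht).2) hfar with ⟨tau, hGC, hT, hY⟩ | ⟨tau, hGC, hT, hX⟩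
  · exact T24_side P hP hb G hR z i m R rad hi hm hmi hBd X Y T hW hRt tau hGC hT
      (fun t ht => W_mono G.refl hle (hY t ht))
  · refine T24_side P hP hb G hR z i m R rad hi hm hmi hBd Y X T ?_ ?_ tau hGC hT
      (fun t ht => W_mono G.refl hle (hX t ht))
    · refine ⟨fun t ht => ⟨(hW.1 t ht).2, (hW.1 t ht).1⟩, fun t ht => ?_⟩
      exact ⟨(hW.2 t ht).1.symm, fun k hk => ((hW.2 t ht).2 k hk).symm⟩
    · refine ⟨fun h => hRt.1 (W_symm G.symm h), fun h => W_symm G.symm (hRt.2 h)⟩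

end Pool.Agent.LSN
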