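import Pool.Agent.LSN.Basic
import Pool.Agent.LSN.J15
import Pool.Agent.LSN.J16
/-!
# LSN: T25
-/

set_option autoImplicit false

namespace Pool.Agent.LSN

theorem T25 {V : Type} {b K M L : ℕ} [NeZero M] (G : Base V b K) (s : ℕ)
    (hR : Rig G s) (z : V × Fin (L + 1) → Fin M) (v R rad : ℕ) (hvs : v ≤ s) (hv : v ≤ rad)
    (X Y : ℕ → V) (T : ℕ) (hW : PW G.r G.r (Mt (G.str (cz z)) (G.str (cz z)) (L + 1)) X Y T)
    (hRt : Rt G R rad (X 0) (Y 0)) (hfar : ∃ t ≤ T, ¬ W G.r v (X 0) (X t)) :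
    ∃ ev : E0 V b v, bad0 G R rad ev z := by
  obtain ⟨X', Y', h0, h0', hst, hin, hdist⟩ :=
    T15 G.r G.r (Mt (G.str (cz z)) (G.str (cz z)) (L + 1)) G.refl X Y T v hW hfar
  obtain ⟨f, hf⟩ := pp_exists G X' (fun j hj => (hst j hj).1)
  rw [h0] at hf
  have hMt : ∀ j ≤ v, Mt (G.str (cz z)) (G.str (cz z)) (L + 1) (X' j) (Y' j) := by
    intro j hj
    obtain ⟨t, ht, h1, h2⟩ := hin j hj
    rw [h1, h2]
    exact hW.2 t ht
  have hcol : ∀ j ≤ v, G.col (X' j) = G.col (Y' j) := fun j hj => (hMt j hj).1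
  have he : ∀ j ≤ v, e0 G (v := v) (X 0, Y 0, f) j = X' j := fun j hj => hf j hj
  have hAdm : Adm G (G.str (cz z)) :=
    ⟨fun x y h => G.symm x y h, id, Function.injective_id, fun _ _ h => h, fun _ => rfl⟩
  have hp : ∀ j ≤ v, p0 G (v := v) (X 0, Y 0, f) j = Y' j := by
    intro j hj
    have h3 := T16 G (G.str (cz z)) hAdm
      (fun j => G.col (e0 G (v := v) (X 0, Y 0, f) j)) Y' v (fun j hj => (hst j hj).2)
      (fun j hj => by
        show G.col (Y' j) = G.col (e0 G (v := v) (X 0, Y 0, f) j)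
        rw [he j hj, hcol j hj]) j hj
    rw [h0'] at h3
    exact h3
  refine ⟨(X 0, Y 0, f), hRt, ?_, ?_⟩
  · intro i hi j hj hij
    rw [he i hi, he j hj] at hij
    exact hR v X' Y' hvs hst hcol hdist i hi j hj hij
  · intro j hj
    rw [hp j hj, he j hj]
    refine ⟨?_, (hMt j hj).2 L (Nat.lt_succ_self L)⟩
    have h4 : W G.r (j - 0) (Y' 0) (Y' j) :=
      W_seq (r := G.r) (X := Y') (T := v) (fun t ht => (hst t ht).2) (Nat.zero_le j) hj
    rw [Nat.sub_zero, h0'] at h4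
    exact W_mono G.refl (by omega) h4

end Pool.Agent.LSN
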