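import Pool.Agent.LSN.Basic
import Pool.Agent.LSN.J03
import Pool.Agent.LSN.J05
/-!
# LSN: T26, T27
-/

set_option autoImplicit false

namespace Pool.Agent.LSN

open Finset

theorem T26 (P : Par) (b : ℕ) :
    (∀ i, Fintype.card (Ix P i) = P.g i) ∧
    Fintype.card (Sk P b 0) = b ^ P.s ∧ Fintype.card (Pt P b 0) = 1 ∧
    (∀ i, Fintype.card (Sk P b (i + 1)) =
      (P.m i * b ^ (2 * P.rho i + 1)) ^ P.m i * Fintype.card (Sk P b i) ^ P.m i) ∧
    ∀ i, Fintype.card (Pt P b (i + 1)) = (P.Xi b i * Fintype.card (Pt P b i)) ^ P.m i := by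
  refine ⟨?_, ?_, ?_, ?_, ?_⟩
  · intro i
    induction i with
    | zero =>
      have h : Fintype.card (Ix P 0) = Fintype.card (Fin (P.s + 1)) :=
        Fintype.card_congr (Equiv.refl _)
      rw [h, Fintype.card_fin]
      rfl
    | succ i ih =>
      have h : Fintype.card (Ix P (i + 1)) = Fintype.card (Fin (P.m i) × Ix P i) :=
        Fintype.card_congr (Equiv.refl _)
      rw [h, Fintype.card_prod, Fintype.card_fin, ih]
      rfl
  · have h : Fintype.card (Sk P b 0) = Fintype.card (Fin P.s → Fin b) :=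
      Fintype.card_congr (Equiv.refl _)
    rw [h, Fintype.card_fun, Fintype.card_fin, Fintype.card_fin]
  · have h : Fintype.card (Pt P b 0) = Fintype.card Unit :=
      Fintype.card_congr (Equiv.refl _)
    rw [h, Fintype.card_unit]
  · intro i
    have h : Fintype.card (Sk P b (i + 1)) =
        Fintype.card ((Fin (P.m i) → Fin (P.m i) × (Fin (2 * P.rho i + 1) → Fin b)) ×
          (Fin (P.m i) → Sk P b i)) :=
      Fintype.card_congr (Equiv.refl _)
    rw [h, Fintype.card_prod, Fintype.card_fun, Fintype.card_fun, Fintype.card_prod,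
      Fintype.card_fun, Fintype.card_fin, Fintype.card_fin, Fintype.card_fin]
  · intro i
    have h : Fintype.card (Pt P b (i + 1)) =
        Fintype.card (Fin (P.m i) → Fin (P.Xi b i) × Pt P b i) :=
      Fintype.card_congr (Equiv.refl _)
    rw [h, Fintype.card_fun, Fintype.card_prod, Fintype.card_fin, Fintype.card_fin]

theorem T27 {V : Type} [Fintype V] {b K M L i n : ℕ} [NeZero M] (P : Par) (G : Base V b K)
    (hi : i < L + 1) (e : EG P V b K M i n) :
    UG P G hi e ⊆ DG P G L e ∧
    ∀ z : V × Fin (L + 1) → Fin M, badG P G e z → (UG P G hi e).card = P.Nn i * P.g i := by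
  classical
  constructor
  · intro x hx
    unfold UG at hx
    rw [Finset.mem_image] at hx
    obtain ⟨q, _, rfl⟩ := hx
    unfold DG
    rw [Finset.mem_filter]
    refine ⟨Finset.mem_univ _, ?_⟩
    have h1 : W G.r ((2 * P.rho i + 1) * q.1.val) e.1 (zG P G e q.1.val) :=
      (T03 G e.2.2.1 e.1).2.2.2 q.1.val
    have h2 : W G.r (P.rho i) (zG P G e q.1.val) (eG P G e q) :=
      T05 P G i (e.2.2.2.2 q.1) (zG P G e q.1.val) q.2
    have h3 := W_add h1 h2
    refine W_mono G.refl ?_ h3
    have h4 : q.1.val ≤ P.Nn i := q.1.isLt.le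
    calc (2 * P.rho i + 1) * q.1.val + P.rho i
        ≤ (2 * P.rho i + 1) * P.Nn i + P.rho i :=
          Nat.add_le_add_right (Nat.mul_le_mul_left _ h4) _
      _ = P.Nn i * (2 * P.rho i + 1) + P.rho i := by rw [Nat.mul_comm]
  · intro z hz
    have hinj : Function.Injective (eG P G e) := hz.2.2.1
    unfold UG
    rw [Finset.card_image_of_injective]
    · rw [Finset.card_univ, Fintype.card_prod, Fintype.card_fin, (T26 P b).1 i]
    · intro q q' hq
      exact hinj (Prod.mk.inj hq).1

end Pool.Agent.LSN
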