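import Pool.Agent.LSN.Basic
import Pool.Agent.LSN.J03
import Pool.Agent.LSN.J05
import Pool.Agent.LSN.J07
set_option autoImplicit false

namespace Pool.Agent.LSN

lemma T28_cz {V : Type} {M L : ℕ} [NeZero M] (z z' : V × Fin (L + 1) → Fin M) (v : V)
    (k : ℕ) (h : ∀ hk : k < L + 1, z (v, ⟨k, hk⟩) = z' (v, ⟨k, hk⟩)) :
    cz z v k = cz z' v k := by
  unfold cz
  by_cases hk : k < L + 1
  · rw [dif_pos hk, dif_pos hk]; exact h hk
  · rw [dif_neg hk, dif_neg hk]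

theorem T28 {V : Type} [Fintype V] {b K M L i n : ℕ} [NeZero M] (P : Par) (G : Base V b K)
    (e : EG P V b K M i n) (hi : i < L + 1) (z z' : V × Fin (L + 1) → Fin M)
    (h : ∀ x ∈ DG P G L e, z x = z' x) (hz : badG P G e z) : badG P G e z' := by
  obtain ⟨h1, h2, h3, p, hp⟩ := hz
  have hctr : ∀ l, W G.r ((2 * P.rho i + 1) * l) e.1 (zG P G e l) := fun l =>
    (T03 G e.2.2.1 e.1).2.2.2 l
  have hle : ∀ l : Fin (P.Nn i), (2 * P.rho i + 1) * l.val + P.rho i ≤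
      P.Nn i * (2 * P.rho i + 1) + P.rho i := by
    intro l
    have h4 : (2 * P.rho i + 1) * l.val ≤ (2 * P.rho i + 1) * P.Nn i :=
      Nat.mul_le_mul_left _ (le_of_lt l.isLt)
    rw [mul_comm (P.Nn i)]
    omega
  have hball : ∀ (l : Fin (P.Nn i)) (v : V), W G.r (P.rho i) (zG P G e l.val) v →
      ∀ k, cz z v k = cz z' v k := by
    intro l v hv k
    refine T28_cz z z' v k fun hk => h _ ?_
    simp only [DG, Finset.mem_filter, Finset.mem_univ, true_and]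
    exact W_mono G.refl (hle l) (W_add (hctr l.val) hv)
  refine ⟨h1, h2, h3, p, fun q => ?_⟩
  have h5 := hp q
  have h6 : cz z (eG P G e q) i = cz z' (eG P G e q) i :=
    hball q.1 _ (T05 P G i (e.2.2.2.2 q.1) (zG P G e q.1.val) q.2) i
  have h7 : pa P G (cz z) (sD e.2.1) Set.univ i (e.2.2.2.2 q.1) (p q.1) (zG P G e q.1.val)
      (e.2.2.2.1 q.1) q.2 = pa P G (cz z') (sD e.2.1) Set.univ i (e.2.2.2.2 q.1) (p q.1)
      (zG P G e q.1.val) (e.2.2.2.1 q.1) q.2 :=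
    T07 P G (cz z) (cz z') (sD e.2.1).r (sD e.2.1).col (sD e.2.1).c (sD e.2.1).c
      Set.univ i (e.2.2.2.2 q.1) (p q.1) (zG P G e q.1.val) (e.2.2.2.1 q.1) q.2
      (fun v hv k _ => hball q.1 v hv k) (fun _ _ _ _ => rfl)
  rw [← h6, ← h7]
  exact h5

end Pool.Agent.LSN
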