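import Pool.Agent.LSN.Basic
import Pool.Agent.LSN.J07
/-!
# LSN: target T29 (first kind: weight)
-/

set_option autoImplicit false

namespace Pool.Agent.LSN

open Finset

lemma T29_cz {V : Type} {M L : ℕ} [NeZero M] (z : V × Fin (L + 1) → Fin M) (v : V) (k : ℕ)
    (hk : k < L + 1) : cz z v k = z (v, ⟨k, hk⟩) := by
  unfold cz
  rw [dif_pos hk]

/-- T29. First kind: weight. -/
theorem T29 {V : Type} [Fintype V] {b K M L i n : ℕ} [NeZero M] (P : Par) (G : Base V b K)
    (e : EG P V b K M i n) (hi : i < L + 1) (z0 : V × Fin (L + 1) → Fin M) :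
    {z : V × Fin (L + 1) → Fin M | badG P G e z ∧ ∀ x, x ∉ UG P G hi e → z x = z0 x}.ncard ≤
      Fintype.card (Pt P b i) ^ P.Nn i := by
  classical
  have hex : ∀ z : {z : V × Fin (L + 1) → Fin M |
      badG P G e z ∧ ∀ x, x ∉ UG P G hi e → z x = z0 x},
      ∃ p : Fin (P.Nn i) → Pt P b i, ∀ q : Fin (P.Nn i) × Ix P i,
      cz z.1 (eG P G e q) i = (sD e.2.1).c (pa P G (cz z.1) (sD e.2.1) Set.univ i (e.2.2.2.2 q.1)
        (p q.1) (zG P G e q.1.val) (e.2.2.2.1 q.1) q.2) i := fun z => z.2.1.2.2.2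
  choose p hp using hex
  have hinj : Function.Injective p := by
    intro z z' hzz
    apply Subtype.ext
    have hout : ∀ x, x ∉ UG P G hi e → z.1 x = z'.1 x := fun x hx =>
      (z.2.2 x hx).trans (z'.2.2 x hx).symm
    have hlow : ∀ v, ∀ k < i, cz z.1 v k = cz z'.1 v k := by
      intro v k hk
      have hk' : k < L + 1 := lt_trans hk hi
      rw [T29_cz z.1 v k hk', T29_cz z'.1 v k hk']
      apply hout
      intro hmem
      unfold UG at hmem
      rw [Finset.mem_image] at hmem
      obtain ⟨q, _, hq⟩ := hmem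
      have h2 := (Prod.ext_iff.1 hq).2
      have h3 : i = k := by
        have := congrArg Fin.val h2
        exact this
      omega
    funext x
    by_cases hx : x ∈ UG P G hi e
    · unfold UG at hx
      rw [Finset.mem_image] at hx
      obtain ⟨q, _, rfl⟩ := hx
      have h1 := hp z q
      have h2 := hp z' q
      rw [T29_cz z.1 _ i hi] at h1
      rw [T29_cz z'.1 _ i hi] at h2
      have h3 : pa P G (cz z.1) (sD e.2.1) Set.univ i (e.2.2.2.2 q.1)
          (p z q.1) (zG P G e q.1.val) (e.2.2.2.1 q.1) q.2 =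
          pa P G (cz z'.1) (sD e.2.1) Set.univ i (e.2.2.2.2 q.1)
          (p z' q.1) (zG P G e q.1.val) (e.2.2.2.1 q.1) q.2 := by
        rw [hzz]
        exact T07 P G (cz z.1) (cz z'.1) _ _ _ _ Set.univ i (e.2.2.2.2 q.1)
          (p z' q.1) (zG P G e q.1.val) (e.2.2.2.1 q.1) q.2
          (fun v _ k hk => hlow v k hk) (fun _ _ _ _ => rfl)
      exact h1.trans ((congrArg (fun w => (sD e.2.1).c w i) h3).trans h2.symm)
    · exact hout x hx
  rw [← Nat.card_coe_set_eq]
  refine (Nat.card_le_card_of_injective p hinj).trans (le_of_eq ?_)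
  rw [Nat.card_eq_fintype_card, Fintype.card_fun, Fintype.card_fin]

end Pool.Agent.LSN
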