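import Pool.Agent.LSN.Basic
import Pool.Agent.LSN.J01
/-!
# LSN: target T30 (first kind: number of events at a variable)
-/

set_option autoImplicit false

namespace Pool.Agent.LSN

/-- T30. First kind: number of events containing a variable: the root is in a ball around the
vertex (T01, `W_symm`), the other data are free. -/
theorem T30 {V : Type} [Fintype V] {b K M L i n : ℕ} [NeZero M] (P : Par) (G : Base V b K)
    (x : V × Fin (L + 1)) :
    {e : EG P V b K M i n | x ∈ DG P G L e ∧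
      ∃ z : V × Fin (L + 1) → Fin M, badG P G e z}.ncard ≤
      b ^ (P.Nn i * (2 * P.rho i + 1) + P.rho i) *
        ((2 ^ n) ^ n * (K ^ n * (M ^ (i + 1)) ^ n)) *
        ((P.Nn i * b ^ (2 * P.rho i + 1)) ^ P.Nn i * (n ^ P.Nn i *
          Fintype.card (Sk P b i) ^ P.Nn i)) := by
  classical
  let Q : Type := Dat K M i n × (Fin (P.Nn i) → Fin (P.Nn i) × (Fin (2 * P.rho i + 1) → Fin b)) ×
    (Fin (P.Nn i) → Fin n) × (Fin (P.Nn i) → Sk P b i)
  let S : Set V := {u | W G.r (P.Nn i * (2 * P.rho i + 1) + P.rho i) x.1 u}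
  have hS : S.ncard ≤ b ^ (P.Nn i * (2 * P.rho i + 1) + P.rho i) :=
    (T01 G (P.Nn i * (2 * P.rho i + 1) + P.rho i) x.1).2
  let E : Set (V × Q) := {e : EG P V b K M i n | x ∈ DG P G L e ∧
      ∃ z : V × Fin (L + 1) → Fin M, badG P G e z}
  have hsub : E ⊆ S ×ˢ (Set.univ : Set Q) := by
    rintro e ⟨h1, -⟩
    refine ⟨?_, Set.mem_univ _⟩
    unfold DG at h1
    rw [Finset.mem_filter] at h1
    exact W_symm G.symm h1.2
  have hQ : (Set.univ : Set Q).ncard =
      ((2 ^ n) ^ n * (K ^ n * (M ^ (i + 1)) ^ n)) *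
        ((P.Nn i * b ^ (2 * P.rho i + 1)) ^ P.Nn i * (n ^ P.Nn i *
          Fintype.card (Sk P b i) ^ P.Nn i)) := by
    rw [Set.ncard_univ, Nat.card_eq_fintype_card]
    simp only [Q, Dat, Fintype.card_prod, Fintype.card_fun, Fintype.card_fin, Fintype.card_bool]
  calc E.ncard ≤ (S ×ˢ (Set.univ : Set Q)).ncard := Set.ncard_le_ncard hsub (Set.toFinite _)
    _ = S.ncard * (Set.univ : Set Q).ncard := Set.ncard_prod
    _ ≤ _ := by
      rw [hQ]
      refine (Nat.mul_le_mul_right _ hS).trans_eq ?_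
      exact (Nat.mul_assoc _ _ _).symm

end Pool.Agent.LSN
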