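import Pool.Agent.LSN.Basic
import Pool.Agent.LSN.J03
import Pool.Agent.LSN.J05
import Pool.Agent.LSN.J07
import Pool.Agent.LSN.J26
/-!
# LSN: targets T31, T32 (second kind: support, number, locality)
-/

set_option autoImplicit false

namespace Pool.Agent.LSN

open Finset

lemma T31_bound {rho m rad l : ℕ} (hrad : (2 * rho + 1) * m ≤ rad + 1) (hl : l < m) :
    (2 * rho + 1) * l + 2 * rho ≤ rad := by
  have h1 : (2 * rho + 1) * (l + 1) ≤ (2 * rho + 1) * m := Nat.mul_le_mul_left _ hl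
  have h2 : (2 * rho + 1) * (l + 1) = (2 * rho + 1) * l + (2 * rho + 1) := by ring
  omega

lemma T31_near {V : Type} {b K i m : ℕ} (P : Par) (G : Base V b K) (rad : ℕ)
    (hrad : (2 * P.rho i + 1) * m ≤ rad + 1) (e : EC P V b i m) (q : Fin m × Ix P i) :
    W G.r rad e.1 (eC P G e q) := by
  have h1 := (T03 G e.2.2.1 e.1).2.2.2 q.1.val
  have h2 := T05 P G i (e.2.2.2 q.1) (ctr G.nb e.2.2.1 e.1 q.1.val) q.2
  have h3 := W_add h1 h2
  have h4 := T31_bound hrad q.1.isLt
  exact W_mono G.refl (by omega) h3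

open Classical in
lemma T31_D2 {V : Type} [Fintype V] {b K : ℕ} (G : Base V b K) (L rad : ℕ) (x y : V)
    (u : V × Fin (L + 1)) : u ∈ D2 G L rad x y ↔ W G.r rad x u.1 ∨ W G.r rad y u.1 := by
  unfold D2
  simp only [Finset.mem_filter, Finset.mem_univ, true_and]

open Classical in
/-- T31. Second kind: support and number. -/
theorem T31 {V : Type} [Fintype V] {b K M L i m : ℕ} [NeZero M] (P : Par) (G : Base V b K)
    (R rad : ℕ) (hrad : (2 * P.rho i + 1) * m ≤ rad + 1) (e : EC P V b i m) :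
    UC P G L e ⊆ D2 G L rad e.1 e.2.1 ∧
    ∀ z : V × Fin (L + 1) → Fin M, badC P G R rad e z → (UC P G L e).card = m * P.g i := by
  constructor
  · intro x hx
    unfold UC at hx
    rw [Finset.mem_image] at hx
    obtain ⟨q, _, rfl⟩ := hx
    rw [T31_D2]
    exact Or.inl (T31_near P G rad hrad e q)
  · intro z hz
    have hinj : Function.Injective
        (fun q : Fin m × Ix P i => (eC P G e q, Fin.last L)) := by
      intro q q' hq
      exact hz.2.1 (Prod.ext_iff.1 hq).1
    unfold UC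
    rw [Finset.card_image_of_injective _ hinj, Finset.card_univ, Fintype.card_prod,
      Fintype.card_fin, (T26 P b).1 i]

lemma T32_cz {V : Type} [Fintype V] {b K M L : ℕ} [NeZero M] (G : Base V b K) (rad : ℕ)
    (x y : V) (z z' : V × Fin (L + 1) → Fin M) (h : ∀ u ∈ D2 G L rad x y, z u = z' u)
    (v : V) (hv : W G.r rad x v ∨ W G.r rad y v) (k : ℕ) : cz z v k = cz z' v k := by
  unfold cz
  by_cases hk : k < L + 1
  · simp only [hk, dif_pos]
    apply h
    rw [T31_D2]
    exact hv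
  · simp only [hk, dif_neg, not_false_iff]

lemma T32_pC {V : Type} [Fintype V] {b K M L i m : ℕ} [NeZero M] (P : Par) (G : Base V b K)
    (rad : ℕ) (hrad : (2 * P.rho i + 1) * m ≤ rad + 1) (e : EC P V b i m)
    (z z' : V × Fin (L + 1) → Fin M) (h : ∀ x ∈ D2 G L rad e.1 e.2.1, z x = z' x)
    (p : Fin m → Fin (P.Xi b i) × Pt P b i) (q : Fin m × Ix P i) :
    pC P G (cz z) rad e p q = pC P G (cz z') rad e p q := by
  have hcz := T32_cz G rad e.1 e.2.1 z z' h
  have hAl : Al (G.str (cz z)) (G.str (cz z))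
      (reg G.r (ctr G.nb e.2.2.1 e.1) m (2 * P.rho i)) {v | W G.r rad e.2.1 v} (i + 1) =
      Al (G.str (cz z')) (G.str (cz z'))
      (reg G.r (ctr G.nb e.2.2.1 e.1) m (2 * P.rho i)) {v | W G.r rad e.2.1 v} (i + 1) := by
    funext u v
    apply propext
    unfold Al
    refine and_congr_right fun hu => and_congr_right fun hv => ?_
    have hu' : W G.r rad e.1 u := by
      obtain ⟨l, hl, hlu⟩ := hu
      have h1 := (T03 G e.2.2.1 e.1).2.2.2 l
      exact W_mono G.refl (T31_bound hrad hl) (W_add h1 hlu)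
    have hv' : W G.r rad e.2.1 v := hv
    unfold Mt Base.str
    refine and_congr_right fun _ => ?_
    refine forall_congr' fun k => forall_congr' fun _ => ?_
    simp only
    rw [hcz u (Or.inl hu') k, hcz v (Or.inr hv') k]
  have hPrt : ∀ u : V, Prt (G.str (cz z)) (G.str (cz z))
      (reg G.r (ctr G.nb e.2.2.1 e.1) m (2 * P.rho i)) {v | W G.r rad e.2.1 v} (i + 1) e.1 e.2.1
        u = Prt (G.str (cz z')) (G.str (cz z'))
      (reg G.r (ctr G.nb e.2.2.1 e.1) m (2 * P.rho i)) {v | W G.r rad e.2.1 v} (i + 1) e.1 e.2.1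
        u := by
    intro u
    unfold Prt
    rw [hAl]
    rfl
  unfold pC
  rw [hPrt]
  refine T07 P G (cz z) (cz z') G.r G.col (cz z) (cz z') {v | W G.r rad e.2.1 v} i
    (e.2.2.2 q.1) (p q.1).2 (ctr G.nb e.2.2.1 e.1 q.1.val) _ q.2 ?_ ?_
  · intro v hv k _
    have h1 := (T03 G e.2.2.1 e.1).2.2.2 q.1.val
    have h4 := T31_bound hrad q.1.isLt
    exact hcz v (Or.inl (W_mono G.refl (by omega) (W_add h1 hv))) k
  · intro w hw k _
    exact hcz w (Or.inr hw) k

/-- T32. Second kind: locality. -/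
theorem T32 {V : Type} [Fintype V] {b K M L i m : ℕ} [NeZero M] (P : Par) (G : Base V b K)
    (R rad : ℕ) (hrad : (2 * P.rho i + 1) * m ≤ rad + 1) (e : EC P V b i m) (hi : i < L)
    (z z' : V × Fin (L + 1) → Fin M) (h : ∀ x ∈ D2 G L rad e.1 e.2.1, z x = z' x)
    (hz : badC P G R rad e z) : badC P G R rad e z' := by
  obtain ⟨h1, h2, p, hp⟩ := hz
  refine ⟨h1, h2, p, fun q => ?_⟩
  obtain ⟨h3, h4⟩ := hp q
  have hpC := T32_pC P G rad hrad e z z' h p q
  have hcz := T32_cz G rad e.1 e.2.1 z z' h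
  rw [← hpC]
  refine ⟨h3, ?_⟩
  rw [← hcz _ (Or.inl (T31_near P G rad hrad e q)) L, ← hcz _ (Or.inr h3) L]
  exact h4

end Pool.Agent.LSN
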