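import Pool.Agent.LSN.Basic
import Pool.Agent.LSN.J03
import Pool.Agent.LSN.J05
import Pool.Agent.LSN.J07
/-!
# LSN, target T33 (weight of the events of the second kind)
-/

set_option autoImplicit false

namespace Pool.Agent.LSN

open Finset

/-- erased vertices of an event of the second kind lie in the ball around the first root -/
lemma T33_near {V : Type} {b K i m : ℕ} (P : Par) (G : Base V b K)
    (rad : ℕ) (hrad : (2 * P.rho i + 1) * m ≤ rad + 1) (e : EC P V b i m)
    (q : Fin m × Ix P i) : W G.r rad e.1 (eC P G e q) := by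
  have h1 := (T03 G e.2.2.1 e.1).2.2.2 q.1.val
  have h2 := T05 P G i (e.2.2.2 q.1) (ctr G.nb e.2.2.1 e.1 q.1.val) q.2
  have h3 := W_add h1 h2
  refine W_mono G.refl ?_ h3
  have h4 : (2 * P.rho i + 1) * (q.1.val + 1) ≤ (2 * P.rho i + 1) * m :=
    Nat.mul_le_mul_left _ q.1.isLt
  have h5 : (2 * P.rho i + 1) * (q.1.val + 1) =
      (2 * P.rho i + 1) * q.1.val + (2 * P.rho i + 1) := by ring
  omega

/-- partners sets depend only on the coordinates below the order -/
lemma T33_Prt {V : Type} {b K M : ℕ} (G : Base V b K) (c c' : V → ℕ → Fin M) (o : ℕ)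
    (hc : ∀ v, ∀ k < o, c v k = c' v k) (R : Set V) (Bs : Set V) (x y u : V) :
    Prt (G.str c) (G.str c) R Bs o x y u = Prt (G.str c') (G.str c') R Bs o x y u := by
  have hMt : ∀ a a' : V, Mt (G.str c) (G.str c) o a a' ↔ Mt (G.str c') (G.str c') o a a' := by
    intro a a'
    constructor
    · rintro ⟨h1, h2⟩
      refine ⟨h1, fun k hk => ?_⟩
      have h3 := h2 k hk
      change c a k = c a' k at h3
      change c' a k = c' a' k
      rw [← hc a k hk, ← hc a' k hk, h3]
    · rintro ⟨h1, h2⟩
      refine ⟨h1, fun k hk => ?_⟩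
      have h3 := h2 k hk
      change c' a k = c' a' k at h3
      change c a k = c a' k
      rw [hc a k hk, hc a' k hk, h3]
  have hAl : Al (G.str c) (G.str c) R Bs o = Al (G.str c') (G.str c') R Bs o := by
    funext a a'
    apply propext
    unfold Al
    rw [hMt a a']
  unfold Prt
  rw [hAl]
  rfl

/-- the partners depend only on the coordinates at most `i` -/
lemma T33_pC {V : Type} [Finite V] {b K M i m : ℕ} (P : Par) (G : Base V b K)
    (c c' : V → ℕ → Fin M) (hc : ∀ v, ∀ k < i + 1, c v k = c' v k) (rad : ℕ)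
    (e : EC P V b i m) (p : Fin m → Fin (P.Xi b i) × Pt P b i) (q : Fin m × Ix P i) :
    pC P G c rad e p q = pC P G c' rad e p q := by
  unfold pC
  rw [T33_Prt G c c' (i + 1) hc]
  exact T07 P G c c' G.r G.col c c' _ i _ _ _ _ _
    (fun v _ k hk => hc v k (by omega)) (fun v _ k hk => hc v k (by omega))

theorem T33 {V : Type} [Fintype V] {b K M L i m : ℕ} [NeZero M] (P : Par) (G : Base V b K)
    (R rad : ℕ) (hrad : (2 * P.rho i + 1) * m ≤ rad + 1) (e : EC P V b i m) (hi : i < L)
    (z0 : V × Fin (L + 1) → Fin M) :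
    {z : V × Fin (L + 1) → Fin M | badC P G R rad e z ∧
      ∀ x, x ∉ UC P G L e → z x = z0 x}.ncard ≤
      (P.Xi b i * Fintype.card (Pt P b i)) ^ m := by
  classical
  set F : (Fin m → Fin (P.Xi b i) × Pt P b i) → (V × Fin (L + 1) → Fin M) := fun p x =>
    if h : ∃ q, (eC P G e q, Fin.last L) = x then
      z0 (pC P G (cz z0) rad e p h.choose, Fin.last L) else z0 x with hF
  have hsub : {z : V × Fin (L + 1) → Fin M | badC P G R rad e z ∧
      ∀ x, x ∉ UC P G L e → z x = z0 x} ⊆ Set.range F := by
    rintro z ⟨⟨hRt, -, p, hp⟩, hz⟩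
    have hmem : ∀ x, x ∈ UC P G L e ↔ ∃ q, (eC P G e q, Fin.last L) = x := by
      intro x
      unfold UC
      simp only [Finset.mem_image, Finset.mem_univ, true_and]
    have hcz : ∀ v, ∀ k < i + 1, cz z v k = cz z0 v k := by
      intro v k hk
      unfold cz
      rw [dif_pos (show k < L + 1 by omega), dif_pos (show k < L + 1 by omega)]
      apply hz
      intro hx
      obtain ⟨q, hq⟩ := (hmem _).1 hx
      have h1 := congrArg (fun a : V × Fin (L + 1) => a.2.val) hq
      simp only [Fin.val_last] at h1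
      omega
    have hpC : ∀ q, pC P G (cz z) rad e p q = pC P G (cz z0) rad e p q := fun q =>
      T33_pC P G (cz z) (cz z0) hcz rad e p q
    have hval : ∀ q, z (eC P G e q, Fin.last L) =
        z0 (pC P G (cz z0) rad e p q, Fin.last L) := by
      intro q
      obtain ⟨h1, h2⟩ := hp q
      rw [hpC q] at h1 h2
      unfold cz at h2
      rw [dif_pos (Nat.lt_succ_self L), dif_pos (Nat.lt_succ_self L)] at h2
      have h3 : z (eC P G e q, Fin.last L) =
          z (pC P G (cz z0) rad e p q, Fin.last L) := h2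
      rw [h3]
      apply hz
      intro hx
      obtain ⟨q', hq'⟩ := (hmem _).1 hx
      have h4 : eC P G e q' = pC P G (cz z0) rad e p q := congrArg Prod.fst hq'
      have h5 := T33_near P G rad hrad e q'
      rw [h4] at h5
      have h6 := W_add h5 (W_symm G.symm h1)
      apply hRt.1
      rw [show 2 * rad = rad + rad by ring]
      exact h6
    refine ⟨p, ?_⟩
    funext x
    rw [hF]
    dsimp only
    by_cases h : ∃ q, (eC P G e q, Fin.last L) = x
    · rw [dif_pos h]
      rw [← hval h.choose, h.choose_spec]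
    · rw [dif_neg h]
      exact (hz x (fun hx => h ((hmem x).1 hx))).symm
  have h1 := Set.ncard_le_ncard hsub (Set.toFinite _)
  have h2 : (Set.range F).ncard ≤ Fintype.card (Fin m → Fin (P.Xi b i) × Pt P b i) := by
    rw [← Set.image_univ]
    refine (Set.ncard_image_le (Set.toFinite _)).trans ?_
    rw [Set.ncard_univ, Nat.card_eq_fintype_card]
  refine h1.trans (h2.trans ?_)
  rw [Fintype.card_fun, Fintype.card_prod, Fintype.card_fin, Fintype.card_fin]

end Pool.Agent.LSN
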