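import Pool.Agent.LSN.Basic
import Pool.Agent.LSN.J01
/-!
# LSN: targets T34, T35 (number of root pairs; second kind: number of events)
-/

set_option autoImplicit false

namespace Pool.Agent.LSN

open Finset

/-- counting pairs by their first coordinates -/
lemma T34_cnt {V : Type} [Fintype V] (A : Set V) (F : V → Set V) (a c : ℕ) (hA : A.ncard ≤ a)
    (hF : ∀ x, (F x).ncard ≤ c) : {p : V × V | p.1 ∈ A ∧ p.2 ∈ F p.1}.ncard ≤ a * c := by
  classical
  rw [Set.ncard_eq_toFinset_card']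
  have h := Finset.card_le_mul_card_image (f := Prod.fst)
    ({p : V × V | p.1 ∈ A ∧ p.2 ∈ F p.1}.toFinset) c (by
      intro x _
      refine le_trans ?_ (hF x)
      rw [Set.ncard_eq_toFinset_card']
      refine Finset.card_le_card_of_injOn Prod.snd ?_ ?_
      · intro p hp
        have hp' : p ∈ {p ∈ {p : V × V | p.1 ∈ A ∧ p.2 ∈ F p.1}.toFinset | p.1 = x} := hp
        rw [Finset.mem_filter, Set.mem_toFinset] at hp'
        have h1 := hp'.1.2
        rw [hp'.2] at h1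
        simpa using h1
      · intro p hp q hq hpq
        have hp' : p ∈ {p ∈ {p : V × V | p.1 ∈ A ∧ p.2 ∈ F p.1}.toFinset | p.1 = x} := hp
        have hq' : q ∈ {p ∈ {p : V × V | p.1 ∈ A ∧ p.2 ∈ F p.1}.toFinset | p.1 = x} := hq
        rw [Finset.mem_filter] at hp' hq'
        exact Prod.ext (hp'.2.trans hq'.2.symm) hpq)
  refine h.trans ?_
  rw [Nat.mul_comm]
  refine Nat.mul_le_mul_right _ (le_trans ?_ hA)
  rw [Set.ncard_eq_toFinset_card']
  refine Finset.card_le_card ?_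
  intro y hy
  rw [Finset.mem_image] at hy
  obtain ⟨p, hp, rfl⟩ := hy
  rw [Set.mem_toFinset] at hp ⊢
  exact hp.1

/-- T34. Number of root pairs. -/
theorem T34 {V : Type} [Fintype V] {b K : ℕ} (G : Base V b K) (hb : 2 ≤ b) (R rad : ℕ)
    (hR : rad ≤ R) (hV : Fintype.card V ≤ 2 ^ R) (v : V) :
    {p : V × V | (W G.r rad p.1 v ∨ W G.r rad p.2 v) ∧ Rt G R rad p.1 p.2}.ncard ≤
      2 * (b ^ rad * b ^ (2 * rad + 2)) := by
  classical
  let A : Set V := {u | W G.r rad v u}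
  let F : V → Set V := fun x => {y | rad < R → W G.r (2 * rad + 2) x y}
  have hA : A.ncard ≤ b ^ rad := (T01 G rad v).2
  have hF : ∀ x, (F x).ncard ≤ b ^ (2 * rad + 2) := by
    intro x
    by_cases h : rad < R
    · have hx : F x = {y | W G.r (2 * rad + 2) x y} := by
        ext y
        exact ⟨fun hy => hy h, fun hy _ => hy⟩
      rw [hx]
      exact (T01 G (2 * rad + 2) x).2
    · have h1 : rad = R := by omega
      have h2 : (F x).ncard ≤ Fintype.card V := by
        rw [← Nat.card_eq_fintype_card, ← Set.ncard_univ]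
        exact Set.ncard_le_ncard (Set.subset_univ _) (Set.toFinite _)
      calc (F x).ncard ≤ Fintype.card V := h2
        _ ≤ 2 ^ R := hV
        _ ≤ b ^ R := Nat.pow_le_pow_left hb _
        _ ≤ b ^ (2 * rad + 2) := Nat.pow_le_pow_right (by omega) (by omega)
  let S1 : Set (V × V) := {p | p.1 ∈ A ∧ p.2 ∈ F p.1}
  have h1 : S1.ncard ≤ b ^ rad * b ^ (2 * rad + 2) := T34_cnt A F _ _ hA hF
  have h2 : (Prod.swap '' S1).ncard ≤ b ^ rad * b ^ (2 * rad + 2) :=
    (Set.ncard_image_le (Set.toFinite _)).trans h1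
  have hsub : {p : V × V | (W G.r rad p.1 v ∨ W G.r rad p.2 v) ∧ Rt G R rad p.1 p.2} ⊆
      S1 ∪ Prod.swap '' S1 := by
    rintro ⟨x, y⟩ ⟨h3 | h3, _, h4⟩
    · exact Or.inl ⟨W_symm G.symm h3, h4⟩
    · exact Or.inr ⟨(y, x), ⟨W_symm G.symm h3, fun h5 => W_symm G.symm (h4 h5)⟩, rfl⟩
  calc _ ≤ (S1 ∪ Prod.swap '' S1).ncard := Set.ncard_le_ncard hsub (Set.toFinite _)
    _ ≤ S1.ncard + (Prod.swap '' S1).ncard := Set.ncard_union_le _ _
    _ ≤ _ := by omega

/-- T35. Second kind: number of events containing a variable. -/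
theorem T35 {V : Type} [Fintype V] {b K M L i m : ℕ} [NeZero M] (P : Par) (G : Base V b K)
    (hb : 2 ≤ b) (R rad : ℕ) (hR : rad ≤ R) (hV : Fintype.card V ≤ 2 ^ R)
    (x : V × Fin (L + 1)) :
    {e : EC P V b i m | x ∈ D2 G L rad e.1 e.2.1 ∧
      ∃ z : V × Fin (L + 1) → Fin M, badC P G R rad e z}.ncard ≤
      2 * (b ^ rad * b ^ (2 * rad + 2)) *
        ((m * b ^ (2 * P.rho i + 1)) ^ m * Fintype.card (Sk P b i) ^ m) := by
  classical
  let Q : Type := (Fin m → Fin m × (Fin (2 * P.rho i + 1) → Fin b)) × (Fin m → Sk P b i)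
  let E : Set (EC P V b i m) := {e | x ∈ D2 G L rad e.1 e.2.1 ∧
      ∃ z : V × Fin (L + 1) → Fin M, badC P G R rad e z}
  let S : Set (V × V) :=
    {p | (W G.r rad p.1 x.1 ∨ W G.r rad p.2 x.1) ∧ Rt G R rad p.1 p.2}
  have h34 : S.ncard ≤ 2 * (b ^ rad * b ^ (2 * rad + 2)) := T34 G hb R rad hR hV x.1
  let φ : EC P V b i m → (V × V) × Q := fun e => ((e.1, e.2.1), e.2.2)
  have hinj : Function.Injective φ := by
    rintro ⟨a, c, q⟩ ⟨a', c', q'⟩ h
    have h1 : ((a, c), q) = ((a', c'), q') := h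
    simp only [Prod.mk.injEq] at h1
    obtain ⟨⟨rfl, rfl⟩, rfl⟩ := h1
    rfl
  have hsub : φ '' E ⊆ S ×ˢ (Set.univ : Set Q) := by
    rintro _ ⟨e, ⟨h1, z, h2⟩, rfl⟩
    refine ⟨⟨?_, h2.1⟩, Set.mem_univ _⟩
    unfold D2 at h1
    rw [Finset.mem_filter] at h1
    exact h1.2
  have hQ : (Set.univ : Set Q).ncard =
      (m * b ^ (2 * P.rho i + 1)) ^ m * Fintype.card (Sk P b i) ^ m := by
    rw [Set.ncard_univ, Nat.card_eq_fintype_card, Fintype.card_prod, Fintype.card_fun,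
      Fintype.card_fun, Fintype.card_prod, Fintype.card_fun, Fintype.card_fin, Fintype.card_fin,
      Fintype.card_fin]
  calc E.ncard = (φ '' E).ncard := (Set.ncard_image_of_injective _ hinj).symm
    _ ≤ (S ×ˢ (Set.univ : Set Q)).ncard := Set.ncard_le_ncard hsub (Set.toFinite _)
    _ = S.ncard * (Set.univ : Set Q).ncard := Set.ncard_prod
    _ ≤ _ := by
      rw [hQ]
      exact Nat.mul_le_mul_right _ h34

end Pool.Agent.LSN
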