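import Pool.Agent.LSN.Basic
import Pool.Agent.LSN.J34
set_option autoImplicit false

namespace Pool.Agent.LSN

open Finset

lemma T36_cz {V : Type} {M L : ℕ} [NeZero M] (z : V × Fin (L + 1) → Fin M) (v : V) :
    cz z v L = z (v, Fin.last L) := by
  unfold cz
  rw [dif_pos (Nat.lt_succ_self L)]
  rfl

lemma T36_mem {V : Type} {b K v : ℕ} (G : Base V b K) (L : ℕ) (e : E0 V b v)
    (x : V × Fin (L + 1)) : x ∈ U0 G L e ↔ ∃ j, j ≤ v ∧ (e0 G e j, Fin.last L) = x := by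
  unfold U0
  simp only [mem_image, mem_range, Nat.lt_succ_iff]

lemma T36_W {V : Type} {b K v : ℕ} (G : Base V b K) (e : E0 V b v) (rad : ℕ) (hv : v ≤ rad)
    (j : ℕ) (hj : j ≤ v) : W G.r rad e.1 (e0 G e j) :=
  W_mono G.refl (le_trans hj hv) (pp_W G e.2.2 e.1 j)

lemma T36_D2 {V : Type} [Fintype V] {b K : ℕ} (G : Base V b K) (L rad : ℕ) (x y : V)
    (u : V × Fin (L + 1)) : u ∈ D2 G L rad x y ↔ (W G.r rad x u.1 ∨ W G.r rad y u.1) := by
  unfold D2
  simp only [mem_filter, mem_univ, true_and]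

theorem T36 {V : Type} [Fintype V] {b K M L v : ℕ} [NeZero M] (G : Base V b K)
    (hb : 2 ≤ b) (R rad : ℕ) (hv : v ≤ rad) (hR : rad ≤ R) (hV : Fintype.card V ≤ 2 ^ R) :
    (∀ e : E0 V b v, U0 G L e ⊆ D2 G L rad e.1 e.2.1) ∧
    (∀ (e : E0 V b v) (z : V × Fin (L + 1) → Fin M), bad0 G R rad e z →
      (U0 G L e).card = v + 1) ∧
    (∀ (e : E0 V b v) (z z' : V × Fin (L + 1) → Fin M),
      (∀ x ∈ D2 G L rad e.1 e.2.1, z x = z' x) → bad0 G R rad e z → bad0 G R rad e z') ∧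
    (∀ (e : E0 V b v) (z0 : V × Fin (L + 1) → Fin M),
      {z : V × Fin (L + 1) → Fin M | bad0 G R rad e z ∧
        ∀ x, x ∉ U0 G L e → z x = z0 x}.ncard ≤ 1) ∧
    ∀ x : V × Fin (L + 1), {e : E0 V b v | x ∈ D2 G L rad e.1 e.2.1 ∧
      ∃ z : V × Fin (L + 1) → Fin M, bad0 G R rad e z}.ncard ≤
      2 * (b ^ rad * b ^ (2 * rad + 2)) * b ^ v := by
  refine ⟨?_, ?_, ?_, ?_, ?_⟩
  · intro e x hx
    rw [T36_mem] at hx
    obtain ⟨j, hj, rfl⟩ := hx
    rw [T36_D2]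
    exact Or.inl (T36_W G e rad hv j hj)
  · intro e z hz
    have hinj := hz.2.1
    classical
    unfold U0
    refine (Finset.card_image_of_injOn ?_).trans (card_range _)
    intro i hi j hj hij
    rw [mem_coe, mem_range, Nat.lt_succ_iff] at hi hj
    exact hinj i hi j hj (Prod.ext_iff.1 hij).1
  · intro e z z' h hz
    refine ⟨hz.1, hz.2.1, ?_⟩
    intro j hj
    obtain ⟨h1, h2⟩ := hz.2.2 j hj
    refine ⟨h1, ?_⟩
    rw [T36_cz, T36_cz] at h2 ⊢
    rw [← h _ ((T36_D2 G L rad e.1 e.2.1 _).2 (Or.inl (T36_W G e rad hv j hj))),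
      ← h _ ((T36_D2 G L rad e.1 e.2.1 _).2 (Or.inr h1))]
    exact h2
  · intro e z0
    rw [Set.ncard_le_one_iff]
    intro z z' hz hz'
    have key : ∀ w : V × Fin (L + 1) → Fin M, bad0 G R rad e w →
        (∀ x, x ∉ U0 G L e → w x = z0 x) → ∀ j ≤ v,
        w (e0 G e j, Fin.last L) = z0 (p0 G e j, Fin.last L) := by
      intro w hw hw' j hj
      obtain ⟨h1, h2⟩ := hw.2.2 j hj
      rw [T36_cz, T36_cz] at h2
      rw [h2]
      apply hw'
      intro hmem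
      rw [T36_mem] at hmem
      obtain ⟨i, hi, he⟩ := hmem
      have he1 : e0 G e i = p0 G e j := (Prod.ext_iff.1 he).1
      have h3 := T36_W G e rad hv i hi
      rw [he1] at h3
      have h4 := W_add h3 (W_symm G.symm h1)
      rw [← two_mul] at h4
      exact hw.1.1 h4
    funext x
    by_cases hx : x ∈ U0 G L e
    · rw [T36_mem] at hx
      obtain ⟨j, hj, rfl⟩ := hx
      rw [key z hz.1 hz.2 j hj, key z' hz'.1 hz'.2 j hj]
    · rw [hz.2 x hx, hz'.2 x hx]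
  · intro x
    have h34 := T34 G hb R rad hR hV x.1
    set S : Set (V × V) :=
      {p : V × V | (W G.r rad p.1 x.1 ∨ W G.r rad p.2 x.1) ∧ Rt G R rad p.1 p.2} with hS
    set T : Set (E0 V b v) := {e : E0 V b v | x ∈ D2 G L rad e.1 e.2.1 ∧
      ∃ z : V × Fin (L + 1) → Fin M, bad0 G R rad e z} with hT
    let φ : E0 V b v → (V × V) × (Fin v → Fin b) := fun e => ((e.1, e.2.1), e.2.2)
    have hφ : Function.Injective φ := by
      intro e e' h
      have h1 : (e.1, e.2.1) = (e'.1, e'.2.1) := (Prod.ext_iff.1 h).1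
      have h2 : e.2.2 = e'.2.2 := (Prod.ext_iff.1 h).2
      have h3 := (Prod.ext_iff.1 h1).1
      have h4 := (Prod.ext_iff.1 h1).2
      exact Prod.ext h3 (Prod.ext h4 h2)
    have hsub : φ '' T ⊆ S ×ˢ (Set.univ : Set (Fin v → Fin b)) := by
      rintro _ ⟨e, ⟨he1, z, hz⟩, rfl⟩
      refine ⟨⟨?_, hz.1⟩, Set.mem_univ _⟩
      exact (T36_D2 G L rad e.1 e.2.1 x).1 he1
    have hcard : T.ncard ≤ (S ×ˢ (Set.univ : Set (Fin v → Fin b))).ncard := by
      rw [← Set.ncard_image_of_injective T hφ]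
      exact Set.ncard_le_ncard hsub (Set.toFinite _)
    rw [Set.ncard_prod, Set.ncard_univ, Nat.card_eq_fintype_card, Fintype.card_fun,
      Fintype.card_fin, Fintype.card_fin] at hcard
    exact le_trans hcard (Nat.mul_le_mul_right _ h34)

end Pool.Agent.LSN
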