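import Pool.Agent.LSN.Basic
set_option autoImplicit false

namespace Pool.Agent.LSN

theorem T37 (P : Par) (hP : P.Ok) (L rad : ℕ) (hL : 1 ≤ L) (hR : rad ≤ P.m (L - 1))
    (h : 2 * (2 * P.s + 1) ≤ rad + 1) :
    ∃ i < L, ∃ m, 2 ≤ m ∧ m ≤ P.m i ∧ (2 * P.rho i + 1) * m ≤ rad + 1 ∧
      rad + 1 ≤ 5 * m * (2 * P.rho i + 1) := by
  classical
  have h0 : 2 * (2 * P.rho 0 + 1) ≤ rad + 1 := h
  let p : ℕ → Prop := fun i => 2 * (2 * P.rho i + 1) ≤ rad + 1
  let i := Nat.findGreatest p (L - 1)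
  have hi : p i := Nat.findGreatest_spec (P := p) (Nat.zero_le (L - 1)) h0
  have hiL : i ≤ L - 1 := Nat.findGreatest_le (P := p) (L - 1)
  have hmax : ∀ j, i < j → j ≤ L - 1 → ¬ p j := fun j h1 h2 =>
    Nat.findGreatest_is_greatest (P := p) h1 h2
  have hi' : 2 * (2 * P.rho i + 1) ≤ rad + 1 := hi
  clear_value i
  have hpos : 0 < 2 * P.rho i + 1 := Nat.succ_pos _
  have hm2 : 2 ≤ P.m i := (hP i).1
  refine ⟨i, by omega, min ((rad + 1) / (2 * P.rho i + 1)) (P.m i), ?_, min_le_right _ _, ?_, ?_⟩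
  · exact le_min ((Nat.le_div_iff_mul_le hpos).2 hi') hm2
  · calc (2 * P.rho i + 1) * min ((rad + 1) / (2 * P.rho i + 1)) (P.m i)
        ≤ (2 * P.rho i + 1) * ((rad + 1) / (2 * P.rho i + 1)) :=
          Nat.mul_le_mul_left _ (min_le_left _ _)
      _ ≤ rad + 1 := Nat.mul_div_le _ _
  · rcases le_total ((rad + 1) / (2 * P.rho i + 1)) (P.m i) with hc | hc
    · rw [min_eq_left hc]
      have h1 : rad + 1 < (2 * P.rho i + 1) * ((rad + 1) / (2 * P.rho i + 1) + 1) :=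
        Nat.lt_mul_div_succ _ hpos
      have h2 : 2 ≤ (rad + 1) / (2 * P.rho i + 1) := (Nat.le_div_iff_mul_le hpos).2 hi'
      generalize (rad + 1) / (2 * P.rho i + 1) = m at h1 h2
      generalize 2 * P.rho i + 1 = a at h1 hpos
      nlinarith [Nat.mul_le_mul_left a h2]
    · rw [min_eq_right hc]
      rcases Nat.lt_or_ge i (L - 1) with hlt | hge
      · have h1 : ¬ p (i + 1) := hmax (i + 1) (Nat.lt_succ_self i) hlt
        have h2 : rad + 1 < 2 * (2 * P.rho (i + 1) + 1) := not_le.1 h1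
        have h3 : P.rho (i + 1) = P.m i * (2 * P.rho i + 1) := rfl
        rw [h3] at h2
        have h4 : 2 * 1 ≤ P.m i * (2 * P.rho i + 1) := Nat.mul_le_mul hm2 hpos
        nlinarith
      · have hiL' : i = L - 1 := le_antisymm hiL hge
        rw [← hiL'] at hR
        have h4 : P.m i * 1 ≤ P.m i * (2 * P.rho i + 1) := Nat.mul_le_mul_left _ hpos
        nlinarith

end Pool.Agent.LSN
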