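import Pool.Agent.LSN.Basic
import Pool.Agent.LSN.J26
set_option autoImplicit false

namespace Pool.Agent.LSN

section

variable (b L s : ℕ)

lemma T38_m (i : ℕ) : (tP b L s).m i = 2 ^ ((L + 1) * (gr L s i).1) := rfl

lemma T38_rho (i : ℕ) : (tP b L s).rho i = (gr L s i).2 := by
  induction i with
  | zero => rfl
  | succ i ih =>
    show (tP b L s).m i * (2 * (tP b L s).rho i + 1) = _
    rw [ih]
    rfl

lemma T38_g (i : ℕ) : (tP b L s).g i = (gr L s i).1 := by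
  induction i with
  | zero => rfl
  | succ i ih =>
    show (tP b L s).m i * (tP b L s).g i = _
    rw [ih]
    rfl

lemma T38_mg (i : ℕ) : (tP b L s).m i = 2 ^ ((L + 1) * (tP b L s).g i) := by
  rw [T38_g, T38_m]

lemma T38_mpos (i : ℕ) : 1 ≤ (tP b L s).m i := by
  rw [T38_m]
  exact Nat.one_le_two_pow

lemma T38_gpos (i : ℕ) : 1 ≤ (tP b L s).g i := by
  induction i with
  | zero => exact Nat.succ_le_succ (Nat.zero_le _)
  | succ i ih => exact Nat.mul_le_mul (T38_mpos b L s i) ih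

lemma T38_m2 (i : ℕ) : 2 ≤ (tP b L s).m i := by
  rw [T38_mg]
  have h : 1 * 1 ≤ (L + 1) * (tP b L s).g i :=
    Nat.mul_le_mul (Nat.succ_le_succ (Nat.zero_le _)) (T38_gpos b L s i)
  calc 2 = 2 ^ 1 := (pow_one 2).symm
    _ ≤ 2 ^ ((L + 1) * (tP b L s).g i) := Nat.pow_le_pow_right (by norm_num) h

lemma T38_N (i : ℕ) : (tP b L s).Nn i = (tP b L s).xi b i ^ 3 := by
  show _ = ((tP b L s).m i * b ^ (2 * (tP b L s).rho i)) ^ 3
  rw [T38_rho, T38_m]
  rfl

lemma T38_rg (i : ℕ) : (tP b L s).rho i ≤ 3 ^ i * (tP b L s).g i := by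
  induction i with
  | zero =>
    show s ≤ 3 ^ 0 * (s + 1)
    omega
  | succ i ih =>
    show (tP b L s).m i * (2 * (tP b L s).rho i + 1) ≤
      3 ^ (i + 1) * ((tP b L s).m i * (tP b L s).g i)
    have h1 : 1 * 1 ≤ 3 ^ i * (tP b L s).g i :=
      Nat.mul_le_mul (Nat.one_le_pow _ _ (by norm_num)) (T38_gpos b L s i)
    calc (tP b L s).m i * (2 * (tP b L s).rho i + 1)
        ≤ (tP b L s).m i * (2 * (3 ^ i * (tP b L s).g i) + 3 ^ i * (tP b L s).g i) :=
          Nat.mul_le_mul_left _ (by omega)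
      _ = 3 ^ (i + 1) * ((tP b L s).m i * (tP b L s).g i) := by ring

lemma T38_tw (i : ℕ) : tw (i + 1) (s + 1) ≤ (tP b L s).m i := by
  induction i with
  | zero =>
    show 2 ^ (s + 1) ≤ 2 ^ ((L + 1) * (s + 1))
    exact Nat.pow_le_pow_right (by norm_num) (Nat.le_mul_of_pos_left _ (Nat.succ_pos _))
  | succ i ih =>
    show 2 ^ tw (i + 1) (s + 1) ≤ _
    rw [T38_mg]
    refine Nat.pow_le_pow_right (by norm_num) (ih.trans ?_)
    show (tP b L s).m i ≤ (L + 1) * ((tP b L s).m i * (tP b L s).g i)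
    calc (tP b L s).m i ≤ (tP b L s).m i * (tP b L s).g i :=
          Nat.le_mul_of_pos_right _ (T38_gpos b L s i)
      _ ≤ (L + 1) * ((tP b L s).m i * (tP b L s).g i) :=
          Nat.le_mul_of_pos_left _ (Nat.succ_pos _)

end

theorem T38 (b L s : ℕ) (hb : 2 ≤ b) :
    (tP b L s).Ok ∧ (tP b L s).s = s ∧ (∀ i, (tP b L s).rho i = (gr L s i).2) ∧
    (∀ i, (tP b L s).g i = (gr L s i).1) ∧ (∀ i, 1 ≤ (tP b L s).g i) ∧
    (∀ i, (tP b L s).m i = 2 ^ ((L + 1) * (tP b L s).g i)) ∧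
    (∀ i, (tP b L s).Nn i = (tP b L s).xi b i ^ 3) ∧
    (∀ i, (tP b L s).rho i ≤ 3 ^ i * (tP b L s).g i) ∧
    ∀ i, tw (i + 1) (s + 1) ≤ (tP b L s).m i := by
  refine ⟨fun i => ⟨T38_m2 b L s i, ?_⟩, rfl, T38_rho b L s, T38_g b L s, T38_gpos b L s,
    T38_mg b L s, T38_N b L s, T38_rg b L s, T38_tw b L s⟩
  rw [T38_N]
  have h1 : 2 * 1 ≤ (tP b L s).m i * b ^ (2 * (tP b L s).rho i) :=
    Nat.mul_le_mul (T38_m2 b L s i) (Nat.one_le_pow _ _ (by omega))
  calc 2 ≤ (tP b L s).xi b i := h1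
    _ ≤ (tP b L s).xi b i ^ 3 := Nat.le_self_pow (by norm_num) _

theorem T39 (b L s : ℕ) (hb : 2 ≤ b) (i : ℕ) (hi : i ≤ L) :
    Fintype.card (Sk (tP b L s) b i) * Fintype.card (Pt (tP b L s) b i) ≤
      Aa b L ^ ((i + 1) * (tP b L s).g i) := by
  obtain ⟨-, h0, h0', hS, hP⟩ := T26 (tP b L s) b
  have hb0 : 0 < b := by omega
  have hA : b ≤ Aa b L := by
    unfold Aa
    calc b = 1 * b ^ 1 := by rw [one_mul, pow_one]
      _ ≤ 2 ^ (4 * (L + 1)) * b ^ (11 * 3 ^ L) := by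
        refine Nat.mul_le_mul Nat.one_le_two_pow (Nat.pow_le_pow_right hb0 ?_)
        have : 0 < 3 ^ L := by positivity
        omega
  have hA1 : 1 ≤ Aa b L := hb0.trans_le hA
  induction i with
  | zero =>
    rw [h0, h0', mul_one]
    show b ^ s ≤ Aa b L ^ ((0 + 1) * (s + 1))
    calc b ^ s ≤ Aa b L ^ s := Nat.pow_le_pow_left hA _
      _ ≤ Aa b L ^ ((0 + 1) * (s + 1)) := Nat.pow_le_pow_right hA1 (by omega)
  | succ i ih =>
    have ih := ih (by omega)
    rw [hS, hP]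
    show _ ≤ Aa b L ^ ((i + 1 + 1) * ((tP b L s).m i * (tP b L s).g i))
    have hX : (tP b L s).Xi b i = (tP b L s).m i ^ 3 * b ^ (8 * (tP b L s).rho i) := by
      show (tP b L s).Nn i * b ^ (2 * (tP b L s).rho i) = _
      rw [T38_N]
      show ((tP b L s).m i * b ^ (2 * (tP b L s).rho i)) ^ 3 * b ^ (2 * (tP b L s).rho i) = _
      ring
    have hm4 : (tP b L s).m i ^ 4 * b ^ (10 * (tP b L s).rho i + 1) ≤
        Aa b L ^ (tP b L s).g i := by
      unfold Aa
      rw [mul_pow, ← pow_mul, ← pow_mul]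
      refine Nat.mul_le_mul (le_of_eq ?_) (Nat.pow_le_pow_right hb0 ?_)
      · rw [T38_mg, ← pow_mul]
        congr 1
        ring
      · have h1 := T38_rg b L s i
        have h2 : 3 ^ i * (tP b L s).g i ≤ 3 ^ L * (tP b L s).g i :=
          Nat.mul_le_mul_right _ (Nat.pow_le_pow_right (by norm_num) (by omega))
        have h3 : 1 * 1 ≤ 3 ^ L * (tP b L s).g i :=
          Nat.mul_le_mul (Nat.one_le_pow _ _ (by norm_num)) (T38_gpos b L s i)
        calc 10 * (tP b L s).rho i + 1 ≤ 11 * (3 ^ L * (tP b L s).g i) := by omega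
          _ = 11 * 3 ^ L * (tP b L s).g i := by ring
    rw [hX]
    generalize (tP b L s).m i = m at *
    generalize (tP b L s).rho i = rho at *
    generalize (tP b L s).g i = g at *
    generalize Fintype.card (Sk (tP b L s) b i) = Sc at *
    generalize Fintype.card (Pt (tP b L s) b i) = Pc at *
    generalize Aa b L = A at *
    calc (m * b ^ (2 * rho + 1)) ^ m * Sc ^ m * (m ^ 3 * b ^ (8 * rho) * Pc) ^ m
        = ((m ^ 4 * b ^ (10 * rho + 1)) * (Sc * Pc)) ^ m := by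
          rw [← mul_pow, ← mul_pow]
          congr 1
          ring
      _ ≤ (A ^ g * A ^ ((i + 1) * g)) ^ m := Nat.pow_le_pow_left (Nat.mul_le_mul hm4 ih) _
      _ = A ^ ((i + 1 + 1) * (m * g)) := by
          rw [← pow_add, ← pow_mul]
          congr 1
          ring

end Pool.Agent.LSN
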