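import Pool.Agent.LSN.Basic
import Pool.Agent.LSN.J38
/-!
# LSN, target T40: weight of the events of the first kind
-/

set_option autoImplicit false

namespace Pool.Agent.LSN

open Finset

/-- the last step: the base of the `N`-th power -/
theorem T40_base (b K L i m ρ g ξ N A Q : ℕ) (hb : 2 ≤ b) (hK : 1 ≤ K) (hi : i < L)
    (hg : 1 ≤ g) (hm : m = 2 ^ ((L + 1) * g)) (hξ : ξ = m * b ^ (2 * ρ)) (hN : N = ξ ^ 3)
    (hρ : ρ ≤ 3 ^ i * g) (hA : A = 2 ^ (4 * (L + 1)) * b ^ (11 * 3 ^ L))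
    (hQ : Q = K * (1600 * A ^ (L + 7))) :
    b ^ (3 * ρ + 1) * (2 * Q) * (N * b ^ (2 * ρ + 1) * ξ * A ^ (L * g)) * 4 ≤ Q ^ (4 * g) := by
  have hb0 : 0 < b := by omega
  have hA1 : 1 ≤ A := by
    rw [hA]; exact Nat.succ_le_of_lt (Nat.mul_pos (by positivity) (by positivity))
  have hQA : 1600 * A ^ (L + 7) ≤ Q := by
    rw [hQ]; exact Nat.le_mul_of_pos_left _ hK
  have hQ1 : 1 ≤ Q := le_trans (Nat.succ_le_of_lt (by positivity)) hQA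
  have hA2 : 2 ^ (4 * (L + 1)) ≤ A := by
    rw [hA]; exact Nat.le_mul_of_pos_right _ (by positivity)
  have hA3 : b ^ (11 * 3 ^ L) ≤ A := by
    rw [hA]; exact Nat.le_mul_of_pos_left _ (by positivity)
  have hm4 : m ^ 4 ≤ A ^ g := by
    calc m ^ 4 = (2 ^ (4 * (L + 1))) ^ g := by rw [hm, ← pow_mul, ← pow_mul]; ring_nf
      _ ≤ A ^ g := Nat.pow_le_pow_left hA2 g
  have h3i : 3 ^ i ≤ 3 ^ L := Nat.pow_le_pow_right (by norm_num) hi.le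
  have h3L : 1 ≤ 3 ^ L := Nat.one_le_pow _ _ (by norm_num)
  have hρL : ρ ≤ 3 ^ L * g := hρ.trans (Nat.mul_le_mul_right _ h3i)
  have h1g : 1 ≤ 3 ^ L * g := Nat.succ_le_of_lt (Nat.mul_pos (by omega) (by omega))
  have hbρ : b ^ (13 * ρ + 2) ≤ A ^ (2 * g) := by
    calc b ^ (13 * ρ + 2) ≤ b ^ ((11 * 3 ^ L) * (2 * g)) :=
          Nat.pow_le_pow_right hb0 (by nlinarith)
      _ = (b ^ (11 * 3 ^ L)) ^ (2 * g) := by rw [pow_mul]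
      _ ≤ A ^ (2 * g) := Nat.pow_le_pow_left hA3 _
  have hNξ : N * ξ = m ^ 4 * b ^ (8 * ρ) := by
    rw [hN, hξ]; ring
  have h8 : 8 ≤ 1600 ^ g := by
    calc 8 ≤ 1600 ^ 1 := by norm_num
      _ ≤ 1600 ^ g := Nat.pow_le_pow_right (by norm_num) hg
  have hAA : A ^ g * A ^ (2 * g) * A ^ (L * g) ≤ A ^ ((L + 7) * g) := by
    rw [← pow_add, ← pow_add]
    exact Nat.pow_le_pow_right hA1 (by nlinarith)
  have hQg : 8 * (m ^ 4 * b ^ (13 * ρ + 2) * A ^ (L * g)) ≤ Q ^ g := by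
    calc 8 * (m ^ 4 * b ^ (13 * ρ + 2) * A ^ (L * g))
        ≤ 1600 ^ g * (A ^ g * A ^ (2 * g) * A ^ (L * g)) := by gcongr
      _ ≤ 1600 ^ g * A ^ ((L + 7) * g) := by gcongr
      _ = (1600 * A ^ (L + 7)) ^ g := by rw [mul_pow, ← pow_mul]
      _ ≤ Q ^ g := Nat.pow_le_pow_left hQA g
  calc b ^ (3 * ρ + 1) * (2 * Q) * (N * b ^ (2 * ρ + 1) * ξ * A ^ (L * g)) * 4
      = Q * (8 * ((N * ξ) * (b ^ (3 * ρ + 1) * b ^ (2 * ρ + 1)) * A ^ (L * g))) := by ring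
    _ = Q * (8 * (m ^ 4 * b ^ (13 * ρ + 2) * A ^ (L * g))) := by rw [hNξ]; ring
    _ ≤ Q * Q ^ g := by gcongr
    _ = Q ^ (g + 1) := by ring
    _ ≤ Q ^ (4 * g) := Nat.pow_le_pow_right hQ1 (by omega)

/-- the inequality in natural numbers -/
theorem T40_nat (b K L i m ρ g ξ N n Sk Pt A Q : ℕ) (hb : 2 ≤ b) (hK : 1 ≤ K) (hi : i < L)
    (hg : 1 ≤ g) (hm : m = 2 ^ ((L + 1) * g)) (hξ : ξ = m * b ^ (2 * ρ)) (hN : N = ξ ^ 3)
    (hρ : ρ ≤ 3 ^ i * g) (hA : A = 2 ^ (4 * (L + 1)) * b ^ (11 * 3 ^ L))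
    (hQ : Q = K * (1600 * A ^ (L + 7))) (hS : Sk * Pt ≤ A ^ ((i + 1) * g)) (hn : n ≤ ξ) :
    b ^ (N * (2 * ρ + 1) + ρ) * ((2 ^ n) ^ n * (K ^ n * ((2 * Q ^ 4) ^ (i + 1)) ^ n)) *
      ((N * b ^ (2 * ρ + 1)) ^ N * (n ^ N * Sk ^ N)) * Pt ^ N * (4 * L * (ξ + 1)) ≤
      Q ^ (4 * (N * g)) := by
  have hb0 : 0 < b := by omega
  have hA1 : 1 ≤ A := by
    rw [hA]; exact Nat.succ_le_of_lt (Nat.mul_pos (by positivity) (by positivity))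
  have hAL : 1 ≤ A ^ (L + 7) := Nat.one_le_pow _ _ hA1
  have hQ2 : 2 ≤ Q := by rw [hQ]; nlinarith
  have hKQ : K ≤ Q := by rw [hQ]; exact Nat.le_mul_of_pos_right _ (by omega)
  have hm2 : 2 ^ (L + 1) ≤ m := by
    rw [hm]; exact Nat.pow_le_pow_right (by norm_num) (by nlinarith)
  have hmξ : m ≤ ξ := by rw [hξ]; exact Nat.le_mul_of_pos_right _ (by positivity)
  have hξ2 : 2 ^ (L + 1) ≤ ξ := hm2.trans hmξ
  have hLlt : L + 1 < 2 ^ (L + 1) := Nat.lt_two_pow_self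
  have hξL : L + 2 ≤ ξ := by omega
  have hξ3 : 3 ≤ ξ := by omega
  have hNξ2 : N = ξ * ξ * ξ := by rw [hN]; ring
  have hξsq : ξ ≤ ξ * ξ := Nat.le_mul_of_pos_left _ (by omega)
  have hsqN : ξ * ξ ≤ N := by rw [hNξ2]; exact Nat.le_mul_of_pos_right _ (by omega)
  have hξN : ξ ≤ N := hξsq.trans hsqN
  have h5L : 5 * i + 6 ≤ ξ * ξ := by
    have h1 : 5 * i + 6 ≤ 5 * L + 1 := by omega
    have h2 : 5 * L + 1 ≤ 2 ^ (L + 1) * 2 ^ (L + 1) := by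
      have h4 : L + 2 ≤ 2 ^ (L + 1) := by omega
      have h5 : (L + 2) * (L + 2) ≤ 2 ^ (L + 1) * 2 ^ (L + 1) := Nat.mul_le_mul h4 h4
      nlinarith [Nat.zero_le L, sq_nonneg ((L : ℤ) - 1)]
    exact h1.trans (h2.trans (Nat.mul_le_mul hξ2 hξ2))
  have h1 : b ^ (N * (2 * ρ + 1) + ρ) ≤ (b ^ (3 * ρ + 1)) ^ N := by
    rw [← pow_mul]
    refine Nat.pow_le_pow_right hb0 ?_
    have : ρ ≤ ρ * N := Nat.le_mul_of_pos_right _ (by omega)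
    nlinarith
  have h2 : (2 ^ n) ^ n ≤ 2 ^ N := by
    rw [← pow_mul]
    exact Nat.pow_le_pow_right (by norm_num) ((Nat.mul_le_mul hn hn).trans hsqN)
  have h3 : K ^ n * ((2 * Q ^ 4) ^ (i + 1)) ^ n ≤ Q ^ N := by
    have hM : 2 * Q ^ 4 ≤ Q ^ 5 := by
      calc 2 * Q ^ 4 ≤ Q * Q ^ 4 := Nat.mul_le_mul_right _ hQ2
        _ = Q ^ 5 := by ring
    calc K ^ n * ((2 * Q ^ 4) ^ (i + 1)) ^ n ≤ Q ^ n * ((Q ^ 5) ^ (i + 1)) ^ n := by gcongr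
      _ = Q ^ (n * (5 * i + 6)) := by
          rw [← pow_mul, ← pow_mul, ← pow_add]; ring_nf
      _ ≤ Q ^ N := by
          refine Nat.pow_le_pow_right (by omega) ?_
          calc n * (5 * i + 6) ≤ ξ * (ξ * ξ) := Nat.mul_le_mul hn h5L
            _ = N := by rw [hNξ2]; ring
  have hSA : Sk * Pt ≤ A ^ (L * g) :=
    hS.trans (Nat.pow_le_pow_right hA1 (Nat.mul_le_mul_right _ hi))
  have h4 : (N * b ^ (2 * ρ + 1)) ^ N * (n ^ N * Sk ^ N) * Pt ^ N ≤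
      (N * b ^ (2 * ρ + 1) * ξ * A ^ (L * g)) ^ N := by
    calc (N * b ^ (2 * ρ + 1)) ^ N * (n ^ N * Sk ^ N) * Pt ^ N
        = (N * b ^ (2 * ρ + 1) * n * (Sk * Pt)) ^ N := by
          rw [mul_pow (N * b ^ (2 * ρ + 1) * n), mul_pow (N * b ^ (2 * ρ + 1)), mul_pow Sk]; ring
      _ ≤ (N * b ^ (2 * ρ + 1) * ξ * A ^ (L * g)) ^ N := by
          apply Nat.pow_le_pow_left
          gcongr
  have h5 : 4 * L * (ξ + 1) ≤ 4 ^ N := by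
    have h51 : ξ + 1 ≤ 2 ^ N := by
      have : ξ < 2 ^ ξ := Nat.lt_two_pow_self
      exact (Nat.succ_le_of_lt this).trans (Nat.pow_le_pow_right (by norm_num) hξN)
    have h52 : 4 * L ≤ 2 ^ N := by
      have : L < 2 ^ L := Nat.lt_two_pow_self
      calc 4 * L ≤ 4 * 2 ^ L := by omega
        _ = 2 ^ (L + 2) := by ring
        _ ≤ 2 ^ N := Nat.pow_le_pow_right (by norm_num) (hξL.trans hξN)
    calc 4 * L * (ξ + 1) ≤ 2 ^ N * 2 ^ N := Nat.mul_le_mul h52 h51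
      _ = 4 ^ N := by rw [← mul_pow]; norm_num
  have hbase := T40_base b K L i m ρ g ξ N A Q hb hK hi hg hm hξ hN hρ hA hQ
  calc b ^ (N * (2 * ρ + 1) + ρ) * ((2 ^ n) ^ n * (K ^ n * ((2 * Q ^ 4) ^ (i + 1)) ^ n)) *
      ((N * b ^ (2 * ρ + 1)) ^ N * (n ^ N * Sk ^ N)) * Pt ^ N * (4 * L * (ξ + 1))
      = b ^ (N * (2 * ρ + 1) + ρ) * ((2 ^ n) ^ n * (K ^ n * ((2 * Q ^ 4) ^ (i + 1)) ^ n)) *
      ((N * b ^ (2 * ρ + 1)) ^ N * (n ^ N * Sk ^ N) * Pt ^ N) * (4 * L * (ξ + 1)) := by ring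
    _ ≤ (b ^ (3 * ρ + 1)) ^ N * (2 ^ N * Q ^ N) *
        (N * b ^ (2 * ρ + 1) * ξ * A ^ (L * g)) ^ N * 4 ^ N := by gcongr
    _ = (b ^ (3 * ρ + 1) * (2 * Q) * (N * b ^ (2 * ρ + 1) * ξ * A ^ (L * g)) * 4) ^ N := by
        rw [mul_pow (b ^ (3 * ρ + 1) * (2 * Q) * (N * b ^ (2 * ρ + 1) * ξ * A ^ (L * g))),
          mul_pow (b ^ (3 * ρ + 1) * (2 * Q)), mul_pow (b ^ (3 * ρ + 1)), mul_pow 2 Q]
    _ ≤ (Q ^ (4 * g)) ^ N := Nat.pow_le_pow_left hbase N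
    _ = Q ^ (4 * (N * g)) := by rw [← pow_mul]; ring_nf

/-- T40: weight of the events of the first kind -/
theorem T40 (b K L s : ℕ) (hb : 2 ≤ b) (hK : 1 ≤ K) (i : ℕ) (hi : i < L) (n : ℕ)
    (hn : n ≤ (tP b L s).xi b i) :
    ((b ^ ((tP b L s).Nn i * (2 * (tP b L s).rho i + 1) + (tP b L s).rho i) *
        ((2 ^ n) ^ n * (K ^ n * (Mm b K L ^ (i + 1)) ^ n)) *
        (((tP b L s).Nn i * b ^ (2 * (tP b L s).rho i + 1)) ^ (tP b L s).Nn i *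
          (n ^ (tP b L s).Nn i * Fintype.card (Sk (tP b L s) b i) ^ (tP b L s).Nn i)) : ℕ) : ℝ) *
      ((Fintype.card (Pt (tP b L s) b i) ^ (tP b L s).Nn i : ℕ) : ℝ) *
      (2 / (Mm b K L : ℕ)) ^ ((tP b L s).Nn i * (tP b L s).g i) ≤
      1 / (4 * L * ((tP b L s).xi b i + 1)) := by
  obtain ⟨-, -, -, -, hg1, hm, hN, hrg, -⟩ := T38 b L s hb
  have hS := T39 b L s hb i hi.le
  have key := T40_nat b K L i ((tP b L s).m i) ((tP b L s).rho i) ((tP b L s).g i)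
    ((tP b L s).xi b i) ((tP b L s).Nn i) n (Fintype.card (Sk (tP b L s) b i))
    (Fintype.card (Pt (tP b L s) b i)) (Aa b L) (QL b K L) hb hK hi (hg1 i) (hm i) rfl (hN i)
    (hrg i) rfl rfl hS hn
  change _ * _ * (2 / ((2 * QL b K L ^ 4 : ℕ) : ℝ)) ^ _ ≤ _
  have hMm : Mm b K L = 2 * QL b K L ^ 4 := rfl
  rw [hMm]
  have hQpos : 0 < QL b K L := by
    have : 0 < Aa b L := by
      unfold Aa; positivity
    unfold QL; positivity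
  generalize hX : b ^ ((tP b L s).Nn i * (2 * (tP b L s).rho i + 1) + (tP b L s).rho i) *
        ((2 ^ n) ^ n * (K ^ n * ((2 * QL b K L ^ 4) ^ (i + 1)) ^ n)) *
        (((tP b L s).Nn i * b ^ (2 * (tP b L s).rho i + 1)) ^ (tP b L s).Nn i *
          (n ^ (tP b L s).Nn i * Fintype.card (Sk (tP b L s) b i) ^ (tP b L s).Nn i)) = X at key ⊢
  generalize hY : Fintype.card (Pt (tP b L s) b i) ^ (tP b L s).Nn i = Y at key ⊢
  generalize (tP b L s).Nn i * (tP b L s).g i = E at key ⊢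
  generalize (tP b L s).xi b i = ξ at key ⊢
  generalize QL b K L = Q at key ⊢ hQpos
  have hQR : (0 : ℝ) < (Q : ℝ) := by exact_mod_cast hQpos
  have hLR : (0 : ℝ) < (L : ℝ) := by exact_mod_cast (by omega : 0 < L)
  have hkey : (X : ℝ) * (Y : ℝ) * (4 * (L : ℝ) * ((ξ : ℝ) + 1)) ≤ (Q : ℝ) ^ (4 * E) := by
    exact_mod_cast key
  have h2M : (2 : ℝ) / ((2 * Q ^ 4 : ℕ) : ℝ) = 1 / (Q : ℝ) ^ 4 := by
    push_cast; field_simp
  have hpow : (2 / ((2 * Q ^ 4 : ℕ) : ℝ)) ^ E = 1 / (Q : ℝ) ^ (4 * E) := by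
    rw [h2M, one_div_pow, ← pow_mul]
  rw [hpow, mul_one_div, div_le_div_iff₀ (by positivity) (by positivity), one_mul]
  exact hkey

end Pool.Agent.LSN
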