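import Pool.Agent.LSN.Basic
import Pool.Agent.LSN.J38
/-!
# LSN, target T41: weight of the events of the second kind
-/

set_option autoImplicit false

namespace Pool.Agent.LSN

open Finset

/-- the base of the power -/
theorem T41_base (b K L i m ρ g Xi S A Q : ℕ) (hb : 2 ≤ b) (hK : 1 ≤ K) (hi : i < L)
    (hg : 1 ≤ g) (hm : m = 2 ^ ((L + 1) * g)) (hXi : m * Xi = m ^ 4 * b ^ (8 * ρ))
    (hρ : ρ ≤ 3 ^ i * g) (hA : A = 2 ^ (4 * (L + 1)) * b ^ (11 * 3 ^ L))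
    (hQ : Q = K * (1600 * A ^ (L + 7))) (hS : S ≤ A ^ (L * g)) :
    1600 * b ^ (18 * (2 * ρ + 1)) * (m * Xi) * S ≤ Q ^ (4 * g) := by
  have hb0 : 0 < b := by omega
  have hA1 : 1 ≤ A := by
    rw [hA]; exact Nat.succ_le_of_lt (Nat.mul_pos (by positivity) (by positivity))
  have hQA : 1600 * A ^ (L + 7) ≤ Q := by
    rw [hQ]; exact Nat.le_mul_of_pos_left _ hK
  have hQ1 : 1 ≤ Q := le_trans (Nat.succ_le_of_lt (by positivity)) hQA
  have hA2 : 2 ^ (4 * (L + 1)) ≤ A := by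
    rw [hA]; exact Nat.le_mul_of_pos_right _ (by positivity)
  have hA3 : b ^ (11 * 3 ^ L) ≤ A := by
    rw [hA]; exact Nat.le_mul_of_pos_left _ (by positivity)
  have hm4 : m ^ 4 ≤ A ^ g := by
    calc m ^ 4 = (2 ^ (4 * (L + 1))) ^ g := by rw [hm, ← pow_mul, ← pow_mul]; ring_nf
      _ ≤ A ^ g := Nat.pow_le_pow_left hA2 g
  have h3i : 3 ^ i ≤ 3 ^ L := Nat.pow_le_pow_right (by norm_num) hi.le
  have h3L : 1 ≤ 3 ^ L := Nat.one_le_pow _ _ (by norm_num)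
  have hρL : ρ ≤ 3 ^ L * g := hρ.trans (Nat.mul_le_mul_right _ h3i)
  have h1g : 1 ≤ 3 ^ L * g := Nat.succ_le_of_lt (Nat.mul_pos (by omega) (by omega))
  have hbρ : b ^ (44 * ρ + 18) ≤ A ^ (6 * g) := by
    calc b ^ (44 * ρ + 18) ≤ b ^ ((11 * 3 ^ L) * (6 * g)) :=
          Nat.pow_le_pow_right hb0 (by nlinarith)
      _ = (b ^ (11 * 3 ^ L)) ^ (6 * g) := by rw [pow_mul]
      _ ≤ A ^ (6 * g) := Nat.pow_le_pow_left hA3 _
  have h16 : 1600 ≤ 1600 ^ g := by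
    calc 1600 = 1600 ^ 1 := by norm_num
      _ ≤ 1600 ^ g := Nat.pow_le_pow_right (by norm_num) hg
  have hAA : A ^ g * A ^ (6 * g) * A ^ (L * g) = A ^ ((L + 7) * g) := by
    rw [← pow_add, ← pow_add]
    congr 1
    ring
  calc 1600 * b ^ (18 * (2 * ρ + 1)) * (m * Xi) * S
      = 1600 * (m ^ 4 * b ^ (44 * ρ + 18) * S) := by
        rw [hXi]
        have : b ^ (44 * ρ + 18) = b ^ (18 * (2 * ρ + 1)) * b ^ (8 * ρ) := by
          rw [← pow_add]; congr 1; ring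
        rw [this]
        ring
    _ ≤ 1600 ^ g * (A ^ g * A ^ (6 * g) * A ^ (L * g)) := by gcongr
    _ = (1600 * A ^ (L + 7)) ^ g := by rw [hAA, mul_pow, ← pow_mul]
    _ ≤ Q ^ g := Nat.pow_le_pow_left hQA g
    _ ≤ Q ^ (4 * g) := Nat.pow_le_pow_right hQ1 (by omega)

/-- the inequality in natural numbers -/
theorem T41_nat (b K L i m ρ g M rad Xi Sk Pt A Q : ℕ) (hb : 2 ≤ b) (hK : 1 ≤ K) (hi : i < L)
    (hg : 1 ≤ g) (hm : m = 2 ^ ((L + 1) * g)) (hXi : m * Xi = m ^ 4 * b ^ (8 * ρ))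
    (hρ : ρ ≤ 3 ^ i * g) (hA : A = 2 ^ (4 * (L + 1)) * b ^ (11 * 3 ^ L))
    (hQ : Q = K * (1600 * A ^ (L + 7))) (hS : Sk * Pt ≤ A ^ ((i + 1) * g))
    (hM : 2 ≤ M) (hMm : M ≤ m) (hrad : rad + 1 ≤ 5 * M * (2 * ρ + 1)) :
    2 * (b ^ rad * b ^ (2 * rad + 2)) * ((M * b ^ (2 * ρ + 1)) ^ M * Sk ^ M) *
      (Xi * Pt) ^ M * (8 * (rad + 1) ^ 2) ≤ Q ^ (4 * (M * g)) := by
  have hb0 : 0 < b := by omega
  have hA1 : 1 ≤ A := by
    rw [hA]; exact Nat.succ_le_of_lt (Nat.mul_pos (by positivity) (by positivity))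
  have hSA : Sk * Pt ≤ A ^ (L * g) :=
    hS.trans (Nat.pow_le_pow_right hA1 (Nat.mul_le_mul_right _ hi))
  have h1 : b ^ rad * b ^ (2 * rad + 2) ≤ (b ^ (15 * (2 * ρ + 1))) ^ M := by
    rw [← pow_add, ← pow_mul]
    refine Nat.pow_le_pow_right hb0 ?_
    nlinarith
  have h2 : 16 * (rad + 1) ^ 2 ≤ (1600 * b ^ (2 * (2 * ρ + 1))) ^ M := by
    have e1 : (rad + 1) ^ 2 ≤ (5 * M * (2 * ρ + 1)) ^ 2 := Nat.pow_le_pow_left hrad 2
    have e2 : M ^ 2 ≤ 4 ^ M := by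
      have : M < 2 ^ M := Nat.lt_two_pow_self
      calc M ^ 2 ≤ (2 ^ M) ^ 2 := Nat.pow_le_pow_left this.le 2
        _ = 4 ^ M := by rw [← pow_mul, mul_comm, pow_mul]; norm_num
    have e3 : 2 * ρ + 1 ≤ b ^ (2 * ρ + 1) := by
      have : 2 * ρ + 1 < 2 ^ (2 * ρ + 1) := Nat.lt_two_pow_self
      exact this.le.trans (Nat.pow_le_pow_left hb _)
    have e4 : (2 * ρ + 1) ^ 2 ≤ (b ^ (2 * (2 * ρ + 1))) ^ M := by
      calc (2 * ρ + 1) ^ 2 ≤ (b ^ (2 * ρ + 1)) ^ 2 := Nat.pow_le_pow_left e3 2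
        _ = b ^ (2 * (2 * ρ + 1)) := by rw [← pow_mul]; ring_nf
        _ ≤ (b ^ (2 * (2 * ρ + 1))) ^ M := Nat.le_self_pow (by omega) _
    have e5 : 400 ≤ 400 ^ M := Nat.le_self_pow (by omega) _
    calc 16 * (rad + 1) ^ 2 ≤ 16 * (5 * M * (2 * ρ + 1)) ^ 2 := Nat.mul_le_mul_left _ e1
      _ = 400 * (M ^ 2 * (2 * ρ + 1) ^ 2) := by ring
      _ ≤ 400 ^ M * (4 ^ M * (b ^ (2 * (2 * ρ + 1))) ^ M) := by gcongr
      _ = (1600 * b ^ (2 * (2 * ρ + 1))) ^ M := by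
          rw [← mul_pow, ← mul_pow]
          congr 1
          ring
  have hbase := T41_base b K L i m ρ g Xi (Sk * Pt) A Q hb hK hi hg hm hXi hρ hA hQ hSA
  calc 2 * (b ^ rad * b ^ (2 * rad + 2)) * ((M * b ^ (2 * ρ + 1)) ^ M * Sk ^ M) *
      (Xi * Pt) ^ M * (8 * (rad + 1) ^ 2)
      = (b ^ rad * b ^ (2 * rad + 2)) * ((M * b ^ (2 * ρ + 1)) ^ M * Sk ^ M *
      (Xi * Pt) ^ M) * (16 * (rad + 1) ^ 2) := by ring
    _ ≤ (b ^ (15 * (2 * ρ + 1))) ^ M * ((M * b ^ (2 * ρ + 1)) ^ M * Sk ^ M *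
      (Xi * Pt) ^ M) * (1600 * b ^ (2 * (2 * ρ + 1))) ^ M := by gcongr
    _ = (b ^ (15 * (2 * ρ + 1)) * ((M * b ^ (2 * ρ + 1)) * Sk * (Xi * Pt)) *
          (1600 * b ^ (2 * (2 * ρ + 1)))) ^ M := by
        rw [mul_pow (b ^ (15 * (2 * ρ + 1)) * ((M * b ^ (2 * ρ + 1)) * Sk * (Xi * Pt))),
          mul_pow (b ^ (15 * (2 * ρ + 1))), mul_pow (M * b ^ (2 * ρ + 1) * Sk),
          mul_pow (M * b ^ (2 * ρ + 1))]
    _ = (1600 * b ^ (18 * (2 * ρ + 1)) * (M * Xi) * (Sk * Pt)) ^ M := by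
        congr 1
        have : b ^ (18 * (2 * ρ + 1)) =
            b ^ (15 * (2 * ρ + 1)) * b ^ (2 * ρ + 1) * b ^ (2 * (2 * ρ + 1)) := by
          rw [← pow_add, ← pow_add]; congr 1; ring
        rw [this]
        ring
    _ ≤ (1600 * b ^ (18 * (2 * ρ + 1)) * (m * Xi) * (Sk * Pt)) ^ M := by
        apply Nat.pow_le_pow_left
        gcongr
    _ ≤ (Q ^ (4 * g)) ^ M := Nat.pow_le_pow_left hbase M
    _ = Q ^ (4 * (M * g)) := by rw [← pow_mul]; ring_nf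

/-- T41: weight of the events of the second kind -/
theorem T41 (b K L s : ℕ) (hb : 2 ≤ b) (hK : 1 ≤ K) (i m rad : ℕ) (hi : i < L)
    (hm : 2 ≤ m) (hmi : m ≤ (tP b L s).m i)
    (hrad : rad + 1 ≤ 5 * m * (2 * (tP b L s).rho i + 1)) :
    ((2 * (b ^ rad * b ^ (2 * rad + 2)) *
        ((m * b ^ (2 * (tP b L s).rho i + 1)) ^ m *
          Fintype.card (Sk (tP b L s) b i) ^ m) : ℕ) : ℝ) *
      ((((tP b L s).Xi b i * Fintype.card (Pt (tP b L s) b i)) ^ m : ℕ) : ℝ) *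
      (2 / (Mm b K L : ℕ)) ^ (m * (tP b L s).g i) ≤ 1 / (8 * ((rad : ℝ) + 1) ^ 2) := by
  obtain ⟨-, -, -, -, hg1, hmm, hN, hrg, -⟩ := T38 b L s hb
  have hS := T39 b L s hb i hi.le
  have hXi : (tP b L s).m i * (tP b L s).Xi b i =
      (tP b L s).m i ^ 4 * b ^ (8 * (tP b L s).rho i) := by
    unfold Par.Xi
    rw [hN i]
    unfold Par.xi
    ring
  have key := T41_nat b K L i ((tP b L s).m i) ((tP b L s).rho i) ((tP b L s).g i) m rad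
    ((tP b L s).Xi b i) (Fintype.card (Sk (tP b L s) b i))
    (Fintype.card (Pt (tP b L s) b i)) (Aa b L) (QL b K L) hb hK hi (hg1 i) (hmm i) hXi
    (hrg i) rfl rfl hS hm hmi hrad
  have hMm : Mm b K L = 2 * QL b K L ^ 4 := rfl
  rw [hMm]
  have hQpos : 0 < QL b K L := by
    have : 0 < Aa b L := by
      unfold Aa; positivity
    unfold QL; positivity
  generalize hX : 2 * (b ^ rad * b ^ (2 * rad + 2)) *
        ((m * b ^ (2 * (tP b L s).rho i + 1)) ^ m *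
          Fintype.card (Sk (tP b L s) b i) ^ m) = X at key ⊢
  generalize hY : ((tP b L s).Xi b i * Fintype.card (Pt (tP b L s) b i)) ^ m = Y at key ⊢
  generalize m * (tP b L s).g i = E at key ⊢
  generalize QL b K L = Q at key ⊢ hQpos
  have hQR : (0 : ℝ) < (Q : ℝ) := by exact_mod_cast hQpos
  have hkey : (X : ℝ) * (Y : ℝ) * (8 * ((rad : ℝ) + 1) ^ 2) ≤ (Q : ℝ) ^ (4 * E) := by
    exact_mod_cast key
  have h2M : (2 : ℝ) / ((2 * Q ^ 4 : ℕ) : ℝ) = 1 / (Q : ℝ) ^ 4 := by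
    push_cast; field_simp
  have hpow : (2 / ((2 * Q ^ 4 : ℕ) : ℝ)) ^ E = 1 / (Q : ℝ) ^ (4 * E) := by
    rw [h2M, one_div_pow, ← pow_mul]
  rw [hpow, mul_one_div, div_le_div_iff₀ (by positivity) (by positivity), one_mul]
  exact hkey

end Pool.Agent.LSN
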