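import Pool.Agent.LSN.Basic
/-!
# LSN, targets T42 and T43: weight of the events of the third kind, sum of reciprocals of squares
-/

set_option autoImplicit false

namespace Pool.Agent.LSN

open Finset

/-- the inequality in natural numbers -/
theorem T42_nat (b K L rad v : ℕ) (hb : 2 ≤ b) (hK : 1 ≤ K) (h1 : rad ≤ 4 * v) :
    (2 * (b ^ rad * b ^ (2 * rad + 2)) * b ^ v) * (8 * (rad + 1) ^ 2) ≤
      (QL b K L ^ 4) ^ (v + 1) := by
  have hb0 : 0 < b := by omega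
  have hA1 : 1 ≤ Aa b L := by
    unfold Aa
    exact Nat.succ_le_of_lt (Nat.mul_pos (by positivity) (by positivity))
  have hA3 : b ^ 11 ≤ Aa b L := by
    unfold Aa
    calc b ^ 11 = b ^ (11 * 1) := by norm_num
      _ ≤ b ^ (11 * 3 ^ L) := Nat.pow_le_pow_right hb0
          (Nat.mul_le_mul_left _ (Nat.one_le_pow _ _ (by norm_num)))
      _ ≤ 2 ^ (4 * (L + 1)) * b ^ (11 * 3 ^ L) := Nat.le_mul_of_pos_left _ (by positivity)
  have hQA : 1600 * Aa b L ^ (L + 7) ≤ QL b K L := by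
    unfold QL
    exact Nat.le_mul_of_pos_left _ hK
  have hbA : b ^ 13 ≤ Aa b L ^ (L + 7) := by
    calc b ^ 13 ≤ b ^ (11 * 2) := Nat.pow_le_pow_right hb0 (by norm_num)
      _ = (b ^ 11) ^ 2 := by rw [pow_mul]
      _ ≤ Aa b L ^ 2 := Nat.pow_le_pow_left hA3 2
      _ ≤ Aa b L ^ (L + 7) := Nat.pow_le_pow_right hA1 (by omega)
  have hQ : 1024 * b ^ 13 ≤ QL b K L := by
    calc 1024 * b ^ 13 ≤ 1600 * Aa b L ^ (L + 7) := Nat.mul_le_mul (by norm_num) hbA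
      _ ≤ QL b K L := hQA
  have hQ1 : 1 ≤ QL b K L := le_trans (Nat.succ_le_of_lt (by positivity)) hQ
  have hr : rad + 1 ≤ 4 * (v + 1) := by omega
  have hv : (v + 1) ^ 2 ≤ 4 ^ (v + 1) := by
    calc (v + 1) ^ 2 ≤ (2 ^ (v + 1)) ^ 2 := Nat.pow_le_pow_left (Nat.lt_two_pow_self).le 2
      _ = 4 ^ (v + 1) := by rw [← pow_mul, mul_comm, pow_mul]; norm_num
  have h256 : 256 ≤ 256 ^ (v + 1) := by
    calc 256 = 256 ^ 1 := by norm_num
      _ ≤ 256 ^ (v + 1) := Nat.pow_le_pow_right (by norm_num) (by omega)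
  calc (2 * (b ^ rad * b ^ (2 * rad + 2)) * b ^ v) * (8 * (rad + 1) ^ 2)
      = 16 * (rad + 1) ^ 2 * b ^ (rad + (2 * rad + 2) + v) := by
        rw [show b ^ (rad + (2 * rad + 2) + v) = b ^ rad * b ^ (2 * rad + 2) * b ^ v by
          rw [pow_add, pow_add]]
        ring
    _ ≤ 16 * (4 * (v + 1)) ^ 2 * b ^ (13 * (v + 1)) :=
        Nat.mul_le_mul (Nat.mul_le_mul_left _ (Nat.pow_le_pow_left hr 2))
          (Nat.pow_le_pow_right hb0 (by omega))
    _ = 256 * (v + 1) ^ 2 * (b ^ 13) ^ (v + 1) := by rw [pow_mul]; ring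
    _ ≤ 256 ^ (v + 1) * 4 ^ (v + 1) * (b ^ 13) ^ (v + 1) :=
        Nat.mul_le_mul_right _ (Nat.mul_le_mul h256 hv)
    _ = (1024 * b ^ 13) ^ (v + 1) := by rw [← mul_pow, ← mul_pow]; norm_num
    _ ≤ QL b K L ^ (v + 1) := Nat.pow_le_pow_left hQ _
    _ ≤ (QL b K L ^ 4) ^ (v + 1) :=
        Nat.pow_le_pow_left (by
          calc QL b K L = QL b K L ^ 1 := (pow_one _).symm
            _ ≤ QL b K L ^ 4 := Nat.pow_le_pow_right hQ1 (by norm_num)) _

theorem T42 (b K L s : ℕ) (hb : 2 ≤ b) (hK : 1 ≤ K) (rad : ℕ) (h1 : 1 ≤ rad)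
    (h2 : rad ≤ 4 * s) :
    ((2 * (b ^ rad * b ^ (2 * rad + 2)) * b ^ (min rad s) : ℕ) : ℝ) * ((1 : ℕ) : ℝ) *
      (2 / (Mm b K L : ℕ)) ^ (min rad s + 1) ≤ 1 / (8 * ((rad : ℝ) + 1) ^ 2) := by
  have hv : rad ≤ 4 * min rad s := by
    rcases min_choice rad s with h | h
    · rw [h]; omega
    · rw [h]; exact h2
  have hN := T42_nat b K L rad (min rad s) hb hK hv
  have hQ1 : 0 < QL b K L := by
    have h3 : 0 < (QL b K L ^ 4) ^ (min rad s + 1) :=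
      lt_of_lt_of_le (Nat.mul_pos (Nat.mul_pos (Nat.mul_pos (by norm_num)
        (Nat.mul_pos (Nat.pow_pos (by omega)) (Nat.pow_pos (by omega))))
        (Nat.pow_pos (by omega))) (by positivity)) hN
    rcases Nat.eq_zero_or_pos (QL b K L) with h0 | h0
    · rw [h0] at h3
      simp at h3
    · exact h0
  have hQr : (0 : ℝ) < (QL b K L : ℝ) := by exact_mod_cast hQ1
  have hM : (2 : ℝ) / (Mm b K L : ℕ) = 1 / (QL b K L : ℝ) ^ 4 := by
    unfold Mm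
    push_cast
    field_simp
  rw [hM, Nat.cast_one, mul_one, div_pow, one_pow, mul_one_div, div_le_div_iff₀ (by positivity)
    (by positivity), one_mul]
  have h4 : ((2 * (b ^ rad * b ^ (2 * rad + 2)) * b ^ (min rad s) : ℕ) : ℝ) *
      (8 * ((rad : ℝ) + 1) ^ 2) =
      (((2 * (b ^ rad * b ^ (2 * rad + 2)) * b ^ (min rad s)) * (8 * (rad + 1) ^ 2) : ℕ) : ℝ) := by
    push_cast
    ring
  rw [h4]
  have h5 : ((QL b K L : ℝ) ^ 4) ^ (min rad s + 1) =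
      (((QL b K L ^ 4) ^ (min rad s + 1) : ℕ) : ℝ) := by
    push_cast
    ring
  rw [h5]
  exact_mod_cast hN

theorem T43_aux (n : ℕ) : ∑ r ∈ range n, (1 : ℝ) / (8 * (((r + 1 : ℕ) : ℝ) + 1) ^ 2) ≤
    1 / 8 - 1 / (8 * ((n : ℝ) + 1)) := by
  induction n with
  | zero => simp
  | succ n ih =>
    rw [sum_range_succ]
    have h : (1 : ℝ) / (8 * (((n + 1 : ℕ) : ℝ) + 1) ^ 2) ≤
        1 / (8 * ((n : ℝ) + 1)) - 1 / (8 * (((n + 1 : ℕ) : ℝ) + 1)) := by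
      have hn : (0 : ℝ) ≤ (n : ℝ) := Nat.cast_nonneg n
      push_cast
      rw [div_sub_div _ _ (by positivity) (by positivity),
        div_le_div_iff₀ (by positivity) (by positivity)]
      nlinarith [mul_nonneg hn hn, mul_nonneg (mul_nonneg hn hn) hn]
    linarith

theorem T43 (n : ℕ) : ∑ r ∈ range n, (1 : ℝ) / (8 * (((r + 1 : ℕ) : ℝ) + 1) ^ 2) ≤ 1 / 8 := by
  have h := T43_aux n
  have h2 : (0 : ℝ) ≤ 1 / (8 * ((n : ℝ) + 1)) := by positivity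
  linarith

end Pool.Agent.LSN
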