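import Pool.Agent.LSN.Basic
import Pool.Agent.LSN.J20
import Pool.Agent.LSN.J26
import Pool.Agent.LSN.J28
import Pool.Agent.LSN.J29
import Pool.Agent.LSN.J30
import Pool.Agent.LSN.J31
import Pool.Agent.LSN.J33
import Pool.Agent.LSN.J34
import Pool.Agent.LSN.J36
import Pool.Agent.LSN.J38
import Pool.Agent.LSN.J40
import Pool.Agent.LSN.J41
import Pool.Agent.LSN.J42
set_option autoImplicit false

namespace Pool.Agent.LSN

open Finset

/-- classes of the events of the first kind -/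
abbrev T44_I1 (P : Par) (b L : ℕ) : Type := (i : Fin L) × Fin (P.xi b i + 1)

/-- classes of the events of the second kind, the radius is `r + 1` -/
abbrev T44_I2 (R s : ℕ) : Type := {r : Fin R // 2 * (2 * s + 1) ≤ (r.val + 1) + 1}

/-- classes of the events of the third kind, the radius is `r + 1` -/
abbrev T44_I3 (R s : ℕ) : Type := {r : Fin R // r.val + 1 ≤ 4 * s}

/-- the types of the events -/
abbrev T44_E (P : Par) (V : Type) (b K M L R s : ℕ) (ci cm : ℕ → ℕ) :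
    T44_I1 P b L ⊕ T44_I2 R s ⊕ T44_I3 R s → Type
  | Sum.inl k => EG P V b K M k.1.val k.2.val
  | Sum.inr (Sum.inl k) => EC P V b (ci (k.1.val + 1)) (cm (k.1.val + 1))
  | Sum.inr (Sum.inr k) => E0 V b (min (k.1.val + 1) s)

noncomputable instance T44_inst {P : Par} {V : Type} [Fintype V] {b K M L R s : ℕ}
    {ci cm : ℕ → ℕ} : (k : T44_I1 P b L ⊕ T44_I2 R s ⊕ T44_I3 R s) →
    Fintype (T44_E P V b K M L R s ci cm k)
  | Sum.inl k => inferInstanceAs (Fintype (EG P V b K M k.1.val k.2.val))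
  | Sum.inr (Sum.inl k) =>
    inferInstanceAs (Fintype (EC P V b (ci (k.1.val + 1)) (cm (k.1.val + 1))))
  | Sum.inr (Sum.inr k) => inferInstanceAs (Fintype (E0 V b (min (k.1.val + 1) s)))

lemma T44_sum (R : ℕ) (p : Fin R → Prop) [DecidablePred p] (f : {r : Fin R // p r} → ℝ)
    (hf : ∀ k, f k ≤ 1 / (8 * (((k.1.val + 1 : ℕ) : ℝ) + 1) ^ 2)) : ∑ k, f k ≤ 1 / 8 := by
  have h1 : ∑ k, f k ≤ ∑ k : {r : Fin R // p r},
      (fun r : Fin R => (1 : ℝ) / (8 * (((r.val + 1 : ℕ) : ℝ) + 1) ^ 2)) k.1 :=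
    sum_le_sum fun k _ => hf k
  have h2 : ∑ k : {r : Fin R // p r},
      (fun r : Fin R => (1 : ℝ) / (8 * (((r.val + 1 : ℕ) : ℝ) + 1) ^ 2)) k.1 =
      ∑ r ∈ univ.filter p, (1 : ℝ) / (8 * (((r.val + 1 : ℕ) : ℝ) + 1) ^ 2) :=
    (Finset.sum_subtype (p := p) (univ.filter p) (fun x => by simp)
      (fun r : Fin R => (1 : ℝ) / (8 * (((r.val + 1 : ℕ) : ℝ) + 1) ^ 2))).symm
  have h3 : ∑ r ∈ univ.filter p, (1 : ℝ) / (8 * (((r.val + 1 : ℕ) : ℝ) + 1) ^ 2) ≤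
      ∑ r : Fin R, (1 : ℝ) / (8 * (((r.val + 1 : ℕ) : ℝ) + 1) ^ 2) :=
    sum_le_sum_of_subset_of_nonneg (filter_subset _ _) fun i _ _ => by positivity
  have h4 : ∑ r : Fin R, (1 : ℝ) / (8 * (((r.val + 1 : ℕ) : ℝ) + 1) ^ 2) =
      ∑ r ∈ range R, (1 : ℝ) / (8 * (((r + 1 : ℕ) : ℝ) + 1) ^ 2) :=
    Fin.sum_univ_eq_sum_range (fun r => (1 : ℝ) / (8 * (((r + 1 : ℕ) : ℝ) + 1) ^ 2)) R
  have h5 := T43 R
  linarith

lemma T44_sum1 (P : Par) (b L : ℕ) (hL : 1 ≤ L) (f : T44_I1 P b L → ℝ)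
    (hf : ∀ k, f k ≤ 1 / (4 * L * ((P.xi b k.1 : ℕ) + 1))) : ∑ k, f k ≤ 1 / 4 := by
  have h1 : ∑ k, f k ≤ ∑ k : T44_I1 P b L, (1 : ℝ) / (4 * L * ((P.xi b k.1 : ℕ) + 1)) :=
    sum_le_sum fun k _ => hf k
  have h0 : ∑ k : T44_I1 P b L, (1 : ℝ) / (4 * L * ((P.xi b k.1 : ℕ) + 1)) =
      ∑ i : Fin L, ∑ _n : Fin (P.xi b i + 1), (1 : ℝ) / (4 * L * ((P.xi b i : ℕ) + 1)) :=
    Fintype.sum_sigma _
  rw [h0] at h1
  have h2 : ∀ i : Fin L, ∑ _n : Fin (P.xi b i + 1), (1 : ℝ) / (4 * L * ((P.xi b i : ℕ) + 1)) =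
      1 / (4 * L) := by
    intro i
    rw [sum_const, card_univ, Fintype.card_fin, nsmul_eq_mul]
    have h3 : (0 : ℝ) < L := by exact_mod_cast hL
    have h4 : (0 : ℝ) < (P.xi b i : ℕ) + 1 := by positivity
    rw [Nat.cast_add, Nat.cast_one]
    field_simp
  refine h1.trans (le_of_eq ?_)
  calc ∑ i : Fin L, ∑ _n : Fin (P.xi b i + 1), (1 : ℝ) / (4 * L * ((P.xi b i : ℕ) + 1))
      = ∑ _i : Fin L, (1 : ℝ) / (4 * L) := sum_congr rfl fun i _ => h2 i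
    _ = 1 / 4 := by
      rw [sum_const, card_univ, Fintype.card_fin, nsmul_eq_mul]
      have h3 : (0 : ℝ) < L := by exact_mod_cast hL
      field_simp

theorem T44 {V : Type} [Fintype V] (b K L s : ℕ) (hb : 2 ≤ b) (hK : 1 ≤ K) (hL : 1 ≤ L)
    [NeZero (Mm b K L)] (G : Base V b K)
    (hV : Fintype.card V ≤ 2 ^ (tP b L s).m (L - 1)) (ci cm : ℕ → ℕ)
    (hc : ∀ rad, 2 * (2 * s + 1) ≤ rad + 1 → rad ≤ (tP b L s).m (L - 1) →
      ci rad < L ∧ 2 ≤ cm rad ∧ cm rad ≤ (tP b L s).m (ci rad) ∧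
      (2 * (tP b L s).rho (ci rad) + 1) * cm rad ≤ rad + 1 ∧
      rad + 1 ≤ 5 * cm rad * (2 * (tP b L s).rho (ci rad) + 1)) :
    ∃ z : V × Fin (L + 1) → Fin (Mm b K L),
      (∀ i < L, ∀ n ≤ (tP b L s).xi b i, ∀ e : EG (tP b L s) V b K (Mm b K L) i n,
        ¬ badG (tP b L s) G e z) ∧
      (∀ rad, 1 ≤ rad → rad ≤ (tP b L s).m (L - 1) → 2 * (2 * s + 1) ≤ rad + 1 →
        ∀ e : EC (tP b L s) V b (ci rad) (cm rad),
          ¬ badC (tP b L s) G ((tP b L s).m (L - 1)) rad e z) ∧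
      (∀ rad, 1 ≤ rad → rad ≤ (tP b L s).m (L - 1) → rad ≤ 4 * s →
        ∀ e : E0 V b (min rad s), ¬ bad0 G ((tP b L s).m (L - 1)) rad e z) := by
  classical
  obtain ⟨hOk, -, -, -, hg, -, -, -, -⟩ := T38 b L s hb
  set P := tP b L s with hP
  set M := Mm b K L with hM
  set R := P.m (L - 1) with hR
  have hc2 : ∀ k : T44_I2 R s, ci (k.1.val + 1) < L ∧ 2 ≤ cm (k.1.val + 1) ∧
      cm (k.1.val + 1) ≤ P.m (ci (k.1.val + 1)) ∧
      (2 * P.rho (ci (k.1.val + 1)) + 1) * cm (k.1.val + 1) ≤ (k.1.val + 1) + 1 ∧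
      (k.1.val + 1) + 1 ≤ 5 * cm (k.1.val + 1) * (2 * P.rho (ci (k.1.val + 1)) + 1) :=
    fun k => hc (k.1.val + 1) k.2 k.1.2
  have hlt : ∀ k : T44_I1 P b L, k.1.val < L + 1 := fun k => by
    have := k.1.2
    omega
  let U : (k : T44_I1 P b L ⊕ T44_I2 R s ⊕ T44_I3 R s) →
      T44_E P V b K M L R s ci cm k → Finset (V × Fin (L + 1)) := fun k =>
    match k with
    | Sum.inl k => fun e => UG P G (hlt k) e
    | Sum.inr (Sum.inl _) => fun e => UC P G L e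
    | Sum.inr (Sum.inr _) => fun e => U0 G L e
  let D : (k : T44_I1 P b L ⊕ T44_I2 R s ⊕ T44_I3 R s) →
      T44_E P V b K M L R s ci cm k → Finset (V × Fin (L + 1)) := fun k =>
    match k with
    | Sum.inl _ => fun e => DG P G L e
    | Sum.inr (Sum.inl k) => fun e => D2 G L (k.1.val + 1) e.1 e.2.1
    | Sum.inr (Sum.inr k) => fun e => D2 G L (k.1.val + 1) e.1 e.2.1
  let bad : (k : T44_I1 P b L ⊕ T44_I2 R s ⊕ T44_I3 R s) →
      T44_E P V b K M L R s ci cm k → (V × Fin (L + 1) → Fin M) → Prop := fun k =>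
    match k with
    | Sum.inl _ => fun e z => badG P G e z
    | Sum.inr (Sum.inl k) => fun e z => badC P G R (k.1.val + 1) e z
    | Sum.inr (Sum.inr k) => fun e z => bad0 G R (k.1.val + 1) e z
  let u : T44_I1 P b L ⊕ T44_I2 R s ⊕ T44_I3 R s → ℕ := fun k =>
    match k with
    | Sum.inl k => P.Nn k.1 * P.g k.1
    | Sum.inr (Sum.inl k) => cm (k.1.val + 1) * P.g (ci (k.1.val + 1))
    | Sum.inr (Sum.inr k) => min (k.1.val + 1) s + 1
  let w : T44_I1 P b L ⊕ T44_I2 R s ⊕ T44_I3 R s → ℕ := fun k =>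
    match k with
    | Sum.inl k => Fintype.card (Pt P b k.1) ^ P.Nn k.1
    | Sum.inr (Sum.inl k) => (P.Xi b (ci (k.1.val + 1)) *
        Fintype.card (Pt P b (ci (k.1.val + 1)))) ^ cm (k.1.val + 1)
    | Sum.inr (Sum.inr _) => 1
  let nn : T44_I1 P b L ⊕ T44_I2 R s ⊕ T44_I3 R s → ℕ := fun k =>
    match k with
    | Sum.inl k => b ^ (P.Nn k.1 * (2 * P.rho k.1 + 1) + P.rho k.1) *
        ((2 ^ k.2.val) ^ k.2.val * (K ^ k.2.val * (M ^ (k.1.val + 1)) ^ k.2.val)) *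
        ((P.Nn k.1 * b ^ (2 * P.rho k.1 + 1)) ^ P.Nn k.1 * (k.2.val ^ P.Nn k.1 *
          Fintype.card (Sk P b k.1) ^ P.Nn k.1))
    | Sum.inr (Sum.inl k) => 2 * (b ^ (k.1.val + 1) * b ^ (2 * (k.1.val + 1) + 2)) *
        ((cm (k.1.val + 1) * b ^ (2 * P.rho (ci (k.1.val + 1)) + 1)) ^ cm (k.1.val + 1) *
          Fintype.card (Sk P b (ci (k.1.val + 1))) ^ cm (k.1.val + 1))
    | Sum.inr (Sum.inr k) => 2 * (b ^ (k.1.val + 1) * b ^ (2 * (k.1.val + 1) + 2)) *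
        b ^ (min (k.1.val + 1) s)
  have h36 : ∀ k : T44_I3 R s, _ := fun k =>
    T36 (V := V) (b := b) (K := K) (M := M) (L := L) (v := min (k.1.val + 1) s) G hb R
      (k.1.val + 1) (min_le_left _ _) k.1.2 hV
  obtain ⟨z, hz⟩ := T20 (Z := V × Fin (L + 1)) (T44_E P V b K M L R s ci cm) M U D bad
    u w nn
    (by
      rintro (k | k | k)
      · have h1 := (hOk k.1).2
        have h2 := hg k.1
        exact Nat.mul_pos (by omega) h2
      · have h1 := (hc2 k).2.1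
        have h2 := hg (ci (k.1.val + 1))
        exact Nat.mul_pos (by omega) h2
      · exact Nat.succ_le_succ (Nat.zero_le _))
    (by
      rintro (k | k | k) e
      · exact (T27 (M := M) P G (hlt k) e).1
      · exact (T31 (M := M) P G R (k.1.val + 1) (hc2 k).2.2.2.1 e).1
      · exact (h36 k).1 e)
    (by
      rintro (k | k | k) e z z' h hz
      · exact T28 P G e (hlt k) z z' h hz
      · exact T32 P G R (k.1.val + 1) (hc2 k).2.2.2.1 e (hc2 k).1 z z' h hz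
      · exact (h36 k).2.2.1 e z z' h hz)
    (by
      rintro (k | k | k) e z hz
      · exact (T27 (M := M) P G (hlt k) e).2 z hz
      · exact (T31 (M := M) P G R (k.1.val + 1) (hc2 k).2.2.2.1 e).2 z hz
      · exact (h36 k).2.1 e z hz)
    (by
      rintro (k | k | k) e z0
      · exact T29 P G e (hlt k) z0
      · exact T33 P G R (k.1.val + 1) (hc2 k).2.2.2.1 e (hc2 k).1 z0
      · exact (h36 k).2.2.2.1 e z0)
    (by
      rintro (k | k | k) x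
      · exact T30 P G x
      · exact T35 P G hb R (k.1.val + 1) k.1.2 hV x
      · exact (h36 k).2.2.2.2 x)
    (by
      rw [Fintype.sum_sum_type, Fintype.sum_sum_type]
      have h1 := T44_sum1 P b L hL (fun k => (nn (Sum.inl k) : ℝ) * w (Sum.inl k) *
        (2 / M) ^ u (Sum.inl k)) (fun k => by
          have h := T40 b K L s hb hK k.1.val k.1.2 k.2.val
            (Nat.lt_succ_iff.1 k.2.2)
          exact h)
      have h2 := T44_sum R (fun r => 2 * (2 * s + 1) ≤ (r.val + 1) + 1)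
        (fun k => (nn (Sum.inr (Sum.inl k)) : ℝ) * w (Sum.inr (Sum.inl k)) *
        (2 / M) ^ u (Sum.inr (Sum.inl k))) (fun k => by
          have h := T41 b K L s hb hK (ci (k.1.val + 1)) (cm (k.1.val + 1))
            (k.1.val + 1) (hc2 k).1 (hc2 k).2.1 (hc2 k).2.2.1 (hc2 k).2.2.2.2
          exact h)
      have h3 := T44_sum R (fun r => r.val + 1 ≤ 4 * s)
        (fun k => (nn (Sum.inr (Sum.inr k)) : ℝ) * w (Sum.inr (Sum.inr k)) *
        (2 / M) ^ u (Sum.inr (Sum.inr k))) (fun k => by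
          have h := T42 b K L s hb hK (k.1.val + 1) (by omega) k.2
          exact h)
      linarith)
  refine ⟨z, ?_, ?_, ?_⟩
  · intro i hi n hn e
    exact hz (Sum.inl ⟨⟨i, hi⟩, ⟨n, Nat.lt_succ_iff.2 hn⟩⟩) e
  · intro rad h1 h2 h3
    obtain ⟨r, rfl⟩ : ∃ r, rad = r + 1 := ⟨rad - 1, by omega⟩
    intro e
    exact hz (Sum.inr (Sum.inl ⟨⟨r, h2⟩, h3⟩)) e
  · intro rad h1 h2 h3
    obtain ⟨r, rfl⟩ : ∃ r, rad = r + 1 := ⟨rad - 1, by omega⟩
    intro e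
    exact hz (Sum.inr (Sum.inr ⟨⟨r, h2⟩, h3⟩)) e

end Pool.Agent.LSN
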