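import Pool.Agent.LSN.Basic
import Pool.Agent.LSN.J22
import Pool.Agent.LSN.J24
import Pool.Agent.LSN.J25
import Pool.Agent.LSN.J37
import Pool.Agent.LSN.J38
import Pool.Agent.LSN.J44
set_option autoImplicit false

namespace Pool.Agent.LSN

open Finset

/-- choice of levels and numbers of windows -/
lemma T45_choice (b L s : ℕ) (hb : 2 ≤ b) (hL : 1 ≤ L) :
    ∃ ci cm : ℕ → ℕ, ∀ rad, 2 * (2 * s + 1) ≤ rad + 1 → rad ≤ (tP b L s).m (L - 1) →
      ci rad < L ∧ 2 ≤ cm rad ∧ cm rad ≤ (tP b L s).m (ci rad) ∧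
      (2 * (tP b L s).rho (ci rad) + 1) * cm rad ≤ rad + 1 ∧
      rad + 1 ≤ 5 * cm rad * (2 * (tP b L s).rho (ci rad) + 1) := by
  have hP : (tP b L s).Ok := (T38 b L s hb).1
  have h : ∀ rad : ℕ, ∃ p : ℕ × ℕ, 2 * (2 * s + 1) ≤ rad + 1 → rad ≤ (tP b L s).m (L - 1) →
      p.1 < L ∧ 2 ≤ p.2 ∧ p.2 ≤ (tP b L s).m p.1 ∧
      (2 * (tP b L s).rho p.1 + 1) * p.2 ≤ rad + 1 ∧
      rad + 1 ≤ 5 * p.2 * (2 * (tP b L s).rho p.1 + 1) := by
    intro rad
    by_cases h1 : 2 * (2 * s + 1) ≤ rad + 1 ∧ rad ≤ (tP b L s).m (L - 1)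
    · obtain ⟨i, hi, m, h2, h3, h4, h5⟩ := T37 (tP b L s) hP L rad hL h1.2 h1.1
      exact ⟨(i, m), fun _ _ => ⟨hi, h2, h3, h4, h5⟩⟩
    · exact ⟨(0, 0), fun h2 h3 => absurd ⟨h2, h3⟩ h1⟩
  choose p hp using h
  exact ⟨fun r => (p r).1, fun r => (p r).2, fun rad h1 h2 => hp rad h1 h2⟩

/-- in a bad stroll all pairs are different -/
lemma T45_all {V : Type} {b K : ℕ} (G : Base V b K) (t : ℕ) (x : ℕ → V)
    (hx : ∀ i, i + 1 < 2 * t → G.r (x i) (x (i + 1)))
    (hcol : ∀ i < t, G.col (x i) = G.col (x (i + t))) (i0 : ℕ) (hi0 : i0 < t)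
    (hne : x i0 ≠ x (i0 + t)) : ∀ j < t, x j ≠ x (j + t) := by
  have step1 : ∀ j, j + 1 < t → x j = x (j + t) → x (j + 1) = x (j + 1 + t) := by
    intro j hj h
    refine G.loc (x j) _ _ (hx j (by omega)) ?_ (hcol (j + 1) hj)
    rw [h, show j + 1 + t = j + t + 1 by omega]
    exact hx (j + t) (by omega)
  have step2 : ∀ j, j + 1 < t → x (j + 1) = x (j + 1 + t) → x j = x (j + t) := by
    intro j hj h
    refine G.loc (x (j + 1)) _ _ (G.symm _ _ (hx j (by omega))) ?_ (hcol j (by omega))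
    rw [h, show j + 1 + t = j + t + 1 by omega]
    exact G.symm _ _ (hx (j + t) (by omega))
  have h0 : ∀ j, j < t → (x j = x (j + t) ↔ x 0 = x (0 + t)) := by
    intro j
    induction j with
    | zero => intro _; rfl
    | succ j ih =>
      intro hj
      rw [← ih (by omega)]
      exact ⟨step2 j hj, step1 j hj⟩
  intro j hj h
  exact hne ((h0 i0 hi0).2 ((h0 j hj).1 h))

theorem T45 {V : Type} [Fintype V] (b K L s : ℕ) (hb : 2 ≤ b) (hK : 1 ≤ K) (hL : 1 ≤ L)
    [NeZero (Mm b K L)] (G : Base V b K) (hR : Rig G s)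
    (hV : Fintype.card V ≤ 2 ^ (tP b L s).m (L - 1)) :
    ∃ c : V → Fin K × (Fin (L + 1) → Fin (Mm b K L)), ∀ (t : ℕ) (x : ℕ → V),
      (∀ i, i + 1 < 2 * t → G.r (x i) (x (i + 1))) →
      (∀ i < t, c (x i) = c (x (i + t))) → ∀ i < t, x i = x (i + t) := by
  have hP : (tP b L s).Ok := (T38 b L s hb).1
  obtain ⟨ci, cm, hc⟩ := T45_choice b L s hb hL
  obtain ⟨z, hz1, hz2, hz3⟩ := T44 b K L s hb hK hL G hV ci cm hc
  have hRig : Rig G (tP b L s).s := hR
  -- all bounds hold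
  have hBd : ∀ i, i < L → Bd (tP b L s) G i (G.str (cz z)) := by
    intro i
    induction i using Nat.strong_induction_on with
    | _ i ih =>
      intro hi
      by_contra hnot
      obtain ⟨n, hn, e, he⟩ := T22 (tP b L s) hP (by omega) G hRig z i
        (fun j hj => ih j hj (by omega)) hnot
      exact hz1 i hi n hn e he
  refine ⟨fun v => (G.col v, fun k => z (v, k)), ?_⟩
  intro t x hx hcc
  by_contra hcon
  push Not at hcon
  obtain ⟨i0, hi0, hne⟩ := hcon
  have hcol : ∀ i < t, G.col (x i) = G.col (x (i + t)) := fun i hi =>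
    congrArg Prod.fst (hcc i hi)
  have hall := T45_all G t x hx hcol i0 hi0 hne
  have ht : 1 ≤ t := by omega
  set X : ℕ → V := x with hX
  set Y : ℕ → V := fun j => x (j + t) with hY
  have hW : PW G.r G.r (Mt (G.str (cz z)) (G.str (cz z)) (L + 1)) X Y (t - 1) := by
    refine ⟨fun j hj => ⟨hx j (by omega), ?_⟩, fun j hj => ⟨hcol j (by omega), ?_⟩⟩
    · show G.r (x (j + t)) (x (j + 1 + t))
      rw [show j + 1 + t = j + t + 1 by omega]
      exact hx (j + t) (by omega)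
    · intro k hk
      have h1 := congrFun (congrArg Prod.snd (hcc j (by omega))) ⟨k, hk⟩
      show cz z (x j) k = cz z (x (j + t)) k
      unfold cz
      rw [dif_pos hk, dif_pos hk]
      exact h1
  have hX0 : X 0 = x 0 := rfl
  have hY0 : Y 0 = x t := by simp [hY]
  have hne0 : X 0 ≠ Y 0 := by
    have := hall 0 (by omega)
    simpa [hY] using this
  have hnear : G.r (X (t - 1)) (Y 0) := by
    rw [hY0]
    have := hx (t - 1) (by omega)
    rwa [show t - 1 + 1 = t by omega] at this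
  have hcol0 : G.col (X 0) = G.col (Y 0) := by
    have := hcol 0 (by omega)
    simpa [hY] using this
  have hW2 : ¬ W G.r (2 * 1) (X 0) (Y 0) := by
    rintro ⟨w, h1, h2⟩
    have h3 : G.r (X 0) w := W_one.1 h1
    exact hne0 (G.loc w _ _ (G.symm _ _ h3) h2 hcol0)
  classical
  set R : ℕ := (tP b L s).m (L - 1) with hRdef
  have hR1 : 1 ≤ R := le_trans (by norm_num) (hP (L - 1)).1
  set rad : ℕ := Nat.findGreatest (fun r => ¬ W G.r (2 * r) (X 0) (Y 0)) R with hrad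
  have hrad1 : 1 ≤ rad :=
    Nat.le_findGreatest (P := fun r => ¬ W G.r (2 * r) (X 0) (Y 0)) hR1 hW2
  have hradR : rad ≤ R := Nat.findGreatest_le _
  have hradP : ¬ W G.r (2 * rad) (X 0) (Y 0) :=
    Nat.findGreatest_spec (P := fun r => ¬ W G.r (2 * r) (X 0) (Y 0)) hR1 hW2
  have hRt : Rt G R rad (X 0) (Y 0) := by
    refine ⟨hradP, fun hlt => ?_⟩
    by_contra hno
    have := Nat.findGreatest_is_greatest (P := fun r => ¬ W G.r (2 * r) (X 0) (Y 0))
      (n := R) (k := rad + 1) (by omega) (by omega)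
    apply this
    show ¬ W G.r (2 * (rad + 1)) (X 0) (Y 0)
    rwa [show 2 * (rad + 1) = 2 * rad + 2 by ring]
  have hXT : ¬ W G.r (2 * rad - 1) (X 0) (X (t - 1)) := by
    intro h
    apply hradP
    have h1 := W_add h (W_one.2 hnear)
    rwa [show 2 * rad - 1 + 1 = 2 * rad by omega] at h1
  by_cases hcase : 2 * (2 * s + 1) ≤ rad + 1
  · obtain ⟨c1, c2, c3, c4, c5⟩ := hc rad hcase hradR
    have hfar : ∃ u ≤ t - 1, ¬ W G.r ((2 * (tP b L s).rho (ci rad) + 1) * (cm rad - 1) - 1)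
        (X 0) (X u) := by
      refine ⟨t - 1, le_rfl, fun h => hXT (W_mono G.refl ?_ h)⟩
      have h1 : (2 * (tP b L s).rho (ci rad) + 1) * (cm rad - 1) ≤
          (2 * (tP b L s).rho (ci rad) + 1) * cm rad := Nat.mul_le_mul le_rfl (Nat.sub_le _ _)
      omega
    obtain ⟨ev, hev⟩ := T24 (tP b L s) hP (by omega) G hRig z (ci rad) (cm rad) R rad c1
      c2 c3 c4 (fun j hj => hBd j hj) X Y (t - 1) hW hRt hfar
    exact hz2 rad hrad1 hradR hcase ev hev
  · have h4 : rad ≤ 4 * s := by omega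
    have hfar : ∃ u ≤ t - 1, ¬ W G.r (min rad s) (X 0) (X u) := by
      refine ⟨t - 1, le_rfl, fun h => hXT (W_mono G.refl ?_ h)⟩
      have := min_le_left rad s
      omega
    obtain ⟨ev, hev⟩ := T25 G s hR z (min rad s) R rad (min_le_right _ _)
      (min_le_left _ _) X Y (t - 1) hW hRt hfar
    exact hz3 rad hrad1 hradR h4 ev hev

end Pool.Agent.LSN
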