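import Pool.Agent.CayNR.Disjoint
import Pool.Agent.LSN.Basic
import Pool.Agent.LSN.J38
import Pool.Agent.LSN.J45
/-!
# LSN, targets T46, T47, T48, T49: interface with simple graphs
-/

set_option autoImplicit false

namespace Pool.Agent.LSN

open Finset Pool.Agent.CayNR

theorem T46 {V : Type} [Fintype V] (G : SimpleGraph V) (Δ K : ℕ)
    (hΔ : ∀ v, (G.neighborSet v).ncard ≤ Δ) (a : V → Fin K) (ha : Dist2 G a) :
    ∃ B : Base V (Δ + 2) K, (∀ x y, B.r x y ↔ (x = y ∨ G.Adj x y)) ∧ B.col = a := by
  classical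
  have hS : ∀ u : V, ∃ f : Fin (Δ + 2) → V, ∀ v, (u = v ∨ G.Adj u v) ↔ ∃ i, f i = v := by
    intro u
    have hcard : (univ.filter (fun v => u = v ∨ G.Adj u v)).card ≤ Δ + 1 := by
      have h1 : (univ.filter (fun v => u = v ∨ G.Adj u v)) ⊆
          insert u (G.neighborSet u).toFinite.toFinset := by
        intro y hy
        rw [mem_insert, Set.Finite.mem_toFinset, SimpleGraph.mem_neighborSet]
        rcases (mem_filter.1 hy).2 with h | h
        · exact Or.inl h.symm
        · exact Or.inr h
      refine (card_le_card h1).trans ((card_insert_le _ _).trans ?_)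
      rw [← Set.ncard_eq_toFinset_card]
      exact Nat.add_le_add_right (hΔ u) 1
    set S := univ.filter (fun v => u = v ∨ G.Adj u v) with hSdef
    let e := S.equivFin.symm
    refine ⟨fun i => if h : i.val < S.card then (e ⟨i.val, h⟩ : V) else u, ?_⟩
    intro v
    constructor
    · intro hv
      have hvS : v ∈ S := by rw [hSdef]; exact mem_filter.2 ⟨mem_univ _, hv⟩
      have hlt := (S.equivFin ⟨v, hvS⟩).2
      refine ⟨⟨(S.equivFin ⟨v, hvS⟩).val, by omega⟩, ?_⟩
      simp only [hlt, dif_pos]
      simp [e]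
    · rintro ⟨i, rfl⟩
      by_cases h : i.val < S.card
      · simp only [h, dif_pos]
        exact (mem_filter.1 (hSdef ▸ (e ⟨i.val, h⟩).2 : (e ⟨i.val, h⟩ : V) ∈
          univ.filter (fun v => u = v ∨ G.Adj u v))).2
      · refine Or.inl ?_
        change u = dite (i.val < S.card) _ _
        rw [dif_neg h]
  choose f hf using hS
  refine ⟨{ r := fun x y => x = y ∨ G.Adj x y
            refl := fun v => Or.inl rfl
            symm := ?_
            nb := f
            nb_r := hf
            col := a
            loc := ?_ }, fun x y => Iff.rfl, rfl⟩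
  · rintro u v (h | h)
    · exact Or.inl h.symm
    · exact Or.inr h.symm
  · intro x y y' h1 h2 h3
    exact ha x y y' h1.symm h2.symm h3

/-- one half of the induction step for T47 -/
lemma T47_aux {V : Type} {b K : ℕ} (G : SimpleGraph V) (B : Base V b K)
    (hB : ∀ x y, B.r x y ↔ (x = y ∨ G.Adj x y)) (s : ℕ)
    (hC : Cons G (fun x y => B.col x = B.col y) (s + 1)) (n : ℕ) (X Y : ℕ → V) (hn : n ≤ s)
    (hX : ∀ j < n, G.Adj (X j) (X (j + 1))) (hY : ∀ j < n, G.Adj (Y j) (Y (j + 1)))
    (hcol : ∀ j ≤ n, B.col (X j) = B.col (Y j))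
    (hpair : ∀ i ≤ n, ∀ j ≤ n, X i = X j → Y i = Y j → i = j) (d : ℕ) (hd : 1 ≤ d)
    (ihX : ∀ e < d, 1 ≤ e → ∀ i, i + e ≤ n → X i ≠ X (i + e))
    (ihY : ∀ e < d, 1 ≤ e → ∀ i, i + e ≤ n → Y i ≠ Y (i + e))
    (i : ℕ) (hi : i + d ≤ n) : X i ≠ X (i + d) := by
  intro h
  have hne : Y i ≠ Y (i + d) := by
    intro h2
    have := hpair i (by omega) (i + d) hi h h2
    omega
  rcases Nat.lt_or_ge d 3 with h3 | h3
  · rcases Nat.lt_or_ge d 2 with h2 | h2
    · have : d = 1 := by omega
      subst this
      have := hX i (by omega)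
      rw [← h] at this
      exact G.irrefl this
    · have : d = 2 := by omega
      subst this
      apply hne
      have h4 := hY i (by omega)
      have h5 := hY (i + 1) (by omega)
      refine B.loc (Y (i + 1)) _ _ ((hB _ _).2 (Or.inr h4.symm)) ((hB _ _).2 (Or.inr h5)) ?_
      rw [← hcol i (by omega), ← hcol (i + 2) (by omega), h]
  · apply hne
    have h4 := hC d (fun j => X (i + j)) (fun j => Y (i + j)) h3 (by omega)
      (fun j hj => hX (i + j) (by omega)) h.symm ?_ (fun j hj => hY (i + j) (by omega)) ?_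
      (fun j hj => hcol (i + j) (by omega))
    · exact h4.symm
    · intro j hj k hk h5
      rcases lt_trichotomy j k with h6 | h6 | h6
      · exfalso
        refine ihX (k - j) (by omega) (by omega) (i + j) (by omega) ?_
        rw [show i + j + (k - j) = i + k by omega]
        exact h5
      · exact h6
      · exfalso
        refine ihX (j - k) (by omega) (by omega) (i + k) (by omega) ?_
        rw [show i + k + (j - k) = i + j by omega]
        exact h5.symm
    · intro j hj k hk h5
      rcases lt_trichotomy j k with h6 | h6 | h6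
      · exfalso
        refine ihY (k - j) (by omega) (by omega) (i + j) (by omega) ?_
        rw [show i + j + (k - j) = i + k by omega]
        exact h5
      · exact h6
      · exfalso
        refine ihY (j - k) (by omega) (by omega) (i + k) (by omega) ?_
        rw [show i + k + (j - k) = i + j by omega]
        exact h5.symm

theorem T47 {V : Type} {b K : ℕ} (G : SimpleGraph V) (B : Base V b K)
    (hB : ∀ x y, B.r x y ↔ (x = y ∨ G.Adj x y)) (s : ℕ)
    (hC : Cons G (fun x y => B.col x = B.col y) (s + 1)) : Rig B s := by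
  intro n X Y hn hstep hcol hpair
  have step : ∀ (P Q : ℕ → V), (∀ j < n, B.r (P j) (P (j + 1)) ∧ B.r (Q j) (Q (j + 1))) →
      (∀ j ≤ n, B.col (P j) = B.col (Q j)) →
      (∀ i ≤ n, ∀ j ≤ n, P i = P j → Q i = Q j → i = j) → ∀ j < n, G.Adj (P j) (P (j + 1)) := by
    intro P Q h1 h2 h3 j hj
    rcases (hB _ _).1 (h1 j hj).1 with h | h
    · exfalso
      have h4 : Q j = Q (j + 1) := by
        refine B.loc (Q j) _ _ (B.refl _) (h1 j hj).2 ?_
        rw [← h2 j (by omega), ← h2 (j + 1) (by omega), ← h]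
      have := h3 j (by omega) (j + 1) (by omega) h h4
      omega
    · exact h
  have hX := step X Y hstep hcol hpair
  have hY := step Y X (fun j hj => (hstep j hj).symm) (fun j hj => (hcol j hj).symm)
    (fun i hi j hj h1 h2 => hpair i hi j hj h2 h1)
  have key : ∀ d, 1 ≤ d → ∀ i, i + d ≤ n → X i ≠ X (i + d) ∧ Y i ≠ Y (i + d) := by
    intro d
    induction d using Nat.strong_induction_on with
    | _ d ih =>
      intro hd i hi
      refine ⟨?_, ?_⟩
      · exact T47_aux G B hB s hC n X Y hn hX hY hcol hpair d hd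
          (fun e he h1 i hi => (ih e he h1 i hi).1) (fun e he h1 i hi => (ih e he h1 i hi).2) i hi
      · exact T47_aux G B hB s hC n Y X hn hY hX (fun j hj => (hcol j hj).symm)
          (fun i hi j hj h1 h2 => hpair i hi j hj h2 h1) d hd
          (fun e he h1 i hi => (ih e he h1 i hi).2) (fun e he h1 i hi => (ih e he h1 i hi).1) i hi
  intro i hi j hj h
  rcases lt_trichotomy i j with h6 | h6 | h6
  · exfalso
    refine (key (j - i) (by omega) i (by omega)).1 ?_
    rw [show i + (j - i) = j by omega]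
    exact h
  · exact h6
  · exfalso
    refine (key (i - j) (by omega) j (by omega)).1 ?_
    rw [show j + (i - j) = i by omega]
    exact h.symm

theorem T48 {V : Type} {b K : ℕ} (B : Base V b K) : Rig B 0 := by
  intro n X Y hn _ _ _ i hi j hj _
  omega

theorem T49 {V : Type} [Fintype V] (G : SimpleGraph V) (Δ K L s : ℕ) (hL : 1 ≤ L) (hK : 1 ≤ K)
    (hΔ : ∀ v, (G.neighborSet v).ncard ≤ Δ) (a : V → Fin K) (ha : Dist2 G a)
    (hC : Cons G (fun x y => a x = a y) (s + 1))
    (hV : Fintype.card V ≤ tw (L + 1) (s + 1)) :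
    HasBoringColouring G (K * Mm (Δ + 2) K L ^ (L + 1)) := by
  obtain ⟨B, hB, hcol⟩ := T46 G Δ K hΔ a ha
  have hR : Rig B s := by
    refine T47 G B hB s ?_
    rw [hcol]
    exact hC
  have : NeZero (Mm (Δ + 2) K L) := by
    refine ⟨?_⟩
    have h1 : 0 < Aa (Δ + 2) L := by unfold Aa; positivity
    have h2 : 0 < QL (Δ + 2) K L := by unfold QL; positivity
    have h3 : 0 < Mm (Δ + 2) K L := by unfold Mm; positivity
    omega
  have h38 := (T38 (Δ + 2) L s (by omega)).2.2.2.2.2.2.2.2 (L - 1)
  rw [Nat.sub_add_cancel hL] at h38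
  have hV2 : Fintype.card V ≤ 2 ^ (tP (Δ + 2) L s).m (L - 1) := by
    refine hV.trans ?_
    change 2 ^ tw L (s + 1) ≤ _
    exact Nat.pow_le_pow_right (by norm_num) h38
  obtain ⟨c, hc⟩ := T45 (Δ + 2) K L s (by omega) hK hL B hR hV2
  refine boring_of_card G c _ (by simp) ?_
  intro t x hx hcx
  exact hc t x (fun i hi => (hB _ _).2 (hx i hi)) hcx

end Pool.Agent.LSN
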